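import Pool.Agent.Y880.RS.G5a

/-!
Progressions of arguments at which a polynomial plus a shift is prime.
-/

set_option autoImplicit false

open Finset Polynomial

namespace Pool.Agent.Y880.RS.G5

open Pool.Agent.Y880.RS.Sec

theorem zfacts (Z₀ : ℕ) : ∃ X₀ : ℕ, ∀ X : ℕ, X₀ ≤ X → Z₀ ≤ Nat.sqrt (Nat.sqrt X) ∧
    16 ≤ Nat.sqrt (Nat.sqrt X) ∧ Nat.sqrt (Nat.sqrt X) ^ 4 ≤ X ∧ X ≤ Nat.sqrt (Nat.sqrt X) ^ 5 := by
  refine ⟨(max Z₀ 16) ^ 4, fun X hX => ?_⟩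
  have h1 : max Z₀ 16 ≤ Nat.sqrt (Nat.sqrt X) := by
    rw [Nat.le_sqrt, Nat.le_sqrt]
    calc _ = (max Z₀ 16) ^ 4 := by ring
      _ ≤ X := hX
  obtain ⟨Z, hZ⟩ : ∃ Z, Z = Nat.sqrt (Nat.sqrt X) := ⟨_, rfl⟩
  rw [← hZ] at h1 ⊢
  have h16 : 16 ≤ Z := (le_max_right _ _).trans h1
  refine ⟨(le_max_left _ _).trans h1, h16, ?_, ?_⟩
  · have h2 : Z * Z ≤ Nat.sqrt X := by rw [hZ]; exact Nat.sqrt_le _
    have h3 : Nat.sqrt X * Nat.sqrt X ≤ X := Nat.sqrt_le _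
    calc Z ^ 4 = (Z * Z) * (Z * Z) := by ring
      _ ≤ Nat.sqrt X * Nat.sqrt X := Nat.mul_le_mul h2 h2
      _ ≤ X := h3
  · have h2 : Nat.sqrt X < (Z + 1) * (Z + 1) := by rw [hZ]; exact Nat.lt_succ_sqrt _
    have h3 : X < (Nat.sqrt X + 1) * (Nat.sqrt X + 1) := Nat.lt_succ_sqrt _
    have h4 : Nat.sqrt X + 1 ≤ (2 * Z) * (2 * Z) := by
      calc Nat.sqrt X + 1 ≤ (Z + 1) * (Z + 1) := h2
        _ ≤ _ := Nat.mul_le_mul (by omega) (by omega)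
    calc X ≤ (Nat.sqrt X + 1) * (Nat.sqrt X + 1) := h3.le
      _ ≤ ((2 * Z) * (2 * Z)) * ((2 * Z) * (2 * Z)) := Nat.mul_le_mul h4 h4
      _ = 16 * Z ^ 4 := by ring
      _ ≤ Z * Z ^ 4 := Nat.mul_le_mul_right _ h16
      _ = _ := by ring

theorem prim_exp (ε ν s : ℝ) (hs : s = ε / 2 * ν) (hs0 : 0 ≤ s) :
    ((primorial ⌊s⌋₊ : ℕ) : ℝ) ≤ Real.exp (7 / 10 * ε * ν) := by
  have h1 : ((primorial ⌊s⌋₊ : ℕ) : ℝ) ≤ (4 : ℝ) ^ ⌊s⌋₊ := by
    exact_mod_cast primorial_le_four_pow _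
  have h2 : (4 : ℝ) ^ ⌊s⌋₊ = Real.exp (⌊s⌋₊ * Real.log 4) := by
    rw [← Real.log_pow, Real.exp_log (by positivity)]
  have h3 : Real.log 4 ≤ 7 / 5 := by
    have : (4 : ℝ) = 2 ^ 2 := by norm_num
    rw [this, Real.log_pow]
    have := Real.log_two_lt_d9
    push_cast
    linarith
  rw [h2] at h1
  refine h1.trans (Real.exp_le_exp.2 ?_)
  calc (⌊s⌋₊ : ℝ) * Real.log 4 ≤ s * (7 / 5) := by
        apply mul_le_mul (Nat.floor_le hs0) h3 (Real.log_nonneg (by norm_num)) hs0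
    _ = _ := by rw [hs]; ring

theorem prim_dvd (s : ℝ) (p : ℕ) (hp : p.Prime) (hps : (p : ℝ) ≤ s) : p ∣ primorial ⌊s⌋₊ := by
  unfold primorial
  apply dvd_prod_of_mem
  rw [mem_filter, mem_range]
  refine ⟨?_, hp⟩
  have := Nat.le_floor hps
  omega

theorem Ql_le (B : ℕ) (Q N l ν ε : ℝ) (hN0 : 0 < N) (hl : 1 ≤ l) (hν : ν = Real.log N) (hν1 : 1 ≤ ν)
    (hε1 : ε ≤ 1) (hνl : 4 * (B + 3) * Real.log l ≤ ν)
    (hQle : Q ≤ Real.exp (7 / 10 * ε * ν)) : Q * l ^ (B + 3) ≤ N := by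
  have h1 : l ^ (B + 3) = Real.exp ((B + 3 : ℕ) * Real.log l) := by
    rw [← Real.log_pow, Real.exp_log (by positivity)]
  have h2 : (N : ℝ) = Real.exp ν := by rw [hν, Real.exp_log hN0]
  rw [h1, h2]
  calc (Q : ℝ) * Real.exp ((B + 3 : ℕ) * Real.log l) ≤
      Real.exp (7 / 10 * ε * ν) * Real.exp ((B + 3 : ℕ) * Real.log l) := by gcongr
    _ = Real.exp (7 / 10 * ε * ν + (B + 3 : ℕ) * Real.log l) := by rw [Real.exp_add]
    _ ≤ Real.exp ν := by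
        apply Real.exp_le_exp.2
        push_cast
        have h3 : 7 / 10 * ε * ν ≤ 7 / 10 * ν := by
          have : ε * ν ≤ 1 * ν := by gcongr
          nlinarith
        linarith

theorem N'_le (B n₀ m N' : ℕ) (L : ℝ) (hm : m = max ⌈L ^ B⌉₊ (2 * n₀ + 5)) (hL1 : 2 * (2 * (n₀ : ℝ) + 8) ≤ L)
    (hN'2 : N' ≤ 2 * m) : (N' : ℝ) ≤ L ^ (B + 1) := by
  have h0 : (0 : ℝ) ≤ n₀ := Nat.cast_nonneg _
  have hL1B : 1 ≤ L ^ B := one_le_pow₀ (by linarith)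
  have h1 : (m : ℝ) ≤ L ^ B + (2 * n₀ + 6) := by
    rw [hm, Nat.cast_max]
    apply max_le
    · have := (Nat.ceil_lt_add_one (show 0 ≤ L ^ B by linarith)).le
      linarith
    · push_cast
      linarith
  have h2 : (N' : ℝ) ≤ 2 * m := by exact_mod_cast hN'2
  calc (N' : ℝ) ≤ 2 * (L ^ B + (2 * n₀ + 6)) := by linarith
    _ ≤ 2 * (L ^ B + (2 * n₀ + 6) * L ^ B) := by
        have : (2 * (n₀ : ℝ) + 6) * 1 ≤ (2 * n₀ + 6) * L ^ B := by gcongr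
        linarith
    _ = L ^ B * (2 * (2 * n₀ + 7)) := by ring
    _ ≤ L ^ B * L := by
        apply mul_le_mul_of_nonneg_left _ (by linarith)
        linarith
    _ = _ := by rw [pow_succ]

theorem QN'_le (B N' : ℕ) (Q N l D : ℝ) (hQ : 0 ≤ Q) (hl : 2 ≤ l) (hD : 0 ≤ D) (hDl : D ≤ l)
    (hN'l : (N' : ℝ) ≤ l ^ (B + 1)) (hQl : Q * l ^ (B + 3) ≤ N) :
    Q * ((N' + 1 : ℕ) : ℝ) * D ≤ N := by
  refine le_trans ?_ hQl
  have h1 : ((N' + 1 : ℕ) : ℝ) ≤ l ^ (B + 2) := by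
    push_cast
    have h2 : (1 : ℝ) ≤ l ^ (B + 1) := one_le_pow₀ (by linarith)
    calc (N' : ℝ) + 1 ≤ l ^ (B + 1) * 2 := by linarith
      _ ≤ l ^ (B + 1) * l := by
          apply mul_le_mul_of_nonneg_left _ (by linarith)
          linarith
      _ = _ := by rw [← pow_succ]
  calc Q * ((N' + 1 : ℕ) : ℝ) * D ≤ Q * l ^ (B + 2) * l := by gcongr
    _ = _ := by ring

theorem KZ_le (Cf d N Z : ℕ) (hNd : N ^ d ≤ Z) (hZZ4 : Cf * 2 ^ d + 2 ≤ Z) :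
    Cf * (2 * N) ^ d + 1 ≤ Z ^ 2 := by
  have h1 : Cf * (2 * N) ^ d = Cf * 2 ^ d * N ^ d := by rw [mul_pow]; ring
  have h2 : Cf * 2 ^ d * N ^ d ≤ Cf * 2 ^ d * Z := Nat.mul_le_mul_left _ hNd
  have h3 : (Cf * 2 ^ d + 1) * Z ≤ Z * Z := Nat.mul_le_mul_right Z (by omega)
  have h4 : (Cf * 2 ^ d + 1) * Z = Cf * 2 ^ d * Z + Z := by ring
  rw [h1, pow_two]
  omega

theorem tcard (δ : ℝ) (hδ : 0 < δ) (Q h N N' : ℕ) (T : Finset ℕ) (hTc : δ * N ≤ T.card) (hh : h ≤ N')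
    (h4 : (Q : ℝ) * ((N' + 1 : ℕ) : ℝ) * (8 / δ + 8) ≤ N) :
    δ / 2 * N ≤ (T.filter (fun n => Q * (h + 1) ≤ n)).card := by
  obtain ⟨T', hT'⟩ : ∃ T', T' = T.filter (fun n => Q * (h + 1) ≤ n) := ⟨_, rfl⟩
  rw [← hT']
  have h1 : T.card ≤ T'.card + Q * (h + 1) := by
    have h2 : T ⊆ T' ∪ range (Q * (h + 1)) := by
      intro n hn
      rw [mem_union, hT', mem_filter, mem_range]
      by_cases h3 : Q * (h + 1) ≤ n
      · left; exact ⟨hn, h3⟩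
      · right; omega
    calc T.card ≤ (T' ∪ range (Q * (h + 1))).card := card_le_card h2
      _ ≤ T'.card + (range (Q * (h + 1))).card := card_union_le _ _
      _ = _ := by rw [card_range]
  have h2 : ((Q * (h + 1) : ℕ) : ℝ) ≤ δ / 2 * N := by
    have h3 : ((Q * (h + 1) : ℕ) : ℝ) ≤ (Q : ℝ) * ((N' + 1 : ℕ) : ℝ) := by
      have : Q * (h + 1) ≤ Q * (N' + 1) := Nat.mul_le_mul_left Q (by omega)
      exact_mod_cast this
    have h4' : (Q : ℝ) * ((N' + 1 : ℕ) : ℝ) * (8 / δ) ≤ N := by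
      refine le_trans ?_ h4
      apply mul_le_mul_of_nonneg_left _ (by positivity)
      linarith
    have h5 : (Q : ℝ) * ((N' + 1 : ℕ) : ℝ) ≤ δ / 8 * N := by
      calc (Q : ℝ) * ((N' + 1 : ℕ) : ℝ) = δ / 8 * ((Q : ℝ) * ((N' + 1 : ℕ) : ℝ) * (8 / δ)) := by
            field_simp
        _ ≤ δ / 8 * N := by gcongr
    have h6 : δ / 8 * N ≤ δ / 2 * N := by gcongr; norm_num
    exact h3.trans (h5.trans h6)
  have h3 : (T.card : ℝ) ≤ T'.card + ((Q * (h + 1) : ℕ) : ℝ) := by exact_mod_cast h1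
  linarith

theorem pcard (δ l : ℝ) (hδ : 0 < δ) (hl : 0 < l) (K Z X : ℕ) (P : Finset ℕ) (hP : P ⊆ Icc 1 X)
    (hPc : δ * (X / l) ≤ P.card) (hKZ : K ≤ Z ^ 2) (h16 : 16 ≤ Z) (hlZ : l ≤ 5 * Z) (hZ4 : Z ^ 4 ≤ X)
    (hZZ5 : 50 / δ ≤ Z) :
    δ / 2 * (X / l) ≤ (P.filter (fun p => Z < p ∧ 2 * K < p ∧ p + 2 * K ≤ X)).card := by
  obtain ⟨P', hP'⟩ : ∃ P', P' = P.filter (fun p => Z < p ∧ 2 * K < p ∧ p + 2 * K ≤ X) := ⟨_, rfl⟩
  rw [← hP']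
  have hZ0 : (0 : ℝ) < Z := by
    have : 0 < Z := by omega
    exact_mod_cast this
  have h1 : P.card ≤ P'.card + (2 * K + Z + 1 + 2 * K) := by
    have h2 : P ⊆ P' ∪ (range (2 * K + Z + 1) ∪ Ioc (X - 2 * K) X) := by
      intro p hp
      have hpX := mem_Icc.1 (hP hp)
      rw [mem_union, mem_union, hP', mem_filter, mem_range, mem_Ioc]
      by_cases h3 : Z < p ∧ 2 * K < p ∧ p + 2 * K ≤ X
      · left; exact ⟨hp, h3⟩
      · right; omega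
    calc P.card ≤ _ := card_le_card h2
      _ ≤ P'.card + (range (2 * K + Z + 1) ∪ Ioc (X - 2 * K) X).card := card_union_le _ _
      _ ≤ P'.card + ((range (2 * K + Z + 1)).card + (Ioc (X - 2 * K) X).card) := by
          have := card_union_le (range (2 * K + Z + 1)) (Ioc (X - 2 * K) X)
          omega
      _ ≤ _ := by rw [card_range, Nat.card_Ioc]; omega
  have h2 : 2 * K + Z + 1 + 2 * K ≤ 5 * Z ^ 2 := by
    have : Z + 1 ≤ Z ^ 2 := by nlinarith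
    omega
  have h3 : 5 * (Z : ℝ) ^ 2 ≤ δ / 2 * (X / l) := by
    have h5 : (Z : ℝ) ^ 4 ≤ X := by exact_mod_cast hZ4
    have h6 : (Z : ℝ) ^ 4 / (5 * Z) ≤ X / l := by gcongr
    have h7 : (Z : ℝ) ^ 4 / (5 * Z) = (Z : ℝ) ^ 2 * Z / 5 := by
      field_simp
    have h8 : 50 ≤ δ * Z := by
      rw [div_le_iff₀ hδ] at hZZ5
      linarith
    calc 5 * (Z : ℝ) ^ 2 = (Z : ℝ) ^ 2 * 50 / 10 := by ring
      _ ≤ (Z : ℝ) ^ 2 * (δ * Z) / 10 := by gcongr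
      _ = δ / 2 * ((Z : ℝ) ^ 2 * Z / 5) := by ring
      _ ≤ _ := by rw [← h7]; gcongr
  have h4 : (P.card : ℝ) ≤ P'.card + 5 * (Z : ℝ) ^ 2 := by
    have : P.card ≤ P'.card + 5 * Z ^ 2 := by omega
    exact_mod_cast this
  linarith

theorem n2N (Q h V N N' : ℕ) (hVd : V = N / Q / h + 1) (hQN'1 : Q * (N' + 1) ≤ N) (b v u : ℕ) (hb : b < Q)
    (hv : v < V) (hu : u ≤ N') : b + Q * (h * v + u) ≤ 2 * N := by
  have h1 : h * v ≤ N / Q := by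
    have h2 : v ≤ N / Q / h := by omega
    calc h * v ≤ h * (N / Q / h) := Nat.mul_le_mul_left h h2
      _ ≤ N / Q := Nat.mul_div_le _ _
  have h2 : Q * (h * v) ≤ N := (Nat.mul_le_mul_left Q h1).trans (Nat.mul_div_le _ _)
  have h3 : Q * u ≤ Q * N' := Nat.mul_le_mul_left Q hu
  nlinarith

theorem V_le (Q h V N : ℕ) (hVd : V = N / Q / h + 1) (hQ : 1 ≤ Q) (hh : 1 ≤ h) (hQh : Q * (h + 1) ≤ N) :
    (V : ℝ) ≤ 2 * N / (Q * h) := by
  have hQ0 : (0 : ℝ) < Q := by exact_mod_cast hQ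
  have hh0 : (0 : ℝ) < h := by exact_mod_cast hh
  rw [hVd]
  push_cast
  have h1 : ((N / Q / h : ℕ) : ℝ) ≤ N / (Q * h) := by
    rw [Nat.div_div_eq_div_mul]
    have := @Nat.cast_div_le ℝ _ _ _ N (Q * h)
    push_cast at this
    exact this
  have h2 : (1 : ℝ) ≤ N / (Q * h) := by
    rw [one_le_div (by positivity)]
    have : Q * h ≤ N := (Nat.mul_le_mul_left Q (by omega)).trans hQh
    exact_mod_cast this
  calc ((N / Q / h : ℕ) : ℝ) + 1 ≤ N / (Q * h) + N / (Q * h) := add_le_add h1 h2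
    _ = _ := by ring

theorem logK (Cf d K N A : ℕ) (ε ν s : ℝ) (hCf1 : 1 ≤ Cf) (hN1 : 1 ≤ N) (hKd : K = Cf * (2 * N) ^ d + 1)
    (hν : ν = Real.log N) (hν0 : 0 ≤ ν) (hνC : Real.log (4 * Cf * 2 ^ d) ≤ ν) (hs : s = ε / 2 * ν)
    (hAε : (d : ℝ) + 1 ≤ A * (ε / 2)) : Real.log (2 * (K : ℝ)) ≤ A * s := by
  have hN0 : (0 : ℝ) < N := by exact_mod_cast hN1
  have h1 : (2 * (K : ℝ)) ≤ 4 * Cf * 2 ^ d * (N : ℝ) ^ d := by
    have h2 : 2 * K ≤ 4 * Cf * 2 ^ d * N ^ d := by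
      have h3 : 1 ≤ Cf * (2 * N) ^ d := Nat.mul_pos hCf1 (Nat.pow_pos (by omega))
      calc 2 * K ≤ 4 * (Cf * (2 * N) ^ d) := by omega
        _ = _ := by rw [mul_pow]; ring
    exact_mod_cast h2
  have hK0 : (0 : ℝ) < 2 * (K : ℝ) := by
    have : 0 < K := by omega
    have : (0 : ℝ) < K := by exact_mod_cast this
    linarith
  have hCf0 : (0 : ℝ) < Cf := by exact_mod_cast hCf1
  calc Real.log (2 * (K : ℝ)) ≤ Real.log (4 * Cf * 2 ^ d * (N : ℝ) ^ d) := Real.log_le_log hK0 h1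
    _ = Real.log (4 * Cf * 2 ^ d) + d * ν := by
        rw [Real.log_mul (by positivity) (by positivity), Real.log_pow, hν]
    _ ≤ ν + d * ν := by linarith
    _ = ((d : ℝ) + 1) * ν := by ring
    _ ≤ (A * (ε / 2)) * ν := by gcongr
    _ = A * s := by rw [hs]; ring

/-- the shifts `T u = F(b + Q (h v + u))` satisfy the pair conditions -/
theorem sep_poly (f : ℤ[X]) (n₀ K Q h N N' A b v : ℕ) (s : ℝ) (hQ1 : 1 ≤ Q)
    (hn₀ : ∀ m n : ℕ, n₀ ≤ m → n₀ ≤ n → f.eval (m : ℤ) = f.eval (n : ℤ) → m = n)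
    (hK : ∀ n ≤ 2 * N, (f.eval (n : ℤ)).natAbs < K)
    (hnn : ∀ u ∈ Icc 1 N', b + Q * (h * v + u) ≤ 2 * N ∧ n₀ ≤ b + Q * (h * v + u))
    (hK2 : Real.log (2 * (K : ℝ)) ≤ A * s) :
    Sep2 1 A Q N' s (fun u _ => Fn f K (b + Q * (h * v + u))) := by
  intro u hu u' hu' i i' hne
  have huu : u ≠ u' := by
    intro h0
    apply hne
    rw [h0, Subsingleton.elim i i']
  have h2 := Fn_cast (hK _ (hnn u hu).1)
  have h3 := Fn_cast (hK _ (hnn u' hu').1)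
  have h4 : f.eval ((b + Q * (h * v + u) : ℕ) : ℤ) ≠ f.eval ((b + Q * (h * v + u') : ℕ) : ℤ) := by
    intro h5
    have h6 := hn₀ _ _ (hnn u hu).2 (hnn u' hu').2 h5
    have h7 : Q * (h * v + u) = Q * (h * v + u') := by omega
    have h8 := Nat.eq_of_mul_eq_mul_left hQ1 h7
    omega
  refine ⟨?_, (f.eval ((b + Q * (h * v + u) : ℕ) : ℤ) - f.eval ((b + Q * (h * v + u') : ℕ) : ℤ)).natAbs,
    ?_, ?_, ?_⟩
  · intro h5
    apply h4
    have h6 : (Fn f K (b + Q * (h * v + u)) : ℤ) = Fn f K (b + Q * (h * v + u')) := by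
      exact_mod_cast h5
    rw [h2.1, h3.1] at h6
    linarith
  · rw [Int.natAbs_ne_zero]
    exact sub_ne_zero.2 h4
  · refine le_trans ?_ hK2
    apply Real.log_le_log
    · have : 0 < (f.eval ((b + Q * (h * v + u) : ℕ) : ℤ) -
        f.eval ((b + Q * (h * v + u') : ℕ) : ℤ)).natAbs := by
        rw [Int.natAbs_pos]
        exact sub_ne_zero.2 h4
      exact_mod_cast this
    · have h5 := hK _ (hnn u hu).1
      have h6 := hK _ (hnn u' hu').1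
      have : (f.eval ((b + Q * (h * v + u) : ℕ) : ℤ) -
        f.eval ((b + Q * (h * v + u') : ℕ) : ℤ)).natAbs ≤ 2 * K := by omega
      exact_mod_cast this
  · intro p _ _ hpd
    simp only at hpd
    rw [h2.1, h3.1, add_sub_add_right_eq_sub] at hpd
    exact Int.natCast_dvd.1 hpd

theorem g5 (f : ℤ[X]) (hf : f.natDegree ≠ 0) (k : ℕ) (hk : 2 ≤ k) (δ ε : ℝ) (hδ : 0 < δ)
    (hε : 0 < ε) (hε1 : ε ≤ 1) :
    ∃ B : ℕ, ∃ c : ℝ, 0 < c ∧ ∃ X₀ : ℕ, ∀ X N : ℕ, X₀ ≤ X → Real.log X ^ B ≤ N →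
    N ^ (4 * f.natDegree) ≤ X →
    ∀ T ⊆ Icc 1 N, δ * N ≤ T.card → ∀ P ⊆ Icc 1 X, (∀ p ∈ P, p.Prime) → δ * (X / Real.log X) ≤ P.card →
    ∃ G ⊆ Icc 1 X, c * X ≤ G.card ∧ ∀ b ∈ G, ∃ n r : ℕ, 1 ≤ r ∧ (r : ℝ) ≤ (N : ℝ) ^ ε * Real.log X ^ B ∧
      ∀ j < k, n + j * r ∈ T ∧ ∃ p ∈ P, (p : ℤ) = f.eval ((n + j * r : ℕ) : ℤ) + b := by
  classical
  obtain ⟨Cf, hCf1, hCf⟩ := growth f
  obtain ⟨n₀, hn₀⟩ := inj_ev f hf
  obtain ⟨C₂, hC₂, hsec⟩ := second f hf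
  obtain ⟨d, hd⟩ : ∃ d, d = f.natDegree := ⟨_, rfl⟩
  rw [← hd] at hCf hf ⊢
  obtain ⟨A, hA⟩ : ∃ A, A = ⌈2 * ((d : ℝ) + 1) / ε⌉₊ + 6 := ⟨_, rfl⟩
  have hAε : (d : ℝ) + 1 ≤ A * (ε / 2) := by
    have h1 : 2 * ((d : ℝ) + 1) / ε ≤ A := by
      rw [hA]
      push_cast
      have := Nat.le_ceil (2 * ((d : ℝ) + 1) / ε)
      linarith
    rw [div_le_iff₀ hε] at h1
    linarith
  have hA6 : 6 ≤ A := by omega
  obtain ⟨C₁, s₁, hC₁, hub0⟩ := ub2 1 A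
  obtain ⟨Z₁, hub⟩ := hub0 0
  obtain ⟨δ₁, hδ₁⟩ : ∃ δ₁, δ₁ = δ ^ 2 / 80 := ⟨_, rfl⟩
  have hδ₁0 : 0 < δ₁ := by rw [hδ₁]; positivity
  obtain ⟨B, s₂, c₂, hc₂, hte0⟩ := te2 k 1 A hk (δ₁ / 3) (by positivity)
  obtain ⟨Z₂, hte⟩ := hte0 (B + 1)
  obtain ⟨c', hc'⟩ : ∃ c', c' = max (max (Real.log (4 * Cf * 2 ^ d)) 1) (max (2 * s₁ / ε) (2 * s₂ / ε)) :=
    ⟨_, rfl⟩
  obtain ⟨Z₃, hZ₃⟩ := log_ev (max (max (2 * (2 * n₀ + 8)) (Real.exp c')) (max (8 / δ + 8) 2))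
  obtain ⟨X₀, hX₀⟩ := zfacts (max (max Z₁ Z₂) (max (max Z₃ (Cf * 2 ^ d + 2)) (⌈50 / δ⌉₊)))
  refine ⟨4 * (B + 3), c₂ * ((δ ^ 2 / 40) ^ 2 / (4 * C₁ ^ 2 * C₂)), by positivity, X₀, ?_⟩
  intro X N hX hN hNX T hT hTc P hP hPp hPc
  obtain ⟨hZall, h16, hZ4, hZ5⟩ := hX₀ X hX
  have hZ1 : Nat.sqrt (Nat.sqrt X) = Nat.sqrt (Nat.sqrt X) := rfl
  obtain ⟨Z, hZ⟩ : ∃ Z, Z = Nat.sqrt (Nat.sqrt X) := ⟨_, rfl⟩
  rw [← hZ] at hZall h16 hZ4 hZ5
  have hZZ1 : Z₁ ≤ Z := ((le_max_left _ _).trans (le_max_left _ _)).trans hZall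
  have hZZ2 : Z₂ ≤ Z := ((le_max_right _ _).trans (le_max_left _ _)).trans hZall
  have hZZ3 : Z₃ ≤ Z := (((le_max_left _ _).trans (le_max_left _ _)).trans (le_max_right _ _)).trans hZall
  have hZZ4 : Cf * 2 ^ d + 2 ≤ Z :=
    (((le_max_right _ _).trans (le_max_left _ _)).trans (le_max_right _ _)).trans hZall
  have hZZ5 : 50 / δ ≤ Z := (Nat.le_ceil _).trans (by
    exact_mod_cast ((le_max_right _ _).trans (le_max_right _ _)).trans hZall)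
  obtain ⟨L, hL⟩ : ∃ L, L = Real.log Z := ⟨_, rfl⟩
  obtain ⟨l, hl⟩ : ∃ l, l = Real.log X := ⟨_, rfl⟩
  have hLs := hZ₃ Z hZZ3
  rw [← hL] at hLs
  rw [← hl] at hN hPc ⊢
  have hL1 : 2 * (2 * (n₀ : ℝ) + 8) ≤ L := ((le_max_left _ _).trans (le_max_left _ _)).trans hLs
  have hL2 : Real.exp c' ≤ L := ((le_max_right _ _).trans (le_max_left _ _)).trans hLs
  have hL3 : 8 / δ + 8 ≤ L := ((le_max_left _ _).trans (le_max_right _ _)).trans hLs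
  have hL4 : 2 ≤ L := ((le_max_right _ _).trans (le_max_right _ _)).trans hLs
  have hZ0 : (0 : ℝ) < Z := by
    have : 0 < Z := by omega
    exact_mod_cast this
  have hX0 : (0 : ℝ) < X := by
    have h1 : (0 : ℝ) < (Z : ℝ) ^ 4 := by positivity
    exact lt_of_lt_of_le h1 (by exact_mod_cast hZ4)
  have hX1 : 1 ≤ X := by exact_mod_cast hX0
  have hLl : 4 * L ≤ l := by
    have h1 : Real.log ((Z : ℝ) ^ 4) ≤ Real.log X := Real.log_le_log (by positivity) (by exact_mod_cast hZ4)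
    rw [Real.log_pow, ← hL, ← hl] at h1
    exact_mod_cast h1
  have hlL : l ≤ 5 * L := by
    have h1 : Real.log X ≤ Real.log ((Z : ℝ) ^ 5) := Real.log_le_log hX0 (by exact_mod_cast hZ5)
    rw [Real.log_pow, ← hL, ← hl] at h1
    exact_mod_cast h1
  have hl1 : 1 ≤ l := by linarith
  have hLZ : L ≤ Z := by
    rw [hL]
    exact (Real.log_le_sub_one_of_pos hZ0).trans (by linarith)
  -- `N`
  have hN1r : 1 ≤ (N : ℝ) := (one_le_pow₀ hl1).trans hN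
  have hN1 : 1 ≤ N := by exact_mod_cast hN1r
  have hN0 : (0 : ℝ) < N := by linarith
  obtain ⟨ν, hν⟩ : ∃ ν, ν = Real.log N := ⟨_, rfl⟩
  have hνl : 4 * (B + 3) * Real.log l ≤ ν := by
    have h1 := Real.log_le_log (by positivity) hN
    rw [Real.log_pow, ← hν] at h1
    push_cast at h1
    exact h1
  have hlogl : c' ≤ Real.log l := by
    rw [Real.le_log_iff_exp_le (by linarith)]
    linarith
  have hc'1 : 1 ≤ c' := by rw [hc']; exact (le_max_right _ _).trans (le_max_left _ _)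
  have hνc : c' ≤ ν := by
    have h1 : (1 : ℝ) * Real.log l ≤ 4 * (B + 3) * Real.log l := by
      apply mul_le_mul_of_nonneg_right _ (by linarith)
      have : (0 : ℝ) ≤ B := Nat.cast_nonneg B
      linarith
    linarith
  have hν1 : 1 ≤ ν := hc'1.trans hνc
  have hνC : Real.log (4 * Cf * 2 ^ d) ≤ ν := by
    refine le_trans ?_ hνc
    rw [hc']; exact (le_max_left _ _).trans (le_max_left _ _)
  -- `s` and `Q`
  obtain ⟨s, hs⟩ : ∃ s, s = ε / 2 * ν := ⟨_, rfl⟩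
  have hs1 : s₁ ≤ s := by
    have h1 : 2 * s₁ / ε ≤ ν := by
      refine le_trans ?_ hνc
      rw [hc']; exact (le_max_left _ _).trans (le_max_right _ _)
    rw [div_le_iff₀ hε] at h1
    rw [hs]; linarith
  have hs2 : s₂ ≤ s := by
    have h1 : 2 * s₂ / ε ≤ ν := by
      refine le_trans ?_ hνc
      rw [hc']; exact (le_max_right _ _).trans (le_max_right _ _)
    rw [div_le_iff₀ hε] at h1
    rw [hs]; linarith
  have hs0 : 0 ≤ s := by rw [hs]; positivity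
  obtain ⟨Q, hQd⟩ : ∃ Q, Q = primorial ⌊s⌋₊ := ⟨_, rfl⟩
  have hQ1 : 1 ≤ Q := by rw [hQd]; exact primorial_pos _
  have hQ0 : (0 : ℝ) < Q := by exact_mod_cast hQ1
  have hQs : ∀ p : ℕ, p.Prime → (p : ℝ) ≤ s → p ∣ Q := by
    rw [hQd]; exact prim_dvd s
  have hQle : (Q : ℝ) ≤ Real.exp (7 / 10 * ε * ν) := by
    rw [hQd]; exact prim_exp ε ν s hs hs0
  have hQε : (Q : ℝ) ≤ (N : ℝ) ^ ε := by
    refine hQle.trans ?_
    rw [Real.rpow_def_of_pos hN0, ← hν]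
    apply Real.exp_le_exp.2
    have h1 : 0 ≤ ε * ν := mul_nonneg hε.le (zero_le_one.trans hν1)
    calc 7 / 10 * ε * ν = 7 / 10 * (ε * ν) := by ring
      _ ≤ 1 * (ε * ν) := mul_le_mul_of_nonneg_right (by norm_num) h1
      _ = ν * ε := by ring
  have hQl : (Q : ℝ) * l ^ (B + 3) ≤ N := Ql_le B Q N l ν ε hN0 hl1 hν hν1 hε1 hνl hQle
  -- `N'` and `h`
  obtain ⟨m, hm⟩ : ∃ m, m = max ⌈L ^ B⌉₊ (2 * n₀ + 5) := ⟨_, rfl⟩
  obtain ⟨N', hN'p, hN'1, hN'2⟩ := Nat.exists_prime_lt_and_le_two_mul m (by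
    have := le_max_right ⌈L ^ B⌉₊ (2 * n₀ + 5)
    omega)
  have hm5 : 2 * n₀ + 5 ≤ m := by rw [hm]; exact le_max_right _ _
  have hLB : L ^ B ≤ N' := by
    have h1 : L ^ B ≤ m := (Nat.le_ceil _).trans (by rw [hm]; exact_mod_cast le_max_left _ _)
    refine h1.trans ?_
    exact_mod_cast hN'1.le
  have hN'L : (N' : ℝ) ≤ L ^ (B + 1) := N'_le B n₀ m N' L hm hL1 hN'2
  obtain ⟨h, hh⟩ : ∃ h, h = (N' - 1) / 2 := ⟨_, rfl⟩
  have h2h : 2 * h < N' := by omega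
  have h3h : N' ≤ 3 * h := by omega
  have hhn : n₀ ≤ h := by omega
  have hh1 : 1 ≤ h := by omega
  have hh0 : (0 : ℝ) < h := by exact_mod_cast hh1
  have hLll : L ≤ l := by linarith
  have hN'l : (N' : ℝ) ≤ l ^ (B + 1) := hN'L.trans (pow_le_pow_left₀ (by linarith) hLll _)
  have hQN' : (Q : ℝ) * ((N' + 1 : ℕ) : ℝ) * (8 / δ + 8) ≤ N :=
    QN'_le B N' Q N l (8 / δ + 8) hQ0.le (by linarith) (by positivity) (by linarith) hN'l hQl
  have hQN'1 : Q * (N' + 1) ≤ N := by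
    have h1 : (Q : ℝ) * ((N' + 1 : ℕ) : ℝ) * 1 ≤ (Q : ℝ) * ((N' + 1 : ℕ) : ℝ) * (8 / δ + 8) := by
      apply mul_le_mul_of_nonneg_left _ (by positivity)
      have : 0 < 8 / δ := by positivity
      linarith
    rw [mul_one] at h1
    exact_mod_cast h1.trans hQN'
  have hQh : Q * (h + 1) ≤ N := (Nat.mul_le_mul_left Q (by omega)).trans hQN'1
  have hQN : Q ≤ N := (Nat.le_mul_of_pos_right Q (by omega)).trans hQh
  have hNd : N ^ d ≤ Z := by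
    rw [hZ, Nat.le_sqrt, Nat.le_sqrt]
    calc N ^ d * N ^ d * (N ^ d * N ^ d) = N ^ (4 * d) := by ring
      _ ≤ X := hNX
  have hNZ : N ≤ Z := by
    refine le_trans ?_ hNd
    exact Nat.le_self_pow hf N
  have hQZ : Q ≤ Z := hQN.trans hNZ
  -- `K`
  obtain ⟨K, hKd⟩ : ∃ K, K = Cf * (2 * N) ^ d + 1 := ⟨_, rfl⟩
  have hK : ∀ n ≤ 2 * N, (f.eval (n : ℤ)).natAbs < K := by
    intro n hn
    have := hCf n (2 * N) hn (by omega)
    omega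
  have hKZ : K ≤ Z ^ 2 := by rw [hKd]; exact KZ_le Cf d N Z hNd hZZ4
  have hZ2X : Z * Z ≤ X := by
    calc Z * Z ≤ Z ^ 4 := by
          rw [show Z ^ 4 = Z * Z * (Z * Z) by ring]
          exact Nat.le_mul_of_pos_right _ (Nat.mul_pos (by omega) (by omega))
      _ ≤ X := hZ4
  have hZQX : Z * Q ≤ X := (Nat.mul_le_mul_left Z hQZ).trans hZ2X
  have hXA : ∀ t : ℕ, t ≤ 2 * K → 0 + X + t ≤ Z ^ A := by
    intro t ht
    have h1 : Z ^ 2 ≤ Z ^ 5 := Nat.pow_le_pow_right (by omega) (by omega)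
    calc 0 + X + t ≤ Z ^ 5 + 2 * Z ^ 5 := by omega
      _ = 3 * Z ^ 5 := by ring
      _ ≤ Z * Z ^ 5 := Nat.mul_le_mul_right _ (by omega)
      _ = Z ^ 6 := by ring
      _ ≤ Z ^ A := Nat.pow_le_pow_right (by omega) hA6
  have hQA : Q ≤ Z ^ A := hQZ.trans (Nat.le_self_pow (by omega) Z)
  -- `V` and `w`
  obtain ⟨V, hVd⟩ : ∃ V, V = N / Q / h + 1 := ⟨_, rfl⟩
  have hV2 : (V : ℝ) ≤ 2 * N / (Q * h) := V_le Q h V N hVd hQ1 hh1 hQh
  have hφ0 : (0 : ℝ) < Q.totient := by exact_mod_cast Nat.totient_pos.2 hQ1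
  have hL0 : 0 < L := by linarith
  obtain ⟨w, hw⟩ : ∃ w, w = (X : ℝ) / (Q.totient * L) := ⟨_, rfl⟩
  have hw0 : 0 < w := by rw [hw]; positivity
  have hwQ : (X : ℝ) / Q * ((Q : ℝ) / (Q.totient * L)) ^ 1 = w := by
    rw [hw, pow_one]
    field_simp
  have hn2N := n2N Q h V N N' hVd hQN'1
  -- `T'` and `P'`
  obtain ⟨T', hT'⟩ : ∃ T', T' = T.filter (fun n => Q * (h + 1) ≤ n) := ⟨_, rfl⟩
  obtain ⟨P', hP'⟩ : ∃ P', P' = P.filter (fun p => Z < p ∧ 2 * K < p ∧ p + 2 * K ≤ X) := ⟨_, rfl⟩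
  have hT'c : δ / 2 * N ≤ T'.card := by rw [hT']; exact tcard δ hδ Q h N N' T hTc (by omega) hQN'
  have hP'c : δ / 2 * (X / l) ≤ P'.card := by
    rw [hP']
    exact pcard δ l hδ (by linarith) K Z X P hP hPc hKZ h16 (by linarith) hZ4 hZZ5
  -- the number of the pairs
  obtain ⟨τ, hτ⟩ : ∃ τ, τ = δ ^ 2 / 20 * (N * Q.totient / h) := ⟨_, rfl⟩
  have hτ0 : 0 ≤ τ := by rw [hτ]; positivity
  have hcard : τ * (h * w) ≤ (T'.card : ℝ) * P'.card := by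
    have h1 : τ * (h * w) = δ / 2 * N * (δ / 2 * (X / (5 * L))) := by
      rw [hτ, hw]
      field_simp
      ring
    rw [h1]
    have h2 : (X : ℝ) / (5 * L) ≤ X / l := by gcongr
    calc δ / 2 * N * (δ / 2 * (X / (5 * L))) ≤ δ / 2 * N * (δ / 2 * (X / l)) := by gcongr
      _ ≤ _ := by gcongr
  have hτ2 : δ₁ * V * (Q * Q.totient) ≤ τ / 2 := by
    calc δ₁ * V * (Q * Q.totient) ≤ δ₁ * (2 * N / (Q * h)) * (Q * Q.totient) := by gcongr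
      _ = τ / 2 := by
          rw [hτ, hδ₁]
          field_simp
          ring
  obtain ⟨G, hG1, hG2, hG3⟩ := core f K Q h V Z X N k C₁ C₂ c₂ δ₁ w τ hQ1 hh1 (by omega)
    (fun n hn => hK n (by omega)) hQN hQZ hw0 hC₁ (by omega) hC₂ hc₂ hδ₁0 hX1
    (by rw [hQd]; exact hsec _)
    (by
      intro a t ht P₀ hP₀ hP₁
      have h1 := hub Z Q 1 s hZZ1 hQ1 hQA le_rfl (by simp) hs1 hQs 0 X a (fun _ => t) 1 hZQX (fun _ => ht)
        one_ne_zero (by rw [Nat.cast_one, Real.log_one]; positivity)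
        (by intro i j hij; exact absurd (Subsingleton.elim i j) hij) P₀ hP₀ (fun x hx _ => hP₁ x hx)
      rw [← hL] at h1
      rw [← hwQ]
      calc (P₀.card : ℝ) ≤ _ := h1
        _ = _ := by ring)
    (by
      intro a b v hb hv1 hvV P₀ hP₀ hP₀c
      have hnn : ∀ u ∈ Icc 1 N', b + Q * (h * v + u) ≤ 2 * N ∧ n₀ ≤ b + Q * (h * v + u) := by
        intro u hu
        rw [mem_Icc] at hu
        refine ⟨hn2N b v u hb hvV hu.2, ?_⟩
        have h1 : h * 1 ≤ h * v := Nat.mul_le_mul_left h hv1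
        have h2 : 1 * (h * v + u) ≤ Q * (h * v + u) := Nat.mul_le_mul_right _ hQ1
        omega
      have hK2 : Real.log (2 * (K : ℝ)) ≤ A * s :=
        logK Cf d K N A ε ν s hCf1 hN1 hKd hν (by linarith) hνC hs hAε
      have h1 := hte Z Q N' s hZZ2 hQ1 hQA hs2 hQs hN'p (by rw [← hL]; exact hLB) (by rw [← hL]; exact hN'L)
        0 X a (fun u _ => Fn f K (b + Q * (h * v + u))) hZQX
        (by
          intro u hu _
          have h2 := Fn_cast (hK _ (hnn u hu).1)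
          exact ⟨h2.2.1, hXA _ h2.2.2⟩)
        (sep_poly f n₀ K Q h N N' A b v s hQ1 hn₀ hK hnn hK2)
        h h2h P₀ (fun x hx => by
          obtain ⟨e1, e2, e3⟩ := hP₀ x hx
          exact ⟨e1, e2, fun _ => e3⟩)
        (by
          refine le_trans ?_ hP₀c
          rw [← hL]
          have h2 : δ₁ / 3 * ((X : ℝ) / Q) * N' * ((Q : ℝ) / (Q.totient * L)) ^ 1 = δ₁ / 3 * N' * w := by
            rw [← hwQ]; ring
          rw [h2]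
          have h3 : (N' : ℝ) ≤ 3 * h := by exact_mod_cast h3h
          calc δ₁ / 3 * N' * w ≤ δ₁ / 3 * (3 * h) * w := by gcongr
            _ = _ := by ring)
      exact h1)
    T' P' (by
      intro n hn
      rw [hT', mem_filter] at hn
      exact ⟨hn.2, (mem_Icc.1 (hT hn.1)).2⟩) (by
      intro p hp
      rw [hP', mem_filter] at hp
      exact ⟨hPp p hp.1, hp.2⟩) hτ0 hcard hτ2
  refine ⟨G, hG1, ?_, ?_⟩
  · refine le_trans ?_ hG2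
    have hV0 : (0 : ℝ) < V := by
      rw [hVd]; positivity
    have h1 : (δ ^ 2 / 40) ^ 2 / (4 * C₁ ^ 2 * C₂) * Q ≤
        (τ / 2) ^ 2 / (C₁ ^ 2 * V ^ 2 * (C₂ * (Q * (Q.totient : ℝ) ^ 2))) := by
      have h2 : (τ / 2) ^ 2 / (C₁ ^ 2 * (2 * N / (Q * h)) ^ 2 * (C₂ * (Q * (Q.totient : ℝ) ^ 2))) =
          (δ ^ 2 / 40) ^ 2 / (4 * C₁ ^ 2 * C₂) * Q := by
        rw [hτ]
        field_simp
        ring
      rw [← h2]
      gcongr
    calc c₂ * ((δ ^ 2 / 40) ^ 2 / (4 * C₁ ^ 2 * C₂)) * X =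
        c₂ * ((δ ^ 2 / 40) ^ 2 / (4 * C₁ ^ 2 * C₂) * Q) * ((X : ℝ) / Q) := by
          field_simp
      _ ≤ _ := by gcongr
  · intro b hb
    obtain ⟨n, r, hr1, hr2, hj⟩ := hG3 b hb
    refine ⟨n, Q * r, Nat.mul_pos hQ1 hr1, ?_, fun j hjk => ?_⟩
    · have h1 : r ≤ h := by
        calc r = 1 * r := (one_mul r).symm
          _ ≤ (k - 1) * r := Nat.mul_le_mul_right r (by omega)
          _ ≤ h := hr2
      have h2 : (r : ℝ) ≤ l ^ (4 * (B + 3)) := by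
        have h3 : (r : ℝ) ≤ N' := by
          have : r ≤ N' := by omega
          exact_mod_cast this
        refine h3.trans (hN'l.trans ?_)
        exact pow_le_pow_right₀ hl1 (by omega)
      push_cast
      gcongr
    · obtain ⟨h1, p, hp, hpe⟩ := hj j hjk
      refine ⟨(by rw [hT', mem_filter] at h1; exact h1.1), p, ?_, hpe⟩
      rw [hP', mem_filter] at hp
      exact hp.1

end Pool.Agent.Y880.RS.G5
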