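import Pool.Agent.Y880.RS.Rs0
import Pool.Agent.Y880.RS.Mk

/-!
The relative Szemerédi theorem for most members of a family of weights.
-/

set_option autoImplicit false

open Finset

namespace Pool.Agent.Y880.RS

open Pool.Agent.H602R3.DHJ
open Pool.Agent.Y727.PSP

/-- the relative Szemerédi theorem on average over a family of weights `F K` with the expected moments:
for a positive proportion of the `K` the function `f K` has a progression of integers in its support -/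
theorem eng (k : ℕ) (hk : 2 ≤ k) (δ : ℝ) (hδ : 0 < δ) : ∃ η c : ℝ, 0 < η ∧ 0 < c ∧
    ∀ {Ω : Type} (N : ℕ) [NeZero N], N.Prime → k < N → ∀ (S : Finset Ω) (F f : Ω → ZMod N → ℝ) (L : ℝ)
    (h : ℕ), S.Nonempty → 1 ≤ L → MajA S F (2 * (k * 2 ^ k)) η L → L ^ k ≤ c * N →
    (∀ K a, 0 ≤ f K a ∧ f K a ≤ F K a) → 2 * h < N → (∀ K a, f K a ≠ 0 → rp a ≤ h) →
    δ * S.card ≤ ∑ K ∈ S, av (f K) →
    ∃ G ⊆ S, δ / 2 * S.card ≤ G.card ∧ ∀ K ∈ G, ∃ u r : ℕ, 1 ≤ u ∧ 1 ≤ r ∧ ∀ j < k,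
      1 ≤ u + j * r ∧ u + j * r ≤ h ∧ f K ((u + j * r : ℕ) : ZMod N) ≠ 0 := by
  classical
  obtain ⟨c₀, η₀, hc₀, hη₀, H⟩ := rs_thm k hk (δ / 4) (by positivity)
  obtain ⟨M, hM⟩ : ∃ M, M = 2 * (k * 2 ^ k) := ⟨_, rfl⟩
  have hM1 : 1 ≤ M := by
    rw [hM]
    have : 0 < k * 2 ^ k := Nat.mul_pos (by omega) (by positivity)
    omega
  have hM0 : (0 : ℝ) < M := by exact_mod_cast hM1
  obtain ⟨η₁, hη₁⟩ : ∃ η₁, η₁ = min η₀ (δ / 12) := ⟨_, rfl⟩
  have hη₁0 : 0 < η₁ := by rw [hη₁]; exact lt_min hη₀ (by positivity)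
  have hη₁a : η₁ ≤ η₀ := hη₁ ▸ min_le_left _ _
  have hη₁b : η₁ ≤ δ / 12 := hη₁ ▸ min_le_right _ _
  obtain ⟨m₀, hm₀⟩ : ∃ m₀, m₀ = min (η₁ ^ 2) (η₁ ^ 3 / 2 ^ (k * 2 ^ k)) := ⟨_, rfl⟩
  have hm₀' : 0 < m₀ := by rw [hm₀]; exact lt_min (by positivity) (by positivity)
  refine ⟨m₀ / 6, min (c₀ / 2) (m₀ / (4 * M ^ 2)), by positivity,
    lt_min (by positivity) (by positivity), ?_⟩
  intro Ω N _ hN hkN S F f L h hS hL hMaj hLN hf h2 hsupp hsum
  have hfact : Fact N.Prime := ⟨hN⟩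
  have hN0 : (0 : ℝ) < N := by exact_mod_cast hN.pos
  have hS0 : (0 : ℝ) < S.card := by exact_mod_cast hS.card_pos
  have hLk : L ≤ L ^ k := le_self_pow₀ hL (by omega)
  have hsm : 2 * (M : ℝ) ^ 2 * L / N ≤ m₀ / 2 := by
    rw [div_le_iff₀ hN0]
    have e1 : L ≤ m₀ / (4 * M ^ 2) * N :=
      (hLk.trans hLN).trans (mul_le_mul_of_nonneg_right (min_le_right _ _) hN0.le)
    calc 2 * (M : ℝ) ^ 2 * L ≤ 2 * (M : ℝ) ^ 2 * (m₀ / (4 * M ^ 2) * N) := by gcongr
      _ = m₀ / 2 * N := by field_simp; ring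
  have hδ' : 3 * (m₀ / 6) + 2 * (M : ℝ) ^ 2 * L / N ≤ m₀ := by linarith
  rw [← hM] at hMaj
  obtain ⟨hm1, hm2⟩ := mainA hk hkN.le hMaj hL (by positivity) hS hM.ge hη₁0
    (hδ'.trans (hm₀ ▸ min_le_left _ _)) (by
      have h1 : m₀ ≤ η₁ ^ 3 / 2 ^ (k * 2 ^ k) := hm₀ ▸ min_le_right _ _
      rw [le_div_iff₀ (by positivity)] at h1
      calc 2 ^ (k * 2 ^ k) * (3 * (m₀ / 6) + 2 * (M : ℝ) ^ 2 * L / N) ≤ 2 ^ (k * 2 ^ k) * m₀ :=
            mul_le_mul_of_nonneg_left hδ' (by positivity)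
        _ = m₀ * 2 ^ (k * 2 ^ k) := by ring
        _ ≤ η₁ ^ 3 := h1)
  -- the good worlds
  obtain ⟨Bd, hBd⟩ : ∃ Bd, Bd = S.filter (fun K => ¬ LFk k N (F K) η₁) := ⟨_, rfl⟩
  obtain ⟨G, hG⟩ : ∃ G, G = S.filter (fun K => LFk k N (F K) η₁ ∧ δ / 4 ≤ av (f K)) := ⟨_, rfl⟩
  have hBdS : Bd ⊆ S := by rw [hBd]; exact filter_subset _ _
  have hGS : G ⊆ S := by rw [hG]; exact filter_subset _ _
  have hm2' : (Bd.card : ℝ) ≤ η₁ * S.card := by
    refine le_trans (le_of_eq ?_) hm2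
    rw [hBd]
  have hpart : ∀ T ⊆ S, ∑ K ∈ T, av (f K) ≤ T.card + η₁ * S.card := by
    intro T hT
    calc ∑ K ∈ T, av (f K) ≤ ∑ K ∈ T, (1 + |av (F K) - 1|) := by
          apply sum_le_sum
          intro K _
          have h5 : av (f K) ≤ av (F K) := av_mono (fun a => (hf K a).2)
          have h6 := le_abs_self (av (F K) - 1)
          linarith
      _ = T.card + ∑ K ∈ T, |av (F K) - 1| := by
          rw [sum_add_distrib, sum_const, nsmul_eq_mul, mul_one]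
      _ ≤ T.card + η₁ * S.card := by
          gcongr
          exact (sum_le_sum_of_subset_of_nonneg hT fun _ _ _ => abs_nonneg _).trans hm1
  have hGcard : δ / 2 * S.card ≤ G.card := by
    have e1 : ∑ K ∈ S, av (f K) ≤ ∑ K ∈ G, av (f K) + ∑ K ∈ Bd, av (f K) +
        δ / 4 * S.card := by
      have hcov : S ⊆ (G ∪ Bd) ∪ S.filter (fun K => av (f K) < δ / 4) := by
        intro K hK
        rw [mem_union, mem_union, hG, hBd, mem_filter, mem_filter, mem_filter]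
        by_cases a1 : LFk k N (F K) η₁
        · by_cases a2 : δ / 4 ≤ av (f K)
          · exact Or.inl (Or.inl ⟨hK, a1, a2⟩)
          · exact Or.inr ⟨hK, not_le.1 a2⟩
        · exact Or.inl (Or.inr ⟨hK, a1⟩)
      have hnn : ∀ K, 0 ≤ av (f K) := fun K => av_nonneg (fun a => (hf K a).1)
      calc ∑ K ∈ S, av (f K) ≤ ∑ K ∈ (G ∪ Bd) ∪ S.filter (fun K => av (f K) < δ / 4), av (f K) :=
            sum_le_sum_of_subset_of_nonneg hcov fun K _ _ => hnn K
        _ ≤ ∑ K ∈ G ∪ Bd, av (f K) + ∑ K ∈ S.filter (fun K => av (f K) < δ / 4), av (f K) := by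
            have := sum_union_inter (s₁ := G ∪ Bd) (s₂ := S.filter (fun K => av (f K) < δ / 4))
              (f := fun K => av (f K))
            have h7 : 0 ≤ ∑ K ∈ (G ∪ Bd) ∩ S.filter (fun K => av (f K) < δ / 4), av (f K) :=
              sum_nonneg fun K _ => hnn K
            linarith
        _ ≤ (∑ K ∈ G, av (f K) + ∑ K ∈ Bd, av (f K)) + δ / 4 * S.card := by
            apply add_le_add
            · have := sum_union_inter (s₁ := G) (s₂ := Bd) (f := fun K => av (f K))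
              have h7 : 0 ≤ ∑ K ∈ G ∩ Bd, av (f K) := sum_nonneg fun K _ => hnn K
              linarith
            · calc ∑ K ∈ S.filter (fun K => av (f K) < δ / 4), av (f K)
                  ≤ ∑ _K ∈ S.filter (fun K => av (f K) < δ / 4), δ / 4 :=
                    sum_le_sum fun K hK => (mem_filter.1 hK).2.le
                _ = (S.filter (fun K => av (f K) < δ / 4)).card * (δ / 4) := by
                    rw [sum_const, nsmul_eq_mul]
                _ ≤ S.card * (δ / 4) := by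
                    gcongr
                    exact filter_subset _ _
                _ = _ := by ring
    have e2 := hpart G hGS
    have e3 := hpart Bd hBdS
    have e4 : η₁ * S.card ≤ δ / 12 * S.card := by gcongr
    linarith
  refine ⟨G, hGS, hGcard, fun K hK => ?_⟩
  rw [hG, mem_filter] at hK
  have hLF : LFk k N (F K) η₀ := fun T hT => (hK.2.1 T hT).trans hη₁a
  have hav := H N hN hkN (F K) (f K) (hf K) hLF hK.2.2
  have hLu : ∀ a, f K a ≤ L := by
    intro a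
    refine (hf K a).2.trans ?_
    have := hMaj.bound Unit (by rw [Fintype.card_unit]; exact hM1) (fun _ => a) K hK.1
    simpa using this
  obtain ⟨a, d, hd, had⟩ := exAP k N (f K) (fun a => (hf K a).1) L c₀ hLu hav (by
    rw [div_lt_iff₀ hN0]
    refine lt_of_le_of_lt (hLN.trans (mul_le_mul_of_nonneg_right (min_le_left _ _) hN0.le)) ?_
    gcongr
    linarith)
  obtain ⟨a', r, ha', hr, hlift⟩ := lift k N h hk h2 a d hd (fun j hj => hsupp K _ (had j hj))
  refine ⟨a', r, ha', hr, fun j hj => ?_⟩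
  obtain ⟨j', hj', he⟩ := hlift j hj
  refine ⟨by omega, ?_, ?_⟩
  · rw [he]
    exact hsupp K _ (had j' hj')
  · rw [he, rp_cast]
    exact had j' hj'

end Pool.Agent.Y880.RS
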