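import Pool.Agent.Y880.RS.Sec

/-!
Polynomial growth and injectivity; the counting of the good classes.
-/

set_option autoImplicit false

open Finset Polynomial

namespace Pool.Agent.Y880.RS.Sec

theorem growth (f : ℤ[X]) : ∃ C : ℕ, 1 ≤ C ∧ ∀ n M : ℕ, n ≤ M → 1 ≤ M →
    (f.eval (n : ℤ)).natAbs ≤ C * M ^ f.natDegree := by
  refine ⟨∑ i ∈ range (f.natDegree + 1), (f.coeff i).natAbs + 1, by omega, fun n M hn hM => ?_⟩
  rw [eval_eq_sum_range]
  calc (∑ i ∈ range (f.natDegree + 1), f.coeff i * (n : ℤ) ^ i).natAbs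
      ≤ ∑ i ∈ range (f.natDegree + 1), (f.coeff i * (n : ℤ) ^ i).natAbs := Int.natAbs_sum_le _ _
    _ ≤ ∑ i ∈ range (f.natDegree + 1), (f.coeff i).natAbs * M ^ f.natDegree := by
        apply sum_le_sum
        intro i hi
        rw [mem_range] at hi
        rw [Int.natAbs_mul, Int.natAbs_pow, Int.natAbs_natCast]
        apply Nat.mul_le_mul_left
        calc n ^ i ≤ M ^ i := Nat.pow_le_pow_left hn i
          _ ≤ M ^ f.natDegree := Nat.pow_le_pow_right hM (by omega)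
    _ = (∑ i ∈ range (f.natDegree + 1), (f.coeff i).natAbs) * M ^ f.natDegree := by rw [sum_mul]
    _ ≤ _ := Nat.mul_le_mul_right _ (by omega)

theorem inj_ev (f : ℤ[X]) (hf : f.natDegree ≠ 0) : ∃ n₀ : ℕ, ∀ m n : ℕ, n₀ ≤ m → n₀ ≤ n →
    f.eval (m : ℤ) = f.eval (n : ℤ) → m = n := by
  obtain ⟨g, hg⟩ : ∃ g, g = f.map (Int.castRingHom ℝ) := ⟨_, rfl⟩
  have hgd : g.natDegree = f.natDegree := by
    rw [hg]
    exact natDegree_map_eq_of_injective (RingHom.injective_int (Int.castRingHom ℝ)) f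
  have hg' : derivative g ≠ 0 := by
    intro h
    have := natDegree_eq_zero_of_derivative_eq_zero h
    rw [hgd] at this
    exact hf this
  obtain ⟨n₀, hn₀⟩ : ∃ n₀ : ℕ, ∀ x : ℝ, (derivative g).eval x = 0 → x < n₀ := by
    obtain ⟨n₀, hn₀⟩ := exists_nat_gt (∑ x ∈ (derivative g).roots.toFinset, |x|)
    refine ⟨n₀, fun x hx => lt_of_le_of_lt ?_ hn₀⟩
    have hxm : x ∈ (derivative g).roots.toFinset := by
      rw [Multiset.mem_toFinset, mem_roots hg']
      exact hx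
    exact (le_abs_self x).trans (single_le_sum (f := fun x : ℝ => |x|) (fun _ _ => abs_nonneg _) hxm)
  refine ⟨n₀, ?_⟩
  have key : ∀ m n : ℕ, n₀ ≤ m → m < n → f.eval (m : ℤ) ≠ f.eval (n : ℤ) := by
    intro m n hm hmn heq
    have hval : ∀ j : ℕ, g.eval (j : ℝ) = ((f.eval (j : ℤ) : ℤ) : ℝ) := by
      intro j
      rw [hg, eval_map]
      have := Polynomial.eval₂_at_intCast (Int.castRingHom ℝ) (j : ℤ) (p := f)
      simpa using this
    have hlt : (m : ℝ) < n := by exact_mod_cast hmn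
    obtain ⟨c, hc, hc0⟩ := exists_deriv_eq_zero (f := fun x => g.eval x) hlt
      g.continuous.continuousOn (by rw [hval, hval, heq])
    rw [Polynomial.deriv] at hc0
    have h1 := hn₀ c hc0
    have h2 : (n₀ : ℝ) ≤ m := by exact_mod_cast hm
    linarith [hc.1]
  intro m n hm hn heq
  rcases lt_trichotomy m n with h | h | h
  · exact absurd heq (key m n hm h)
  · exact h
  · exact absurd heq.symm (key n m hn h)

/-- the shifted values -/
def Fn (f : ℤ[X]) (K n : ℕ) : ℕ := (f.eval (n : ℤ) + K).toNat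

theorem Fn_cast {f : ℤ[X]} {K n : ℕ} (h : (f.eval (n : ℤ)).natAbs < K) :
    (Fn f K n : ℤ) = f.eval (n : ℤ) + K ∧ 1 ≤ Fn f K n ∧ Fn f K n ≤ 2 * K := by
  unfold Fn
  have h1 : (0 : ℤ) < f.eval (n : ℤ) + K := by omega
  refine ⟨Int.toNat_of_nonneg h1.le, ?_, ?_⟩ <;> omega

/-- the number of the classes `b` with `a + f(b)` prime to `Q` -/
def be (f : ℤ[X]) (K Q a : ℕ) : ℕ := ((range Q).filter (fun b => (a + Fn f K b).Coprime Q)).card

theorem sum_be (f : ℤ[X]) (K Q : ℕ) : ∑ a ∈ range Q, be f K Q a = Q * Q.totient := by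
  unfold be
  simp_rw [card_filter]
  rw [sum_comm]
  have : ∀ b ∈ range Q, ∑ a ∈ range Q, (if (a + Fn f K b).Coprime Q then 1 else 0) = Q.totient := by
    intro b _
    rw [← card_filter, ← Nat.filter_coprime_Ico_eq_totient Q (Fn f K b)]
    apply card_bij (fun a _ => Fn f K b + a)
    · intro a ha
      rw [mem_filter, mem_range] at ha
      rw [mem_filter, mem_Ico]
      refine ⟨by omega, ?_⟩
      rw [add_comm]
      exact ha.2.symm
    · intro a _ a' _ h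
      omega
    · intro x hx
      rw [mem_filter, mem_Ico] at hx
      refine ⟨x - Fn f K b, ?_, by omega⟩
      rw [mem_filter, mem_range]
      refine ⟨by omega, ?_⟩
      rw [Nat.sub_add_cancel hx.1.1]
      exact hx.2.symm
  rw [sum_congr rfl this, sum_const, card_range, smul_eq_mul]

theorem be_sq (f : ℤ[X]) (K Q : ℕ) (hQ : 1 ≤ Q) (hK : ∀ b < Q, (f.eval (b : ℤ)).natAbs < K) :
    ∑ a ∈ range Q, be f K Q a ^ 2 ≤ St f (ZMod Q) := by
  classical
  have hne : NeZero Q := ⟨by omega⟩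
  obtain ⟨S, hS⟩ : ∃ S : Finset (ℕ × ℕ × ℕ), S = (range Q ×ˢ (range Q ×ˢ range Q)).filter
      (fun q => (q.1 + Fn f K q.2.1).Coprime Q ∧ (q.1 + Fn f K q.2.2).Coprime Q) := ⟨_, rfl⟩
  have h1 : ∑ a ∈ range Q, be f K Q a ^ 2 = S.card := by
    rw [hS, card_filter, sum_product]
    apply sum_congr rfl
    intro a _
    unfold be
    rw [pow_two, ← card_product, ← filter_product, card_filter]
  rw [h1]
  have hev : ∀ b < Q, ((Fn f K b : ℕ) : ZMod Q) = ev f (b : ZMod Q) + (K : ZMod Q) := by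
    intro b hb
    have h2 := (Fn_cast (hK b hb)).1
    have h3 : ((Fn f K b : ℤ) : ZMod Q) = ((f.eval (b : ℤ) + K : ℤ) : ZMod Q) := by rw [h2]
    push_cast at h3
    rw [h3]
    congr 1
    unfold ev
    have := Polynomial.eval₂_at_intCast (Int.castRingHom (ZMod Q)) (b : ℤ) (p := f)
    simp only [Int.cast_natCast, eq_intCast] at this
    exact this.symm
  have hinj : Set.InjOn (fun q : ℕ × ℕ × ℕ => (((q.1 : ZMod Q) + (K : ZMod Q), (q.2.1 : ZMod Q), (q.2.2 : ZMod Q)) :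
      ZMod Q × ZMod Q × ZMod Q)) S := by
    rintro ⟨a, b, c⟩ h4 ⟨a', b', c'⟩ h5 h6
    rw [hS, coe_filter, Set.mem_setOf_eq, mem_product, mem_product, mem_range, mem_range, mem_range] at h4 h5
    simp only [Prod.mk.injEq, add_left_inj] at h6
    have key : ∀ x y : ℕ, x < Q → y < Q → (x : ZMod Q) = y → x = y := by
      intro x y hx hy h
      have := congrArg ZMod.val h
      rwa [ZMod.val_natCast_of_lt hx, ZMod.val_natCast_of_lt hy] at this
    rw [key a a' h4.1.1 h5.1.1 h6.1, key b b' h4.1.2.1 h5.1.2.1 h6.2.1, key c c' h4.1.2.2 h5.1.2.2 h6.2.2]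
  unfold St
  rw [Nat.card_eq_fintype_card, Fintype.card_subtype]
  apply card_le_card_of_injOn _ _ hinj
  rintro ⟨a, b, c⟩ h4
  rw [hS, mem_coe, mem_filter, mem_product, mem_product, mem_range, mem_range, mem_range] at h4
  simp only [mem_coe, mem_filter, mem_univ, true_and]
  have key : ∀ x < Q, (a + Fn f K x).Coprime Q → IsUnit ((a : ZMod Q) + (K : ZMod Q) + ev f (x : ZMod Q)) := by
    intro x hx hc
    have h7 := (ZMod.isUnit_iff_coprime (a + Fn f K x) Q).2 hc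
    rw [Nat.cast_add, hev x hx] at h7
    have e : (a : ZMod Q) + (K : ZMod Q) + ev f (x : ZMod Q) = a + (ev f (x : ZMod Q) + K) := by ring
    rwa [e]
  exact ⟨key b h4.1.2.1 h4.2.1, key c h4.1.2.2 h4.2.2⟩

/-- the classes of `x + f(n)` -/
theorem cop_class (f : ℤ[X]) (K Q x n : ℕ) (hn : (f.eval (n : ℤ)).natAbs < K)
    (hb : (f.eval ((n % Q : ℕ) : ℤ)).natAbs < K) :
    (x + Fn f K n) ≡ (x % Q + Fn f K (n % Q)) [MOD Q] := by
  have h1 := (Fn_cast hn).1
  have h2 := (Fn_cast hb).1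
  rw [← Int.natCast_modEq_iff]
  push_cast
  rw [h1, h2]
  have h3 : (Q : ℤ) ∣ f.eval (n : ℤ) - f.eval ((n % Q : ℕ) : ℤ) := by
    refine dvd_trans ?_ (sub_dvd_eval_sub _ _ f)
    push_cast
    exact Int.dvd_self_sub_emod
  have h4 : (Q : ℤ) ∣ (x : ℤ) - (x : ℤ) % Q := Int.dvd_self_sub_emod
  have h5 : ((x : ℤ) + (f.eval (n : ℤ) + K)) - ((x : ℤ) % Q + (f.eval ((n % Q : ℕ) : ℤ) + K)) =
      ((x : ℤ) - (x : ℤ) % Q) + (f.eval (n : ℤ) - f.eval ((n % Q : ℕ) : ℤ)) := by ring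
  have h6 : (Q : ℤ) ∣ ((x : ℤ) + (f.eval (n : ℤ) + K)) - ((x : ℤ) % Q + (f.eval ((n % Q : ℕ) : ℤ) + K)) := by
    rw [h5]; exact dvd_add h4 h3
  exact (Int.modEq_iff_dvd.2 h6).symm

/-- many good classes -/
theorem good_count (Q V : ℕ) (cop : ℕ → ℕ → Prop) [∀ a b, Decidable (cop a b)] (R : ℕ → ℕ → ℕ → ℝ) (D δ₁ Tot : ℝ) (hD : 0 ≤ D)
    (hR : ∀ a < Q, ∀ b < Q, ∀ v < V, 0 ≤ R a b v ∧ R a b v ≤ D ∧ (¬ cop a b → R a b v = 0))
    (hTot : Tot ≤ ∑ a ∈ range Q, ∑ b ∈ range Q, ∑ v ∈ range V, R a b v) (hδ : 0 ≤ δ₁)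
    (hT2 : δ₁ * V * (∑ a ∈ range Q, (((range Q).filter (fun b => cop a b)).card : ℝ)) ≤ Tot / 2)
    (hTp : 0 ≤ Tot) :
    ∃ G : Finset ℕ, (∀ a, a ∈ G ↔ a < Q ∧ ∃ b < Q, ∃ v < V, δ₁ ≤ R a b v) ∧ (Tot / 2) ^ 2 ≤ D ^ 2 * V ^ 2 *
      ((G.card : ℝ) * ∑ a ∈ range Q, (((range Q).filter (fun b => cop a b)).card : ℝ) ^ 2) := by
  classical
  obtain ⟨G, hG⟩ : ∃ G, G = (range Q).filter (fun a => ∃ b < Q, ∃ v < V, δ₁ ≤ R a b v) := ⟨_, rfl⟩
  obtain ⟨β, hβ⟩ : ∃ β : ℕ → ℝ, β = fun a => (((range Q).filter (fun b => cop a b)).card : ℝ) := ⟨_, rfl⟩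
  have hβ0 : ∀ a, 0 ≤ β a := fun a => by rw [hβ]; exact Nat.cast_nonneg _
  have hin : ∀ a < Q, ∀ W : ℝ, (∀ b < Q, ∀ v < V, R a b v ≤ W) → 0 ≤ W →
      ∑ b ∈ range Q, ∑ v ∈ range V, R a b v ≤ W * V * β a := by
    intro a ha W hW hW0
    calc ∑ b ∈ range Q, ∑ v ∈ range V, R a b v
        ≤ ∑ b ∈ range Q, (if cop a b then W * V else 0) := by
          apply sum_le_sum
          intro b hb
          rw [mem_range] at hb
          split_ifs with hc
          · calc ∑ v ∈ range V, R a b v ≤ ∑ _v ∈ range V, W :=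
                sum_le_sum fun v hv => hW b hb v (mem_range.1 hv)
              _ = W * V := by rw [sum_const, card_range, nsmul_eq_mul, mul_comm]
          · exact (sum_eq_zero fun v hv => (hR a ha b hb v (mem_range.1 hv)).2.2 hc).le
      _ = W * V * β a := by
          rw [← sum_filter, sum_const, nsmul_eq_mul, hβ]
          ring
  have h1 : Tot ≤ ∑ a ∈ G, D * V * β a + ∑ a ∈ range Q, δ₁ * V * β a := by
    refine hTot.trans ?_
    have h2 : ∀ a ∈ range Q, ∑ b ∈ range Q, ∑ v ∈ range V, R a b v ≤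
        (if a ∈ G then D * V * β a else 0) + δ₁ * V * β a := by
      intro a ha
      rw [mem_range] at ha
      have e0 : 0 ≤ δ₁ * V * β a := mul_nonneg (mul_nonneg hδ (Nat.cast_nonneg _)) (hβ0 a)
      split_ifs with h
      · have := hin a ha D (fun b hb v hv => (hR a ha b hb v hv).2.1) hD
        linarith
      · rw [zero_add]
        apply hin a ha δ₁ _ hδ
        intro b hb v hv
        by_contra h3
        push Not at h3
        apply h
        rw [hG, mem_filter, mem_range]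
        exact ⟨ha, b, hb, v, hv, h3.le⟩
    refine (sum_le_sum h2).trans ?_
    rw [sum_add_distrib]
    gcongr
    rw [← sum_filter]
    apply le_of_eq
    congr 1
    rw [hG]
    ext a
    rw [mem_filter, mem_filter]
    tauto
  rw [← mul_sum, ← mul_sum] at h1
  have hT2' : δ₁ * V * ∑ a ∈ range Q, β a ≤ Tot / 2 := by rw [hβ]; exact hT2
  have h3 : Tot / 2 ≤ D * V * ∑ a ∈ G, β a := by linarith
  have h4 : (∑ a ∈ G, β a) ^ 2 ≤ (G.card : ℝ) * ∑ a ∈ range Q, β a ^ 2 := by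
    calc (∑ a ∈ G, β a) ^ 2 ≤ (G.card : ℝ) * ∑ a ∈ G, β a ^ 2 := sq_sum_le_card_mul_sum_sq
      _ ≤ _ := by
        apply mul_le_mul_of_nonneg_left _ (Nat.cast_nonneg _)
        apply sum_le_sum_of_subset_of_nonneg
        · rw [hG]; exact filter_subset _ _
        · intro _ _ _; positivity
  refine ⟨G, fun a => by rw [hG, mem_filter, mem_range], ?_⟩
  calc (Tot / 2) ^ 2 ≤ (D * V * ∑ a ∈ G, β a) ^ 2 := pow_le_pow_left₀ (by positivity) h3 2
    _ = D ^ 2 * V ^ 2 * (∑ a ∈ G, β a) ^ 2 := by ring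
    _ ≤ D ^ 2 * V ^ 2 * ((G.card : ℝ) * ∑ a ∈ range Q, β a ^ 2) := by gcongr
    _ = _ := by rw [hβ]

end Pool.Agent.Y880.RS.Sec
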