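import Pool.Agent.Y880.RS.Te2
import Pool.Agent.Y880.RS.Pol

/-!
Progressions of arguments at which a polynomial plus a shift is prime: the combinatorial core.
-/

set_option autoImplicit false

open Finset Polynomial

namespace Pool.Agent.Y880.RS.G5

open Pool.Agent.Y880.RS.Sec

/-- the position `n = b + Q (h v + u)` -/
theorem pos_eq (Q h n : ℕ) (hQ : 1 ≤ Q) (hn : Q * (h + 1) ≤ n) (hh : 1 ≤ h) :
    n = n % Q + Q * (h * ((n / Q - 1) / h) + ((n / Q - 1) % h + 1)) ∧ 1 ≤ (n / Q - 1) / h := by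
  have h1 : h + 1 ≤ n / Q := (Nat.le_div_iff_mul_le (by omega)).2 (by rw [mul_comm]; exact hn)
  have h2 := Nat.div_add_mod (n / Q - 1) h
  have h3 := Nat.mod_add_div n Q
  refine ⟨?_, ?_⟩
  · have h4 : h * ((n / Q - 1) / h) + ((n / Q - 1) % h + 1) = n / Q := by omega
    rw [h4]
    exact h3.symm
  · rw [Nat.le_div_iff_mul_le (by omega)]
    omega

theorem core (f : ℤ[X]) (K Q h V Z X N k : ℕ) (C₁ C₂ c₂ δ₁ w τ : ℝ) (hQ : 1 ≤ Q) (hh : 1 ≤ h) (hV : N / Q / h < V)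
    (hK : ∀ n ≤ N, (f.eval (n : ℤ)).natAbs < K) (hQN : Q ≤ N) (hQZ : Q ≤ Z) (hw : 0 < w) (hC₁ : 0 < C₁) (hk : 1 ≤ k)
    (hC₂ : 0 < C₂) (hc₂ : 0 < c₂) (hδ₁ : 0 < δ₁) (hX : 1 ≤ X)
    (hSt : (St f (ZMod Q) : ℝ) ≤ C₂ * (Q * (Q.totient : ℝ) ^ 2))
    (hub : ∀ a t : ℕ, 1 ≤ t → ∀ P ⊆ cls 0 X Q a, (∀ x ∈ P, ∀ p : ℕ, p.Prime → p ∣ x + t → Z < p) →
      (P.card : ℝ) ≤ C₁ * w)
    (hte : ∀ a b v : ℕ, b < Q → 1 ≤ v → v < V → ∀ P : Finset (ℕ × ℕ), (∀ q ∈ P, q.1 ∈ cls 0 X Q a ∧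
      q.2 ∈ Icc 1 h ∧ ∀ p : ℕ, p.Prime → p ∣ q.1 + Fn f K (b + Q * (h * v + q.2)) → Z < p) →
      δ₁ * (h * w) ≤ P.card →
      ∃ G ⊆ cls 0 X Q a, c₂ * ((X : ℝ) / Q) ≤ G.card ∧ ∀ x ∈ G, ∃ u r : ℕ, 1 ≤ u ∧ 1 ≤ r ∧ ∀ j < k,
        (x, u + j * r) ∈ P)
    (T P : Finset ℕ) (hT : ∀ n ∈ T, Q * (h + 1) ≤ n ∧ n ≤ N)
    (hP : ∀ p ∈ P, p.Prime ∧ Z < p ∧ 2 * K < p ∧ p + 2 * K ≤ X)
    (hτ : 0 ≤ τ) (hcard : τ * (h * w) ≤ (T.card : ℝ) * P.card) (hτ2 : δ₁ * V * (Q * Q.totient) ≤ τ / 2) :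
    ∃ G ⊆ Icc 1 X, c₂ * ((τ / 2) ^ 2 / (C₁ ^ 2 * V ^ 2 * (C₂ * (Q * (Q.totient : ℝ) ^ 2)))) * ((X : ℝ) / Q) ≤ G.card ∧
      ∀ b ∈ G, ∃ n r : ℕ, 1 ≤ r ∧ (k - 1) * r ≤ h ∧ ∀ j < k, n + j * (Q * r) ∈ T ∧
        ∃ p ∈ P, (p : ℤ) = f.eval ((n + j * (Q * r) : ℕ) : ℤ) + b := by
  classical
  have hφ0 : (0 : ℝ) < Q.totient := by exact_mod_cast Nat.totient_pos.2 hQ
  have hQ0 : (0 : ℝ) < Q := by exact_mod_cast hQ
  have hh0 : (0 : ℝ) < h := by exact_mod_cast hh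
  have hhw : 0 < h * w := mul_pos hh0 hw
  -- the pairs
  obtain ⟨Pr, hPr⟩ : ∃ Pr : Finset (ℕ × ℕ), Pr = (Ioc 0 X ×ˢ T).filter (fun q => q.1 + Fn f K q.2 ∈ P) := ⟨_, rfl⟩
  have hPrm : ∀ q, q ∈ Pr ↔ (q.1 ∈ Ioc 0 X ∧ q.2 ∈ T) ∧ q.1 + Fn f K q.2 ∈ P := by
    intro q; rw [hPr, mem_filter, mem_product]
  have hPrcard : Pr.card = T.card * P.card := by
    rw [← card_product]
    apply card_bij (fun q _ => (q.2, q.1 + Fn f K q.2))
    · intro q hq
      rw [hPrm] at hq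
      rw [mem_product]
      exact ⟨hq.1.2, hq.2⟩
    · intro q hq q' hq' heq
      rw [Prod.mk.injEq] at heq
      obtain ⟨e1, e2⟩ := heq
      rw [e1] at e2
      exact Prod.ext (by omega) e1
    · intro q hq
      rw [mem_product] at hq
      have h1 := hP _ hq.2
      have h2 := Fn_cast (hK q.1 (hT _ hq.1).2)
      refine ⟨(q.2 - Fn f K q.1, q.1), ?_, ?_⟩
      · rw [hPrm]
        simp only
        refine ⟨⟨?_, hq.1⟩, ?_⟩
        · rw [mem_Ioc]; omega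
        · rw [Nat.sub_add_cancel (by omega)]; exact hq.2
      · simp only
        rw [Nat.sub_add_cancel (by omega)]
  -- the classes
  obtain ⟨Rf, hRf⟩ : ∃ Rf : ℕ → ℕ → ℕ → Finset (ℕ × ℕ), Rf = fun a b v =>
    Pr.filter (fun q => q.1 % Q = a ∧ q.2 % Q = b ∧ (q.2 / Q - 1) / h = v) := ⟨_, rfl⟩
  have hRm : ∀ a b v q, q ∈ Rf a b v ↔ q ∈ Pr ∧ q.1 % Q = a ∧ q.2 % Q = b ∧ (q.2 / Q - 1) / h = v := by
    intro a b v q; rw [hRf]; simp only [mem_filter]
  have hsum : (Pr.card : ℝ) = ∑ a ∈ range Q, ∑ b ∈ range Q, ∑ v ∈ range V, ((Rf a b v).card : ℝ) := by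
    have h1 : Pr.card = ∑ t ∈ range Q ×ˢ (range Q ×ˢ range V), (Rf t.1 t.2.1 t.2.2).card := by
      have h2 : ∀ q ∈ Pr, (q.1 % Q, (q.2 % Q, (q.2 / Q - 1) / h)) ∈ range Q ×ˢ (range Q ×ˢ range V) := by
        intro q hq
        rw [hPrm] at hq
        rw [mem_product, mem_product, mem_range, mem_range, mem_range]
        refine ⟨Nat.mod_lt _ hQ, Nat.mod_lt _ hQ, ?_⟩
        refine lt_of_le_of_lt ?_ hV
        apply Nat.div_le_div_right
        exact (Nat.sub_le _ _).trans (Nat.div_le_div_right (hT _ hq.1.2).2)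
      rw [card_eq_sum_card_fiberwise (f := fun q : ℕ × ℕ => (q.1 % Q, (q.2 % Q, (q.2 / Q - 1) / h))) h2]
      apply sum_congr rfl
      rintro ⟨a, b, v⟩ _
      congr 1
      ext q
      rw [mem_filter, hRm, Prod.mk.injEq, Prod.mk.injEq]
    rw [h1, Nat.cast_sum, sum_product]
    apply sum_congr rfl
    intro a _
    rw [sum_product]
  -- the sets of pairs `(x, u)`
  obtain ⟨g, hg⟩ : ∃ g : ℕ × ℕ → ℕ × ℕ, g = fun q => (q.1, (q.2 / Q - 1) % h + 1) := ⟨_, rfl⟩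
  have hform : ∀ a b v q, q ∈ Rf a b v → q.2 = b + Q * (h * v + (g q).2) ∧ 1 ≤ v := by
    intro a b v q hq
    rw [hRm] at hq
    obtain ⟨hq1, hq2, hq3, hq4⟩ := hq
    rw [hPrm] at hq1
    have := pos_eq Q h q.2 hQ (hT _ hq1.1.2).1 hh
    rw [hq3, hq4] at this
    rw [hg]
    exact this
  have hginj : ∀ a b v, Set.InjOn g (Rf a b v) := by
    intro a b v q hq q' hq' heq
    have h1 := (hform a b v q hq).1
    have h2 := (hform a b v q' hq').1
    rw [heq] at h1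
    have h3 : q.1 = q'.1 := by
      have := congrArg Prod.fst heq
      rw [hg] at this
      exact this
    exact Prod.ext h3 (h1.trans h2.symm)
  obtain ⟨Pu, hPu⟩ : ∃ Pu : ℕ → ℕ → ℕ → Finset (ℕ × ℕ), Pu = fun a b v => (Rf a b v).image g := ⟨_, rfl⟩
  have hPucard : ∀ a b v, (Pu a b v).card = (Rf a b v).card := by
    intro a b v
    rw [hPu]
    exact card_image_of_injOn (hginj a b v)
  have hPum : ∀ a < Q, ∀ b v, ∀ q ∈ Pu a b v, q.1 ∈ cls 0 X Q a ∧ q.2 ∈ Icc 1 h ∧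
      (q.1, b + Q * (h * v + q.2)) ∈ Pr := by
    intro a ha b v q hq
    rw [hPu] at hq
    simp only [mem_image] at hq
    obtain ⟨q', hq', rfl⟩ := hq
    have h1 := hform a b v q' hq'
    rw [hRm] at hq'
    obtain ⟨hq1, hq2, hq3, hq4⟩ := hq'
    have hq5 := hq1
    rw [hPrm] at hq1
    rw [hg] at h1 ⊢
    simp only at h1 ⊢
    refine ⟨?_, ?_, ?_⟩
    · unfold cls
      rw [mem_filter, zero_add]
      exact ⟨hq1.1.1, by rw [hq2, Nat.mod_eq_of_lt ha]⟩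
    · rw [mem_Icc]
      exact ⟨by omega, Nat.mod_lt _ (by omega)⟩
    · rw [← h1.1]
      exact hq5
  have hrough : ∀ q ∈ Pr, ∀ p : ℕ, p.Prime → p ∣ q.1 + Fn f K q.2 → Z < p := by
    intro q hq p hp hpd
    rw [hPrm] at hq
    have h1 := hP _ hq.2
    rw [(Nat.prime_dvd_prime_iff_eq hp h1.1).1 hpd]
    exact h1.2.1
  have hFb : ∀ b, b < Q → (f.eval (b : ℤ)).natAbs < K := fun b hb => hK b (by omega)
  -- the upper bound
  have hup : ∀ a < Q, ∀ b v, ((Pu a b v).card : ℝ) ≤ C₁ * (h * w) := by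
    intro a ha b v
    have h1 : ((Pu a b v).card : ℝ) = ∑ u ∈ Icc 1 h, (((Pu a b v).filter (fun q => q.2 = u)).card : ℝ) := by
      rw [card_eq_sum_card_fiberwise (f := fun q : ℕ × ℕ => q.2) (t := Icc 1 h)
        (fun q hq => (hPum a ha b v q hq).2.1), Nat.cast_sum]
    rw [h1]
    have h2 : ∀ u ∈ Icc 1 h, (((Pu a b v).filter (fun q => q.2 = u)).card : ℝ) ≤ C₁ * w := by
      intro u _
      rcases ((Pu a b v).filter (fun q => q.2 = u)).eq_empty_or_nonempty with h0 | h0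
      · rw [h0, card_empty, Nat.cast_zero]
        positivity
      · obtain ⟨q0, hq0⟩ := h0
        rw [mem_filter] at hq0
        have h3 := (hPum a ha b v q0 hq0.1).2.2
        rw [hPrm] at h3
        have h4 := (Fn_cast (hK _ (hT _ h3.1.2).2)).2.1
        rw [hq0.2] at h4
        have h5 : ((Pu a b v).filter (fun q => q.2 = u)).card =
            (((Pu a b v).filter (fun q => q.2 = u)).image Prod.fst).card := by
          rw [card_image_of_injOn]
          intro q hq q' hq' heq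
          rw [mem_coe, mem_filter] at hq hq'
          exact Prod.ext heq (hq.2.trans hq'.2.symm)
        rw [h5]
        apply hub a (Fn f K (b + Q * (h * v + u))) h4
        · intro x hx
          rw [mem_image] at hx
          obtain ⟨q, hq, rfl⟩ := hx
          rw [mem_filter] at hq
          exact (hPum a ha b v q hq.1).1
        · intro x hx p hp hpd
          rw [mem_image] at hx
          obtain ⟨q, hq, rfl⟩ := hx
          rw [mem_filter] at hq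
          have h6 := hrough _ (hPum a ha b v q hq.1).2.2 p hp
          rw [hq.2] at h6
          exact h6 hpd
    refine (sum_le_sum h2).trans ?_
    rw [sum_const, Nat.card_Icc, nsmul_eq_mul]
    simp only [Nat.add_sub_cancel]
    apply le_of_eq
    ring
  -- good classes
  obtain ⟨A₁, hA₁, hgood⟩ := good_count Q V (fun a b => (a + Fn f K b).Coprime Q)
    (fun a b v => ((Rf a b v).card : ℝ) / (h * w)) C₁ δ₁ τ hC₁.le (by
      intro a ha b hb v hv
      refine ⟨by positivity, ?_, ?_⟩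
      · rw [div_le_iff₀ hhw, ← hPucard]
        exact hup a ha b v
      · intro hnc
        rw [div_eq_zero_iff]
        left
        rw [Nat.cast_eq_zero, card_eq_zero]
        by_contra hne
        obtain ⟨q, hq⟩ := nonempty_iff_ne_empty.2 hne
        rw [hRm] at hq
        obtain ⟨hq1, hq2, hq3, hq4⟩ := hq
        have hq5 := hq1
        rw [hPrm] at hq1
        apply hnc
        have h1 := cop_class f K Q q.1 q.2 (hK _ (hT _ hq1.1.2).2) (by rw [hq3]; exact hFb b hb)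
        rw [hq2, hq3] at h1
        have h2 : (q.1 + Fn f K q.2).Coprime Q := by
          by_contra h3
          obtain ⟨p, hp, hp1, hp2⟩ := Nat.Prime.not_coprime_iff_dvd.1 h3
          have h4 := hrough q hq5 p hp hp1
          have h5 := Nat.le_of_dvd hQ hp2
          omega
        have h3 := h1.gcd_eq
        unfold Nat.Coprime at h2 ⊢
        rw [← h3]
        exact h2) (by
      have h1 : ∑ a ∈ range Q, ∑ b ∈ range Q, ∑ v ∈ range V, ((Rf a b v).card : ℝ) / (h * w) =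
          (Pr.card : ℝ) / (h * w) := by
        rw [hsum, sum_div]
        apply sum_congr rfl
        intro a _
        rw [sum_div]
        apply sum_congr rfl
        intro b _
        rw [sum_div]
      rw [h1, le_div_iff₀ hhw, hPrcard]
      push_cast
      exact hcard) hδ₁.le (by
      have h1 : ∑ a ∈ range Q, (((range Q).filter (fun b => (a + Fn f K b).Coprime Q)).card : ℝ) =
          (Q : ℝ) * Q.totient := by
        have := sum_be f K Q
        unfold be at this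
        exact_mod_cast this
      rw [h1]
      exact hτ2) hτ
  have hsq : ∑ a ∈ range Q, (((range Q).filter (fun b => (a + Fn f K b).Coprime Q)).card : ℝ) ^ 2 ≤
      C₂ * (Q * (Q.totient : ℝ) ^ 2) := by
    refine le_trans ?_ hSt
    have := be_sq f K Q hQ (fun b hb => hFb b hb)
    unfold be at this
    exact_mod_cast this
  have hV0 : (0 : ℝ) < V := by
    have : 0 < V := lt_of_le_of_lt (Nat.zero_le _) hV
    exact_mod_cast this
  have hA₁card : (τ / 2) ^ 2 / (C₁ ^ 2 * V ^ 2 * (C₂ * (Q * (Q.totient : ℝ) ^ 2))) ≤ A₁.card := by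
    rw [div_le_iff₀ (by positivity)]
    calc (τ / 2) ^ 2 ≤ _ := hgood
      _ ≤ C₁ ^ 2 * V ^ 2 * ((A₁.card : ℝ) * (C₂ * (Q * (Q.totient : ℝ) ^ 2))) := by gcongr
      _ = _ := by ring
  -- the sets `G a`
  have hex : ∀ a ∈ A₁, ∃ G ⊆ cls 0 X Q a, c₂ * ((X : ℝ) / Q) ≤ G.card ∧ ∀ x ∈ G, ∃ b v u r : ℕ,
      1 ≤ u ∧ 1 ≤ r ∧ ∀ j < k, (x, u + j * r) ∈ Pu a b v := by
    intro a ha
    rw [hA₁] at ha
    obtain ⟨haQ, b, hb, v, hv, hbv⟩ := ha
    rw [le_div_iff₀ hhw, ← hPucard] at hbv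
    have hv1 : 1 ≤ v := by
      have h1 : 0 < (Pu a b v).card := by
        have : (0 : ℝ) < (Pu a b v).card := lt_of_lt_of_le (by positivity) hbv
        exact_mod_cast this
      obtain ⟨q, hq⟩ := card_pos.1 h1
      rw [hPu] at hq
      simp only [mem_image] at hq
      obtain ⟨q', hq', _⟩ := hq
      exact (hform a b v q' hq').2
    obtain ⟨G, hG1, hG2, hG3⟩ := hte a b v hb hv1 hv (Pu a b v) (by
      intro q hq
      obtain ⟨h1, h2, h3⟩ := hPum a haQ b v q hq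
      exact ⟨h1, h2, hrough _ h3⟩) hbv
    refine ⟨G, hG1, hG2, fun x hx => ?_⟩
    obtain ⟨u, r, hu, hr, hj⟩ := hG3 x hx
    exact ⟨b, v, u, r, hu, hr, hj⟩
  choose! Gf hGf1 hGf2 hGf3 using hex
  have hAQ : ∀ a ∈ A₁, a < Q := by
    intro a ha
    rw [hA₁] at ha
    exact ha.1
  have hdisj : ∀ a ∈ A₁, ∀ a' ∈ A₁, a ≠ a' → Disjoint (Gf a) (Gf a') := by
    intro a ha a' ha' hne
    rw [Finset.disjoint_left]
    intro x hx hx'
    have h1 := hGf1 a ha hx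
    have h2 := hGf1 a' ha' hx'
    unfold cls at h1 h2
    rw [mem_filter] at h1 h2
    apply hne
    rw [← Nat.mod_eq_of_lt (hAQ a ha), ← Nat.mod_eq_of_lt (hAQ a' ha'), ← h1.2, ← h2.2]
  refine ⟨(A₁.biUnion Gf).image (fun x => x + K), ?_, ?_, ?_⟩
  · intro b hb
    rw [mem_image] at hb
    obtain ⟨x, hx, rfl⟩ := hb
    rw [mem_biUnion] at hx
    obtain ⟨a, ha, hx⟩ := hx
    obtain ⟨b, v, u, r, hu, hr, hj⟩ := hGf3 a ha x hx
    have h1 := (hPum a (hAQ a ha) b v _ (hj 0 (by omega))).2.2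
    rw [hPrm] at h1
    have h2 := hP _ h1.2
    have h3 := Fn_cast (hK _ (hT _ h1.1.2).2)
    have h4 := hK _ (hT _ h1.1.2).2
    simp only at h1 h2 h3 h4
    rw [mem_Ioc] at h1
    rw [mem_Icc]
    omega
  · rw [card_image_of_injective _ (add_left_injective K), card_biUnion hdisj, Nat.cast_sum]
    calc _ = ((τ / 2) ^ 2 / (C₁ ^ 2 * V ^ 2 * (C₂ * (Q * (Q.totient : ℝ) ^ 2)))) * (c₂ * ((X : ℝ) / Q)) := by ring
      _ ≤ (A₁.card : ℝ) * (c₂ * ((X : ℝ) / Q)) := by gcongr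
      _ = ∑ _a ∈ A₁, c₂ * ((X : ℝ) / Q) := by rw [sum_const, nsmul_eq_mul]
      _ ≤ _ := sum_le_sum fun a ha => hGf2 a ha
  · intro b hb
    rw [mem_image] at hb
    obtain ⟨x, hx, rfl⟩ := hb
    rw [mem_biUnion] at hx
    obtain ⟨a, ha, hx⟩ := hx
    obtain ⟨b, v, u, r, hu, hr, hj⟩ := hGf3 a ha x hx
    refine ⟨b + Q * (h * v + u), r, hr, ?_, ?_⟩
    · have h1 := (hPum a (hAQ a ha) b v _ (hj (k - 1) (by omega))).2.1
      rw [mem_Icc] at h1
      simp only at h1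
      omega
    · intro j hjk
      have h1 := (hPum a (hAQ a ha) b v _ (hj j hjk)).2.2
      rw [hPrm] at h1
      simp only at h1
      have e : b + Q * (h * v + u) + j * (Q * r) = b + Q * (h * v + (u + j * r)) := by ring
      rw [e]
      refine ⟨h1.1.2, _, h1.2, ?_⟩
      have h3 := (Fn_cast (hK _ (hT _ h1.1.2).2)).1
      push_cast at h3 ⊢
      rw [h3]
      ring

end Pool.Agent.Y880.RS.G5
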