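import Pool.Agent.Y394.PSP.LOC

/-!
The local factors for arbitrary sets of forbidden classes (adapted from `Pool/Agent/Y394/PSP/LOC.lean`).
-/

set_option autoImplicit false

open Finset

namespace Pool.Agent.Y880.RS

open Pool.Agent.TH423.SH (PS PIj)
open Pool.Agent.Y394.PSP

/-- the local factors: `r p = m` for all `p` not dividing `Δ` -/
theorem locg (m : ℕ) (A η : ℝ) (hA : 0 ≤ A) (hη : 0 < η) : ∃ s₀ : ℝ, ∀ s : ℝ, s₀ ≤ s → ∀ Q : ℕ,
    (∀ p : ℕ, p.Prime → (p : ℝ) ≤ s → p ∣ Q) → ∀ (r : ℕ → ℕ) (Δ : ℕ), Δ ≠ 0 → Real.log Δ ≤ A * s →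
    ∀ R : ℕ, (∀ p ∈ PS Q R, r p ≤ m) → (∀ p ∈ PS Q R, ¬ p ∣ Δ → r p = m) →
    |∏ p ∈ PS Q R, (1 - (r p : ℝ) / p) - PIj Q R 1 ^ m| ≤ η * PIj Q R 1 ^ m := by
  classical
  set θ : ℝ := Real.log (1 + η) with hθ
  have hθ0 : 0 < θ := Real.log_pos (by linarith)
  refine ⟨max (Real.exp ((4 * (m : ℝ) ^ 2 + 2 * m * A) / θ + 1)) (2 * m + 2), ?_⟩
  intro s hs W hWs r Δ hΔ0 hlogΔ R hrle hreq
  have hs1 : Real.exp ((4 * (m : ℝ) ^ 2 + 2 * m * A) / θ + 1) ≤ s := (le_max_left _ _).trans hs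
  have hs2 : 2 * (m : ℝ) + 2 ≤ s := (le_max_right _ _).trans hs
  have hm0 : (0 : ℝ) ≤ m := Nat.cast_nonneg m
  have hs1' : 1 < s := by linarith
  have hs0 : 0 < s := by linarith
  have hlog : (4 * (m : ℝ) ^ 2 + 2 * m * A) / θ + 1 ≤ Real.log s := by
    rw [Real.le_log_iff_exp_le hs0]
    exact hs1
  have hlog0 : 0 < Real.log s := Real.log_pos hs1'
  -- the primes in `PS W R` are larger than `s`
  have hPS : ∀ p ∈ PS W R, p.Prime ∧ ¬ p ∣ W ∧ s < (p : ℝ) := by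
    intro p hp
    unfold PS at hp
    rw [mem_filter] at hp
    refine ⟨hp.2.1, hp.2.2, ?_⟩
    by_contra h
    exact hp.2.2 (hWs p hp.2.1 (not_lt.1 h))
  set a : ℕ → ℝ := fun p => 1 - (r p : ℝ) / p with ha
  set b : ℕ → ℝ := fun p => (1 - ((1 : ℕ) : ℝ) / p) ^ m with hb
  -- bounds for the factors
  have hx : ∀ p ∈ PS W R, 0 < (1 : ℝ) / p ∧ (1 : ℝ) / p ≤ 1 ∧ (m : ℝ) * (1 / p) ≤ 1 / 2 := by
    intro p hp
    have h := (hPS p hp).2.2
    have hp0 : (0 : ℝ) < p := by linarith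
    refine ⟨by positivity, ?_, ?_⟩
    · rw [div_le_one hp0]; linarith
    · rw [mul_one_div, div_le_iff₀ hp0]
      linarith
  have hb1 : ∀ p ∈ PS W R, 1 - (m : ℝ) * (1 / p) ≤ b p := by
    intro p hp
    obtain ⟨h0, h1, h2⟩ := hx p hp
    have := one_add_mul_le_pow (a := -((1 : ℝ) / p)) (by linarith) m
    simp only [hb, Nat.cast_one]
    calc 1 - (m : ℝ) * (1 / p) = 1 + (m : ℝ) * (-((1 : ℝ) / p)) := by ring
      _ ≤ (1 + -((1 : ℝ) / p)) ^ m := this
      _ = (1 - 1 / (p : ℝ)) ^ m := by ring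
  have hb2 : ∀ p ∈ PS W R, 1 / 2 ≤ b p := by
    intro p hp
    have := (hx p hp).2.2
    have := hb1 p hp
    linarith
  have hb3 : ∀ p ∈ PS W R, b p ≤ 1 - (m : ℝ) * (1 / p) + (m : ℝ) ^ 2 * (1 / p) ^ 2 := by
    intro p hp
    obtain ⟨h0, h1, h2⟩ := hx p hp
    have := pow_le_quad m ((1 : ℝ) / p) h0.le h1
    simp only [hb, Nat.cast_one]
    exact this
  have hb4 : ∀ p ∈ PS W R, b p ≤ 1 := by
    intro p hp
    obtain ⟨h0, h1, h2⟩ := hx p hp
    simp only [hb, Nat.cast_one]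
    exact pow_le_one₀ (by linarith) (by linarith)
  have ha1 : ∀ p ∈ PS W R, 1 - (m : ℝ) * (1 / p) ≤ a p ∧ a p ≤ 1 := by
    intro p hp
    obtain ⟨h0, h1, h2⟩ := hx p hp
    have hr : (r p : ℝ) ≤ m := by exact_mod_cast hrle p hp
    have hr0 : (0 : ℝ) ≤ r p := Nat.cast_nonneg _
    simp only [ha]
    rw [div_eq_mul_one_div ((r p : ℕ) : ℝ)]
    constructor
    · have := mul_le_mul_of_nonneg_right hr h0.le
      linarith
    · have := mul_nonneg hr0 h0.le
      linarith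
  have ha2 : ∀ p ∈ PS W R, ¬ p ∣ Δ → a p = 1 - (m : ℝ) * (1 / p) := by
    intro p hp hd
    simp only [ha, hreq p hp hd]
    ring
  -- the relative error
  set f : ℕ → ℝ := fun p => a p / b p - 1 with hf
  have hbpos : ∀ p ∈ PS W R, 0 < b p := fun p hp => by
    have := hb2 p hp
    linarith
  have hf1 : ∀ p ∈ PS W R, |f p| ≤ 2 * |a p - b p| := by
    intro p hp
    have h0 := hbpos p hp
    have h1 : f p = (a p - b p) / b p := by
      simp only [hf]
      field_simp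
    rw [h1, abs_div, abs_of_pos h0, div_le_iff₀ h0]
    have h2 := hb2 p hp
    have h3 := abs_nonneg (a p - b p)
    nlinarith
  have hf2 : ∀ p ∈ PS W R, |f p| ≤ 2 * (m : ℝ) ^ 2 * (1 / (p : ℝ) ^ 2) +
      (if p ∣ Δ then 2 * (m : ℝ) * (1 / p) else 0) := by
    intro p hp
    obtain ⟨h0, h1, h2⟩ := hx p hp
    have e1 := hb1 p hp
    have e3 := hb3 p hp
    have e4 := hb4 p hp
    obtain ⟨e5, e6⟩ := ha1 p hp
    refine (hf1 p hp).trans ?_
    have hsq : (1 : ℝ) / (p : ℝ) ^ 2 = (1 / p) ^ 2 := by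
      rw [div_pow, one_pow]
    split_ifs with hd
    · have h3 : |a p - b p| ≤ (m : ℝ) * (1 / p) := by
        rw [abs_le]
        constructor <;> linarith
      have h4 : 0 ≤ 2 * (m : ℝ) ^ 2 * (1 / (p : ℝ) ^ 2) := by positivity
      linarith
    · have e7 := ha2 p hp hd
      have h3 : |a p - b p| ≤ (m : ℝ) ^ 2 * (1 / p) ^ 2 := by
        rw [abs_le]
        constructor
        · linarith
        · have : 0 ≤ (m : ℝ) ^ 2 * ((1 : ℝ) / p) ^ 2 := by positivity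
          linarith
      rw [hsq]
      linarith
  have hsum : ∑ p ∈ PS W R, ‖f p‖ ≤ θ := by
    have h1 : ∑ p ∈ PS W R, ‖f p‖ ≤ ∑ p ∈ PS W R, (2 * (m : ℝ) ^ 2 * (1 / (p : ℝ) ^ 2) +
      (if p ∣ Δ then 2 * (m : ℝ) * (1 / p) else 0)) := by
      apply Finset.sum_le_sum
      intro p hp
      rw [Real.norm_eq_abs]
      exact hf2 p hp
    rw [Finset.sum_add_distrib, ← Finset.mul_sum, ← Finset.sum_filter, ← Finset.mul_sum] at h1
    have h2 : ∑ p ∈ PS W R, (1 : ℝ) / (p : ℝ) ^ 2 ≤ 2 / s :=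
      sum_inv_sq_le hs1' _ (fun p hp => (hPS p hp).2.2)
    have h3 : ∑ p ∈ (PS W R).filter (fun p => p ∣ Δ), (1 : ℝ) / p ≤
        Real.log Δ / (s * Real.log s) := by
      apply sum_inv_le hs1' Δ hΔ0
      intro p hp
      rw [mem_filter] at hp
      exact ⟨(hPS p hp.1).1, (hPS p hp.1).2.2, hp.2⟩
    have h4 : Real.log Δ / (s * Real.log s) ≤ A / Real.log s := by
      rw [div_le_div_iff₀ (by positivity) hlog0]
      calc Real.log Δ * Real.log s ≤ (A * s) * Real.log s :=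
            mul_le_mul_of_nonneg_right hlogΔ hlog0.le
        _ = _ := by ring
    have h5 : 2 / s ≤ 2 / Real.log s := by
      apply div_le_div_of_nonneg_left (by norm_num) hlog0
      have := Real.log_le_sub_one_of_pos hs0
      linarith
    have h6 : 2 * (m : ℝ) ^ 2 * (∑ p ∈ PS W R, (1 : ℝ) / (p : ℝ) ^ 2) ≤
        2 * (m : ℝ) ^ 2 * (2 / Real.log s) :=
      mul_le_mul_of_nonneg_left (h2.trans h5) (by positivity)
    have h7 : 2 * (m : ℝ) * (∑ p ∈ (PS W R).filter (fun p => p ∣ Δ), (1 : ℝ) / p) ≤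
        2 * (m : ℝ) * (A / Real.log s) :=
      mul_le_mul_of_nonneg_left (h3.trans h4) (by positivity)
    have h8 : 2 * (m : ℝ) ^ 2 * (2 / Real.log s) + 2 * (m : ℝ) * (A / Real.log s) =
        (4 * (m : ℝ) ^ 2 + 2 * m * A) / Real.log s := by
      field_simp
      ring
    have h9 : (4 * (m : ℝ) ^ 2 + 2 * m * A) / Real.log s ≤ θ := by
      rw [div_le_iff₀ hlog0, mul_comm θ]
      rw [← div_le_iff₀ hθ0]
      linarith
    linarith
  have hprod1 : ∏ p ∈ PS W R, (1 + f p) = (∏ p ∈ PS W R, a p) / ∏ p ∈ PS W R, b p := by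
    rw [← Finset.prod_div_distrib]
    apply Finset.prod_congr rfl
    intro p _
    simp only [hf]
    ring
  have hprodb : ∏ p ∈ PS W R, b p = PIj W R 1 ^ m := by
    unfold PIj
    rw [← Finset.prod_pow]
  have hpos : 0 < PIj W R 1 ^ m := by
    rw [← hprodb]
    exact Finset.prod_pos hbpos
  have hnorm := Finset.norm_prod_one_add_sub_one_le (PS W R) f
  rw [hprod1, hprodb, Real.norm_eq_abs] at hnorm
  have hexp : Real.exp (∑ p ∈ PS W R, ‖f p‖) - 1 ≤ η := by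
    have : Real.exp (∑ p ∈ PS W R, ‖f p‖) ≤ Real.exp θ := Real.exp_le_exp.2 hsum
    rw [hθ, Real.exp_log (by linarith)] at this
    linarith
  have hfin : |∏ p ∈ PS W R, a p - PIj W R 1 ^ m| =
      |(∏ p ∈ PS W R, a p) / PIj W R 1 ^ m - 1| * PIj W R 1 ^ m := by
    rw [← abs_of_pos hpos, ← abs_mul, abs_of_pos hpos, sub_mul, one_mul,
      div_mul_cancel₀ _ hpos.ne']
  change |∏ p ∈ PS W R, a p - PIj W R 1 ^ m| ≤ η * PIj W R 1 ^ m
  rw [hfin]
  exact mul_le_mul_of_nonneg_right (hnorm.trans hexp) hpos.le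

/-- the classes `-t_i` modulo `p` -/
def OmT {m : ℕ} (t : Fin m → ℕ) (p : ℕ) : Finset ℕ := (range p).filter (fun r => ∃ i, p ∣ r + t i)

theorem mod_OmT {m : ℕ} (t : Fin m → ℕ) {p : ℕ} (hp : 0 < p) (n : ℕ) :
    n % p ∉ OmT t p ↔ ∀ i, ¬ p ∣ n + t i := by
  unfold OmT
  rw [mem_filter, mem_range]
  have h1 : n % p < p := Nat.mod_lt _ hp
  simp only [h1, true_and, not_exists]
  refine forall_congr' fun i => not_congr ?_
  exact ((Nat.mod_modEq n p).add_right (t i)).dvd_iff dvd_rfl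

theorem OmT_lt {m : ℕ} (t : Fin m → ℕ) {p : ℕ} : ∀ c ∈ OmT t p, c < p := by
  intro c hc
  unfold OmT at hc
  exact mem_range.1 (mem_filter.1 hc).1

theorem card_OmT_le {m : ℕ} (t : Fin m → ℕ) (p : ℕ) : (OmT t p).card ≤ m := by
  classical
  have h1 : OmT t p ⊆ univ.biUnion (fun i : Fin m => (range p).filter (fun r => p ∣ r + t i)) := by
    intro r hr
    unfold OmT at hr
    rw [mem_filter] at hr
    obtain ⟨hr1, i, hi⟩ := hr
    rw [mem_biUnion]
    exact ⟨i, mem_univ i, mem_filter.2 ⟨hr1, hi⟩⟩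
  refine (card_le_card h1).trans (card_biUnion_le.trans ?_)
  have h2 : ∀ i ∈ (univ : Finset (Fin m)), ((range p).filter (fun r => p ∣ r + t i)).card ≤ 1 := by
    intro i _
    rw [card_le_one]
    intro r hr r' hr'
    rw [mem_filter, mem_range] at hr hr'
    have e1 : r + t i ≡ r' + t i [MOD p] :=
      ((Nat.modEq_zero_iff_dvd).2 hr.2).trans ((Nat.modEq_zero_iff_dvd).2 hr'.2).symm
    have e2 : r ≡ r' [MOD p] := Nat.ModEq.add_right_cancel' _ e1
    unfold Nat.ModEq at e2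
    rwa [Nat.mod_eq_of_lt hr.1, Nat.mod_eq_of_lt hr'.1] at e2
  calc ∑ i : Fin m, ((range p).filter (fun r => p ∣ r + t i)).card
      ≤ ∑ _i : Fin m, 1 := sum_le_sum h2
    _ = m := by simp

theorem card_OmT_eq {m : ℕ} (t : Fin m → ℕ) {p : ℕ} (hp : 0 < p)
    (h : ∀ i j, i ≠ j → ¬ (p : ℤ) ∣ (t i : ℤ) - t j) : (OmT t p).card = m := by
  classical
  apply le_antisymm (card_OmT_le t p)
  let g : Fin m → ℕ := fun i => ((p - 1) * t i) % p
  have hg : ∀ i, p ∣ g i + t i := by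
    intro i
    have e1 : ((p - 1) * t i) % p + t i ≡ (p - 1) * t i + t i [MOD p] :=
      (Nat.mod_modEq _ _).add_right _
    have e2 : (p - 1) * t i + t i = p * t i := by
      obtain ⟨q, rfl⟩ : ∃ q, p = q + 1 := ⟨p - 1, by omega⟩
      rw [Nat.add_sub_cancel]
      ring
    rw [e2] at e1
    exact (e1.dvd_iff dvd_rfl).2 (dvd_mul_right _ _)
  have hmem : ∀ i ∈ (univ : Finset (Fin m)), g i ∈ OmT t p := by
    intro i _
    unfold OmT
    rw [mem_filter, mem_range]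
    exact ⟨Nat.mod_lt _ hp, i, hg i⟩
  have hinj : Function.Injective g := by
    intro i j hij
    by_contra hne
    apply h i j hne
    have h1 := hg i
    have h2 := hg j
    rw [← hij] at h2
    have h3 : (p : ℤ) ∣ (g i : ℤ) + t i := by exact_mod_cast h1
    have h4 : (p : ℤ) ∣ (g i : ℤ) + t j := by exact_mod_cast h2
    have := dvd_sub h3 h4
    rwa [add_sub_add_left_eq_sub] at this
  have := Finset.card_le_card_of_injOn g hmem hinj.injOn
  simpa using this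

end Pool.Agent.Y880.RS
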