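import Pool.Agent.Y880.RS.Fl
import Pool.Agent.Y880.RS.Loc
import Pool.Agent.Y917.PSP.Maj

/-!
The moments of the enveloping sieve at shifts `n + t_i`, part 1: counting, the weights.
-/

set_option autoImplicit false

open Finset

namespace Pool.Agent.Y880.RS

open Pool.Agent.TH423.SH (PS PIj)
open Pool.Agent.Y727.PSP (qf)
open Pool.Agent.Y917.PSP

/-- the divisibility conditions and the class modulo `Q` -/
theorem all_class' {m : ℕ} (Q a : ℕ) (D t : Fin m → ℕ) (hD : ∀ i, 1 ≤ D i)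
    (hc : ∀ i, Nat.Coprime (D i) Q) (hcop : ∀ i j, i ≠ j → Nat.Coprime (D i) (D j)) :
    ∃ v : ℕ, ∀ n : ℕ, (n % Q = a % Q ∧ ∀ i, D i ∣ n + t i) ↔
      n % (Q * ∏ i, D i) = v % (Q * ∏ i, D i) := by
  obtain ⟨w, hw⟩ := Nat.chineseRemainderOfFinset (fun i => (D i - 1) * t i) D univ
    (fun i _ => by have := hD i; omega) (fun i _ j _ hij => hcop i j hij)
  have hcQ : Nat.Coprime Q (∏ i, D i) := Nat.Coprime.prod_right fun i _ => (hc i).symm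
  obtain ⟨v, hv1, hv2⟩ := Nat.chineseRemainder hcQ a w
  have hone : ∀ i n, D i ∣ n + t i ↔ n ≡ (D i - 1) * t i [MOD D i] := by
    intro i n
    have e2 : (D i - 1) * t i + t i = D i * t i := by
      obtain ⟨q, hq⟩ : ∃ q, D i = q + 1 := ⟨D i - 1, by have := hD i; omega⟩
      rw [hq, Nat.add_sub_cancel]
      ring
    constructor
    · intro h
      apply Nat.ModEq.add_right_cancel' (t i)
      rw [e2]
      exact ((Nat.modEq_zero_iff_dvd).2 h).trans ((Nat.modEq_zero_iff_dvd).2 (dvd_mul_right _ _)).symm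
    · intro h
      have h1 := h.add_right (t i)
      rw [e2] at h1
      exact (h1.dvd_iff dvd_rfl).2 (dvd_mul_right _ _)
  refine ⟨v, fun n => ?_⟩
  have h1 : (∀ i, D i ∣ n + t i) ↔ n ≡ w [MOD ∏ i, D i] := by
    constructor
    · intro h
      rw [Nat.modEq_iff_dvd]
      push_cast
      apply Finset.prod_dvd_of_coprime
      · intro i _ j _ hij
        rw [Function.onFun, Nat.isCoprime_iff_coprime]
        exact hcop i j hij
      · intro i _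
        have h2 : n ≡ w [MOD D i] := ((hone i n).1 (h i)).trans (hw i (mem_univ i)).symm
        exact Nat.modEq_iff_dvd.1 h2
    · intro h i
      rw [hone i n]
      exact (h.of_dvd (dvd_prod_of_mem D (mem_univ i))).trans (hw i (mem_univ i))
  rw [h1]
  have h3 : (n % Q = a % Q ∧ n ≡ w [MOD ∏ i, D i]) ↔ n ≡ v [MOD Q * ∏ i, D i] := by
    rw [← Nat.modEq_and_modEq_iff_modEq_mul hcQ]
    exact ⟨fun h => ⟨Nat.ModEq.trans h.1 hv1.symm, h.2.trans hv2.symm⟩,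
      fun h => ⟨h.1.trans hv1, h.2.trans hv2⟩⟩
  exact h3

open Classical in
/-- the sieved set -/
noncomputable def Sv (Q z y Y a : ℕ) {m : ℕ} (t : Fin m → ℕ) : Finset ℕ :=
  (Ioc y (y + Y)).filter (fun n => n % Q = a % Q ∧ ∀ p ∈ PS Q z, ∀ i, ¬ p ∣ n + t i)

open Classical in
/-- the number of `n` with the divisibility conditions -/
noncomputable def cn' (Q z y Y a : ℕ) {m : ℕ} (t : Fin m → ℕ) (x : Fin m → ℕ × ℕ) : ℝ :=
  (((Sv Q z y Y a t).filter (fun n => ∀ i, Dl (x i) ∣ n + t i)).card : ℝ)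

open Classical in
theorem expand2 (Q z y Y a R : ℕ) (lam : ℕ → ℝ) (hlam : ∀ d, lam d ≠ 0 → 1 ≤ d ∧ d ≤ R) {m : ℕ}
    (t : Fin m → ℕ) (ht : ∀ i, 1 ≤ t i) :
    ∑ n ∈ Sv Q z y Y a t, ∏ i, (∑ d ∈ (n + t i).divisors, lam d) ^ 2 =
    ∑ x ∈ Fintype.piFinset (fun _ : Fin m => TT R lam), (∏ i, wt lam (x i)) * cn' Q z y Y a t x := by
  rw [expand R lam hlam (fun i n => n + t i) (fun i n => by have := ht i; omega)]
  apply sum_congr rfl
  intro x _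
  unfold cn'
  congr! 3

open Classical in
theorem sum_nuM' (Q z y Y a m : ℕ) (lam : ℕ → ℝ) (VG : ℝ) (t : Fin m → ℕ) :
    ∑ n ∈ (Ioc y (y + Y)).filter (fun n => n % Q = a % Q), ∏ i, nuM Q z lam VG (n + t i) =
      (∑ n ∈ Sv Q z y Y a t, ∏ i, (∑ d ∈ (n + t i).divisors, lam d) ^ 2) / VG ^ m := by
  unfold Sv
  rw [sum_div, ← filter_filter, sum_filter (fun n => ∀ p ∈ PS Q z, ∀ i, ¬ p ∣ n + t i)]
  apply sum_congr rfl
  intro n _
  unfold nuM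
  rw [prod_ite_zero]
  by_cases h : ∀ p ∈ PS Q z, ∀ i, ¬ p ∣ n + t i
  · rw [if_pos h, if_pos fun i _ p hp => h p hp i, prod_div_distrib, prod_const, card_univ,
      Fintype.card_fin]
  · rw [if_neg h, if_neg]
    intro h2
    exact h fun p hp i => h2 i (mem_univ i) p hp

/-- the tuples with coprime moduli -/
theorem cnt_cop' (C b Q J y Y a m R : ℕ) (t : Fin m → ℕ) (lam : ℕ → ℝ) (hQ : 1 ≤ Q)
    (hlam : ∀ d, lam d ≠ 0 → 1 ≤ d ∧ d ≤ R ∧ ∀ p : ℕ, p.Prime → p ∣ d → 2 ^ 2 ^ J < p)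
    (hlamQ : ∀ d, lam d ≠ 0 → Nat.Coprime d Q)
    (hC : ∀ (D v : ℕ), 1 ≤ D → (∀ p ∈ PS Q (2 ^ 2 ^ J), ¬ p ∣ D) → ∀ s : Finset ℕ,
      (∀ n, n ∈ s ↔ n ∈ Ioc y (y + Y) ∧ (n % D = v % D ∧
        ∀ p ∈ PS Q (2 ^ 2 ^ J), n % p ∉ OmT t p)) →
      |(s.card : ℝ) - (Y : ℝ) / D * ∏ p ∈ PS Q (2 ^ 2 ^ J), (1 - ((OmT t p).card : ℝ) / p)| ≤
      (1 / 2 : ℝ) ^ b * ((Y : ℝ) / D * ∏ p ∈ PS Q (2 ^ 2 ^ J), (1 - ((OmT t p).card : ℝ) / p)) +
        ((2 : ℝ) ^ 2 ^ J) ^ (C * b))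
    (x : Fin m → ℕ × ℕ) (hx : ∀ i, x i ∈ TT R lam)
    (hcop : ∀ i j, i ≠ j → Nat.Coprime (Dl (x i)) (Dl (x j))) :
    |cn' Q (2 ^ 2 ^ J) y Y a t x -
      ((Y : ℝ) / Q * ∏ p ∈ PS Q (2 ^ 2 ^ J), (1 - ((OmT t p).card : ℝ) / p)) *
        ∏ i, (1 : ℝ) / (Dl (x i) : ℝ)| ≤
      (1 / 2 : ℝ) ^ b * (((Y : ℝ) / Q * ∏ p ∈ PS Q (2 ^ 2 ^ J), (1 - ((OmT t p).card : ℝ) / p)) *
        ∏ i, (1 : ℝ) / (Dl (x i) : ℝ)) + ((2 : ℝ) ^ 2 ^ J) ^ (C * b) := by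
  classical
  have hDp : ∀ i, ∀ p : ℕ, p.Prime → p ∣ Dl (x i) → 2 ^ 2 ^ J < p := by
    intro i p hp hpi
    have hxi := mem_TT.1 (hx i)
    rcases (Nat.Prime.dvd_lcm hp).1 hpi with h1 | h1
    · exact (hlam _ hxi.2.1).2.2 p hp h1
    · exact (hlam _ hxi.2.2).2.2 p hp h1
  have hD1 : ∀ i, 1 ≤ Dl (x i) := fun i => Dl_pos (hx i)
  have hDQ : ∀ i, Nat.Coprime (Dl (x i)) Q := by
    intro i
    have hxi := mem_TT.1 (hx i)
    exact Nat.Coprime.coprime_dvd_left (Nat.lcm_dvd_mul _ _) (Nat.Coprime.mul_left (hlamQ _ hxi.2.1) (hlamQ _ hxi.2.2))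
  obtain ⟨v, hv⟩ := all_class' Q a (fun i => Dl (x i)) t hD1 hDQ hcop
  have hprod1 : 1 ≤ ∏ i, Dl (x i) := Nat.one_le_iff_ne_zero.2 (prod_ne_zero_iff.2 fun i _ => by
    have := hD1 i; omega)
  have h1 := hC (Q * ∏ i, Dl (x i)) v (Nat.mul_pos hQ hprod1) (by
    intro p hp hpd
    unfold PS at hp
    rw [mem_filter, mem_Icc] at hp
    rcases (Nat.Prime.dvd_mul hp.2.1).1 hpd with h2 | h2
    · exact hp.2.2 h2
    · obtain ⟨i, _, hi⟩ := (Nat.Prime.prime hp.2.1).exists_mem_finset_dvd h2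
      have := hDp i p hp.2.1 hi
      omega) ((Sv Q (2 ^ 2 ^ J) y Y a t).filter (fun n => ∀ i, Dl (x i) ∣ n + t i)) (by
    intro n
    unfold Sv
    rw [mem_filter, mem_filter, ← hv n]
    have h3 : (∀ p ∈ PS Q (2 ^ 2 ^ J), n % p ∉ OmT t p) ↔
        ∀ p ∈ PS Q (2 ^ 2 ^ J), ∀ i, ¬ p ∣ n + t i := by
      refine forall₂_congr fun p hp => ?_
      unfold PS at hp
      rw [mem_filter] at hp
      exact mod_OmT t hp.2.1.pos n
    rw [h3]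
    tauto)
  have h4 : (Y : ℝ) / ((Q * ∏ i, Dl (x i) : ℕ) : ℝ) = Y / Q * ∏ i, (1 : ℝ) / (Dl (x i) : ℝ) := by
    push_cast
    rw [prod_div_distrib, prod_const_one, mul_one_div, div_div]
  rw [h4] at h1
  have h5 : ∀ V : ℝ, ((Y : ℝ) / Q * V) * ∏ i, (1 : ℝ) / (Dl (x i) : ℝ) =
      (Y / Q * ∏ i, (1 : ℝ) / (Dl (x i) : ℝ)) * V := fun V => by ring
  rw [h5]
  exact h1

/-- the tuples with a common prime factor -/
theorem cnt_ncop' (Q z y Y a m R : ℕ) (t : Fin m → ℕ) (lam : ℕ → ℝ)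
    (hlam : ∀ d, lam d ≠ 0 → 1 ≤ d ∧ d ≤ R ∧ ∀ p : ℕ, p.Prime → p ∣ d → z < p)
    (hlamQ : ∀ d, lam d ≠ 0 → Nat.Coprime d Q)
    (ht : ∀ i j, i ≠ j → ∀ p : ℕ, p.Prime → ¬ p ∣ Q → (p : ℤ) ∣ (t i : ℤ) - t j → p ≤ z)
    (x : Fin m → ℕ × ℕ) (hx : ∀ i, x i ∈ TT R lam)
    (hcop : ¬ ∀ i j, i ≠ j → Nat.Coprime (Dl (x i)) (Dl (x j))) :
    cn' Q z y Y a t x = 0 := by
  classical
  unfold cn'
  rw [Nat.cast_eq_zero, card_eq_zero, filter_eq_empty_iff]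
  intro n _ hK
  push Not at hcop
  obtain ⟨i, j, hij, hc⟩ := hcop
  obtain ⟨p, hp, hpi, hpj⟩ := Nat.Prime.not_coprime_iff_dvd.1 hc
  have hpz : z < p ∧ ¬ p ∣ Q := by
    have hxi := mem_TT.1 (hx i)
    rcases (Nat.Prime.dvd_lcm hp).1 hpi with h1 | h1
    · refine ⟨(hlam _ hxi.2.1).2.2 p hp h1, fun h2 => ?_⟩
      exact Nat.Prime.not_coprime_iff_dvd.2 ⟨p, hp, h1, h2⟩ (hlamQ _ hxi.2.1)
    · refine ⟨(hlam _ hxi.2.2).2.2 p hp h1, fun h2 => ?_⟩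
      exact Nat.Prime.not_coprime_iff_dvd.2 ⟨p, hp, h1, h2⟩ (hlamQ _ hxi.2.2)
  have h1 : (p : ℤ) ∣ (n : ℤ) + t i := by exact_mod_cast hpi.trans (hK i)
  have h2 : (p : ℤ) ∣ (n : ℤ) + t j := by exact_mod_cast hpj.trans (hK j)
  have h3 : (p : ℤ) ∣ (t i : ℤ) - t j := by
    have := dvd_sub h1 h2
    rwa [add_sub_add_left_eq_sub] at this
  have := ht i j hij p hp hpz.2 h3
  omega

open Classical in
/-- the weights on the integers coprime to `Q` -/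
noncomputable def lamQ (Q : ℕ) (lam : ℕ → ℝ) (d : ℕ) : ℝ := if Nat.Coprime d Q then lam d else 0

theorem lamQ_ne {Q : ℕ} {lam : ℕ → ℝ} {d : ℕ} (h : lamQ Q lam d ≠ 0) :
    Nat.Coprime d Q ∧ lam d ≠ 0 := by
  unfold lamQ at h
  split_ifs at h with h1
  · exact ⟨h1, h⟩
  · exact absurd rfl h

theorem lamQ_abs {Q : ℕ} {lam : ℕ → ℝ} (h : ∀ d, |lam d| ≤ 1) (d : ℕ) : |lamQ Q lam d| ≤ 1 := by
  unfold lamQ
  split_ifs
  · exact h d
  · simp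

/-- the quadratic form changes little -/
theorem qf_lamQ (R z Q : ℕ) (lam : ℕ → ℝ) (hQ : 1 ≤ Q) (hz : 1 ≤ z)
    (hlam : ∀ d, lam d ≠ 0 → 1 ≤ d ∧ d ≤ R ∧ ∀ p : ℕ, p.Prime → p ∣ d → z < p)
    (hl1 : ∀ d, |lam d| ≤ 1) :
    |qf R (lamQ Q lam) - qf R lam| ≤
      ((Q.primeFactors.filter (fun p => z < p)).card : ℝ) * (4 * (1 + Real.log R) ^ 3 / z) := by
  classical
  set P := Q.primeFactors.filter (fun p => z < p) with hP
  have hz0 : (0 : ℝ) < z := by exact_mod_cast hz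
  unfold qf
  rw [← sum_sub_distrib]
  refine (abs_sum_le_sum_abs _ _).trans ?_
  have h1 : ∀ d ∈ Icc 1 R, |∑ e ∈ Icc 1 R, lamQ Q lam d * lamQ Q lam e / (Nat.lcm d e : ℕ) -
      ∑ e ∈ Icc 1 R, lam d * lam e / (Nat.lcm d e : ℕ)| ≤
      ∑ e ∈ Icc 1 R, ∑ p ∈ P, (if p ∣ Nat.lcm d e then (1 : ℝ) / (Nat.lcm d e : ℕ) else 0) := by
    intro d _
    rw [← sum_sub_distrib]
    refine (abs_sum_le_sum_abs _ _).trans (sum_le_sum fun e _ => ?_)
    have hnn : ∀ p ∈ P, (0 : ℝ) ≤ (if p ∣ Nat.lcm d e then (1 : ℝ) / (Nat.lcm d e : ℕ) else 0) :=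
      fun p _ => by split_ifs <;> positivity
    have hlcm : (0 : ℝ) ≤ (Nat.lcm d e : ℕ) := Nat.cast_nonneg _
    -- a helper: a nonzero weight at an integer with a common factor
    have key : ∀ f : ℕ, f ∣ Nat.lcm d e → lam f ≠ 0 → ¬ Nat.Coprime f Q →
        (1 : ℝ) / (Nat.lcm d e : ℕ) ≤
          ∑ p ∈ P, (if p ∣ Nat.lcm d e then (1 : ℝ) / (Nat.lcm d e : ℕ) else 0) := by
      intro f hf hlf hcf
      obtain ⟨p, hp, hpf, hpQ⟩ := Nat.Prime.not_coprime_iff_dvd.1 hcf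
      have hpP : p ∈ P := by
        rw [hP, mem_filter, Nat.mem_primeFactors]
        exact ⟨⟨hp, hpQ, by omega⟩, (hlam f hlf).2.2 p hp hpf⟩
      refine le_trans ?_ (single_le_sum hnn hpP)
      rw [if_pos (hpf.trans hf)]
    have hab : |lam d * lam e| ≤ 1 := by
      rw [abs_mul]
      exact mul_le_one₀ (hl1 d) (abs_nonneg _) (hl1 e)
    have hdiv : |lam d * lam e / (Nat.lcm d e : ℕ)| ≤ 1 / (Nat.lcm d e : ℕ) := by
      rw [abs_div, Nat.abs_cast]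
      exact div_le_div_of_nonneg_right hab hlcm
    by_cases hd : Nat.Coprime d Q
    · by_cases he : Nat.Coprime e Q
      · have : lamQ Q lam d * lamQ Q lam e / (Nat.lcm d e : ℕ) - lam d * lam e / (Nat.lcm d e : ℕ) = 0 := by
          unfold lamQ
          rw [if_pos hd, if_pos he, sub_self]
        rw [this, abs_zero]
        exact sum_nonneg hnn
      · have e1 : lamQ Q lam d * lamQ Q lam e / (Nat.lcm d e : ℕ) - lam d * lam e / (Nat.lcm d e : ℕ) =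
            -(lam d * lam e / (Nat.lcm d e : ℕ)) := by
          unfold lamQ
          rw [if_neg he, mul_zero, zero_div, zero_sub]
        rw [e1, abs_neg]
        by_cases h0 : lam e = 0
        · rw [h0, mul_zero, zero_div, abs_zero]
          exact sum_nonneg hnn
        · exact hdiv.trans (key e (Nat.dvd_lcm_right d e) h0 he)
    · have e1 : lamQ Q lam d * lamQ Q lam e / (Nat.lcm d e : ℕ) - lam d * lam e / (Nat.lcm d e : ℕ) =
          -(lam d * lam e / (Nat.lcm d e : ℕ)) := by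
        unfold lamQ
        rw [if_neg hd, zero_mul, zero_div, zero_sub]
      rw [e1, abs_neg]
      by_cases h0 : lam d = 0
      · rw [h0, zero_mul, zero_div, abs_zero]
        exact sum_nonneg hnn
      · exact hdiv.trans (key d (Nat.dvd_lcm_left d e) h0 hd)
  refine (sum_le_sum h1).trans ?_
  have h2 : ∑ d ∈ Icc 1 R, ∑ e ∈ Icc 1 R, ∑ p ∈ P,
      (if p ∣ Nat.lcm d e then (1 : ℝ) / (Nat.lcm d e : ℕ) else 0) =
      ∑ p ∈ P, ∑ d ∈ Icc 1 R, ∑ e ∈ Icc 1 R,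
        (if p ∣ Nat.lcm d e then (1 : ℝ) / (Nat.lcm d e : ℕ) else 0) := by
    calc ∑ d ∈ Icc 1 R, ∑ e ∈ Icc 1 R, ∑ p ∈ P,
          (if p ∣ Nat.lcm d e then (1 : ℝ) / (Nat.lcm d e : ℕ) else 0) =
        ∑ d ∈ Icc 1 R, ∑ p ∈ P, ∑ e ∈ Icc 1 R,
          (if p ∣ Nat.lcm d e then (1 : ℝ) / (Nat.lcm d e : ℕ) else 0) :=
          sum_congr rfl fun d _ => sum_comm
      _ = _ := sum_comm
  rw [h2]
  calc ∑ p ∈ P, ∑ d ∈ Icc 1 R, ∑ e ∈ Icc 1 R,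
        (if p ∣ Nat.lcm d e then (1 : ℝ) / (Nat.lcm d e : ℕ) else 0)
      ≤ ∑ p ∈ P, 4 * (1 + Real.log R) ^ 3 / z := by
        apply sum_le_sum
        intro p hp
        rw [hP, mem_filter, Nat.mem_primeFactors] at hp
        refine (lcm_sum_prime R p hp.1.1).trans ?_
        have hpz : (z : ℝ) ≤ p := by exact_mod_cast hp.2.le
        have := harm_nonneg R
        gcongr
    _ = _ := by rw [sum_const, nsmul_eq_mul]

end Pool.Agent.Y880.RS
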