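import Pool.Agent.Y880.RS.Pol

/-!
The second moment of the number of the classes `b` with `b`, `b + h_1`, ..., `b + h_m` prime to `Q`.
-/

set_option autoImplicit false

open Finset

namespace Pool.Agent.Y880.RS.P3

/-- the number of `(b, b', h)` with `b`, `b'`, `b + h_i`, `b' + h_i` units -/
noncomputable def Wt (m : ℕ) (R : Type) [CommRing R] : ℕ :=
  Nat.card {q : R × R × (Fin m → R) // (IsUnit q.1 ∧ IsUnit q.2.1) ∧
    ∀ i, IsUnit (q.1 + q.2.2 i) ∧ IsUnit (q.2.1 + q.2.2 i)}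

theorem Wt_equiv (m : ℕ) {R R' : Type} [CommRing R] [CommRing R'] (φ : R ≃+* R') :
    Wt m R = Wt m R' := by
  unfold Wt
  apply Nat.card_congr
  refine Equiv.subtypeEquiv (Equiv.prodCongr φ.toEquiv (Equiv.prodCongr φ.toEquiv
    (Equiv.piCongrRight fun _ => φ.toEquiv))) ?_
  rintro ⟨a, b, c⟩
  simp only [Equiv.prodCongr_apply, Prod.map, RingEquiv.toEquiv_eq_coe, EquivLike.coe_coe,
    Equiv.piCongrRight_apply, Pi.map_apply]
  have h1 : ∀ x y : R, IsUnit (φ x + φ y) ↔ IsUnit (x + y) := by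
    intro x y
    rw [← map_add, MulEquiv.isUnit_map]
  simp only [h1, MulEquiv.isUnit_map]

theorem Wt_prod (m : ℕ) (R R' : Type) [CommRing R] [CommRing R'] :
    Wt m (R × R') = Wt m R * Wt m R' := by
  unfold Wt
  rw [← Nat.card_prod]
  apply Nat.card_congr
  refine ⟨fun q => (⟨(q.1.1.1, q.1.2.1.1, fun i => (q.1.2.2 i).1), ?_⟩,
      ⟨(q.1.1.2, q.1.2.1.2, fun i => (q.1.2.2 i).2), ?_⟩),
    fun q => ⟨((q.1.1.1, q.2.1.1), (q.1.1.2.1, q.2.1.2.1), fun i => (q.1.1.2.2 i, q.2.1.2.2 i)), ?_⟩, ?_, ?_⟩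
  · obtain ⟨⟨a, b, c⟩, ⟨h2, h3⟩, h4⟩ := q
    simp only at h2 h3 h4 ⊢
    rw [Prod.isUnit_iff] at h2 h3
    refine ⟨⟨h2.1, h3.1⟩, fun i => ?_⟩
    have h5 := h4 i
    rw [Prod.isUnit_iff, Prod.isUnit_iff] at h5
    exact ⟨h5.1.1, h5.2.1⟩
  · obtain ⟨⟨a, b, c⟩, ⟨h2, h3⟩, h4⟩ := q
    simp only at h2 h3 h4 ⊢
    rw [Prod.isUnit_iff] at h2 h3
    refine ⟨⟨h2.2, h3.2⟩, fun i => ?_⟩
    have h5 := h4 i
    rw [Prod.isUnit_iff, Prod.isUnit_iff] at h5
    exact ⟨h5.1.2, h5.2.2⟩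
  · obtain ⟨⟨⟨a, b, c⟩, ⟨h2, h3⟩, h4⟩, ⟨⟨a', b', c'⟩, ⟨h5, h6⟩, h7⟩⟩ := q
    simp only at h2 h3 h4 h5 h6 h7 ⊢
    refine ⟨⟨Prod.isUnit_iff.2 ⟨h2, h5⟩, Prod.isUnit_iff.2 ⟨h3, h6⟩⟩, fun i => ?_⟩
    exact ⟨Prod.isUnit_iff.2 ⟨(h4 i).1, (h7 i).1⟩, Prod.isUnit_iff.2 ⟨(h4 i).2, (h7 i).2⟩⟩
  · intro q
    rfl
  · intro q
    rfl

theorem Wt_one (m : ℕ) : Wt m (ZMod 1) = 1 := by
  unfold Wt
  rw [Nat.card_eq_one_iff_unique]
  constructor
  · constructor
    rintro ⟨a, ha⟩ ⟨b, hb⟩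
    apply Subtype.ext
    exact Subsingleton.elim _ _
  · exact ⟨⟨(0, 0, fun _ => 0), ⟨isUnit_of_subsingleton _, isUnit_of_subsingleton _⟩,
      fun _ => ⟨isUnit_of_subsingleton _, isUnit_of_subsingleton _⟩⟩⟩

theorem Wt_mul (m a b : ℕ) (h : a.Coprime b) :
    Wt m (ZMod (a * b)) = Wt m (ZMod a) * Wt m (ZMod b) := by
  rw [Wt_equiv m (ZMod.chineseRemainder h), Wt_prod]

theorem Wt_primes (m : ℕ) (s : Finset ℕ) (hs : ∀ p ∈ s, p.Prime) :
    Wt m (ZMod (∏ p ∈ s, p)) = ∏ p ∈ s, Wt m (ZMod p) := by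
  classical
  induction s using Finset.induction_on with
  | empty => rw [prod_empty, prod_empty, Wt_one]
  | insert a s ha ih =>
    rw [prod_insert ha, prod_insert ha, Wt_mul, ih fun p hp => hs p (mem_insert_of_mem hp)]
    apply Nat.Coprime.prod_right
    intro p hp
    rw [Nat.coprime_primes (hs a (mem_insert_self a s)) (hs p (mem_insert_of_mem hp))]
    rintro rfl
    exact ha hp

theorem Wt_sum (m : ℕ) (R : Type) [CommRing R] [Fintype R] [DecidableEq R]
    [DecidablePred (fun x : R => IsUnit x)] :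
    Wt m R = ∑ q ∈ (univ : Finset (R × R)).filter (fun q => IsUnit q.1 ∧ IsUnit q.2),
      ((univ : Finset R).filter (fun h => IsUnit (q.1 + h) ∧ IsUnit (q.2 + h))).card ^ m := by
  classical
  unfold Wt
  have h1 : ∀ q : R × R, ((univ : Finset R).filter (fun h => IsUnit (q.1 + h) ∧ IsUnit (q.2 + h))).card ^ m =
      (Fintype.piFinset (fun _ : Fin m => (univ : Finset R).filter
        (fun h => IsUnit (q.1 + h) ∧ IsUnit (q.2 + h)))).card := by
    intro q
    rw [Fintype.card_piFinset, prod_const, card_univ, Fintype.card_fin]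
  simp_rw [h1]
  rw [← card_sigma, Nat.card_eq_fintype_card, Fintype.card_subtype]
  apply card_bij (fun q _ => ⟨(q.1, q.2.1), q.2.2⟩)
  · rintro ⟨a, b, c⟩ hq
    rw [mem_filter] at hq
    simp only at hq
    rw [mem_sigma, mem_filter, Fintype.mem_piFinset]
    refine ⟨⟨mem_univ _, hq.2.1⟩, fun i => ?_⟩
    rw [mem_filter]
    exact ⟨mem_univ _, hq.2.2 i⟩
  · rintro ⟨a, b, c⟩ _ ⟨a', b', c'⟩ _ h
    simp only [Sigma.mk.injEq, Prod.mk.injEq, heq_eq_eq] at h
    rw [h.1.1, h.1.2, h.2]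
  · rintro ⟨⟨a, b⟩, c⟩ hq
    rw [mem_sigma, mem_filter, Fintype.mem_piFinset] at hq
    simp only at hq
    refine ⟨(a, b, c), ?_, rfl⟩
    rw [mem_filter]
    refine ⟨mem_univ _, hq.1.2, fun i => ?_⟩
    have := hq.2 i
    rw [mem_filter] at this
    exact this.2

theorem pow_aux (m : ℕ) (n : ℝ) (hn : 1 ≤ n) : n * (n + 1) ^ m ≤ n ^ m * (n + 2 ^ m - 1) := by
  induction m with
  | zero => simp
  | succ m ih =>
    have h2 : (1 : ℝ) ≤ 2 ^ m := one_le_pow₀ (by norm_num)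
    have h3 : (0 : ℝ) ≤ n ^ m := by positivity
    calc n * (n + 1) ^ (m + 1) = (n + 1) * (n * (n + 1) ^ m) := by ring
      _ ≤ (n + 1) * (n ^ m * (n + 2 ^ m - 1)) := by gcongr
      _ = n ^ m * ((n + 1) * (n + 2 ^ m - 1)) := by ring
      _ ≤ n ^ m * (n * (n + 2 ^ (m + 1) - 1)) := by
          apply mul_le_mul_of_nonneg_left _ h3
          rw [pow_succ]
          nlinarith [mul_nonneg (sub_nonneg.2 h2) (sub_nonneg.2 hn)]
      _ = _ := by ring

theorem Wt_prime (m p : ℕ) (hp : p.Prime) :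
    (Wt m (ZMod p) : ℝ) * (p : ℝ) ^ m ≤ (1 + 2 ^ m * (1 / ((p : ℝ) - 1) ^ 2)) * ((p : ℝ) - 1) ^ (2 * m + 2) := by
  classical
  have : Fact p.Prime := ⟨hp⟩
  have hp2 : 2 ≤ p := hp.two_le
  obtain ⟨n, hn⟩ : ∃ n : ℝ, n = (p : ℝ) - 1 := ⟨_, rfl⟩
  have hn1 : 1 ≤ n := by
    have : (2 : ℝ) ≤ p := by exact_mod_cast hp2
    rw [hn]; linarith
  have hpn : (p : ℝ) = n + 1 := by rw [hn]; ring
  have h1 : (Wt m (ZMod p) : ℝ) = n ^ (m + 1) + n * (n - 1) ^ (m + 1) := by
    rw [Wt_sum, Nat.cast_sum]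
    have h2 : ∀ q : ZMod p × ZMod p,
        ((((univ : Finset (ZMod p)).filter (fun h => IsUnit (q.1 + h) ∧ IsUnit (q.2 + h))).card ^ m : ℕ) : ℝ) =
        if q.1 = q.2 then n ^ m else (n - 1) ^ m := by
      intro q
      have e1 : (univ : Finset (ZMod p)).filter (fun h => IsUnit (q.1 + h) ∧ IsUnit (q.2 + h)) =
          univ \ {-q.1, -q.2} := by
        ext a
        have e : ∀ x : ZMod p, IsUnit (x + a) ↔ a ≠ -x := by
          intro x
          rw [isUnit_iff_ne_zero, Ne, Ne, add_eq_zero_iff_neg_eq, eq_comm]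
        simp only [mem_filter, mem_univ, true_and, mem_sdiff, mem_insert, mem_singleton, not_or, e]
      rw [e1, card_sdiff_of_subset (subset_univ _), card_univ, ZMod.card]
      push_cast
      split_ifs with h
      · rw [h, pair_eq_singleton, card_singleton, Nat.cast_sub (by omega), hn]
        push_cast
        rfl
      · rw [card_pair (by intro h3; exact h (neg_injective h3)), Nat.cast_sub hp2, hn]
        push_cast
        congr 1
        ring
    rw [sum_congr rfl fun q _ => h2 q, sum_ite, sum_const, sum_const, nsmul_eq_mul, nsmul_eq_mul]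
    have h3 : (((univ : Finset (ZMod p × ZMod p)).filter (fun q => IsUnit q.1 ∧ IsUnit q.2)).filter
        (fun q => q.1 = q.2)).card = p - 1 := by
      have : (((univ : Finset (ZMod p × ZMod p)).filter (fun q => IsUnit q.1 ∧ IsUnit q.2)).filter
        (fun q => q.1 = q.2)) = ((univ : Finset (ZMod p)).erase 0).image (fun x => (x, x)) := by
        ext ⟨a, b⟩
        simp only [mem_filter, mem_univ, true_and, mem_image, mem_erase, isUnit_iff_ne_zero, Prod.mk.injEq]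
        constructor
        · rintro ⟨⟨h4, h5⟩, rfl⟩
          exact ⟨a, ⟨h4, trivial⟩, rfl, rfl⟩
        · rintro ⟨x, ⟨h4, _⟩, rfl, rfl⟩
          exact ⟨⟨h4, h4⟩, rfl⟩
      rw [this, card_image_of_injective _ (fun x y h => (Prod.mk.inj h).1), card_erase_of_mem (mem_univ _),
        card_univ, ZMod.card]
    have h4 : ((univ : Finset (ZMod p × ZMod p)).filter (fun q => IsUnit q.1 ∧ IsUnit q.2)).card =
        (p - 1) * (p - 1) := by
      have : ((univ : Finset (ZMod p × ZMod p)).filter (fun q => IsUnit q.1 ∧ IsUnit q.2)) =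
          ((univ : Finset (ZMod p)).erase 0) ×ˢ ((univ : Finset (ZMod p)).erase 0) := by
        ext ⟨a, b⟩
        simp only [mem_filter, mem_univ, true_and, mem_product, mem_erase, isUnit_iff_ne_zero, and_true]
      rw [this, card_product, card_erase_of_mem (mem_univ _), card_univ, ZMod.card]
    have h5 := card_filter_add_card_filter_not (s := (univ : Finset (ZMod p × ZMod p)).filter
      (fun q => IsUnit q.1 ∧ IsUnit q.2)) (fun q => q.1 = q.2)
    rw [h3, h4] at h5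
    have h6 : ((p - 1 : ℕ) : ℝ) = n := by rw [Nat.cast_sub (by omega), hn, Nat.cast_one]
    have h7 : (((((univ : Finset (ZMod p × ZMod p)).filter (fun q => IsUnit q.1 ∧ IsUnit q.2)).filter
        (fun q => ¬ q.1 = q.2)).card : ℕ) : ℝ) = n * (n - 1) := by
      have h8 : ((p - 1 : ℕ) : ℝ) + (((((univ : Finset (ZMod p × ZMod p)).filter
        (fun q => IsUnit q.1 ∧ IsUnit q.2)).filter (fun q => ¬ q.1 = q.2)).card : ℕ) : ℝ) =
        ((p - 1 : ℕ) : ℝ) * ((p - 1 : ℕ) : ℝ) := by exact_mod_cast h5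
      rw [h6] at h8
      linarith
    rw [h3, h7, h6]
    ring
  rw [h1, hpn]
  clear h1
  have h2 := pow_aux m n hn1
  have h3 : (n ^ 2 - 1) ^ m ≤ (n ^ 2) ^ m := pow_le_pow_left₀ (by nlinarith) (by linarith) m
  have h5 : (0 : ℝ) ≤ n ^ m := by positivity
  have h4 : n * (n - 1) ^ (m + 1) * (n + 1) ^ m = n * (n - 1) * (n ^ 2 - 1) ^ m := by
    have : n ^ 2 - 1 = (n - 1) * (n + 1) := by ring
    rw [this, mul_pow]
    ring
  have hn0 : n ≠ 0 := by linarith
  have hR : (1 + 2 ^ m * (1 / n ^ 2)) * n ^ (2 * m + 2) = n ^ (2 * m + 2) + 2 ^ m * n ^ (2 * m) := by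
    rw [pow_add n (2 * m) 2]
    field_simp
  have hnn : 0 ≤ n * (n - 1) := mul_nonneg (by linarith) (by linarith)
  have hnm : (0 : ℝ) ≤ n ^ (2 * m) := by positivity
  have e1 : n + 1 - 1 = n := by ring
  rw [e1, hR]
  calc (n ^ (m + 1) + n * (n - 1) ^ (m + 1)) * (n + 1) ^ m =
      n ^ m * (n * (n + 1) ^ m) + n * (n - 1) ^ (m + 1) * (n + 1) ^ m := by ring
    _ ≤ n ^ m * (n ^ m * (n + 2 ^ m - 1)) + n * (n - 1) * (n ^ 2) ^ m := by
        rw [h4]
        gcongr
    _ = n ^ (2 * m + 2) + 2 ^ m * n ^ (2 * m) - n ^ (2 * m) := by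
        rw [← pow_mul]
        ring
    _ ≤ _ := by linarith

theorem second3 (m : ℕ) : ∃ C : ℝ, 0 < C ∧ ∀ n : ℕ,
    (Wt m (ZMod (primorial n)) : ℝ) * (primorial n : ℝ) ^ m ≤ C * ((primorial n).totient : ℝ) ^ (2 * m + 2) := by
  classical
  refine ⟨Real.exp (2 * 2 ^ m), by positivity, fun N => ?_⟩
  obtain ⟨s, hs⟩ : ∃ s, s = (range (N + 1)).filter Nat.Prime := ⟨_, rfl⟩
  have hsp : ∀ p ∈ s, p.Prime := fun p hp => by
    rw [hs, mem_filter] at hp
    exact hp.2
  have hprim : primorial N = ∏ p ∈ s, p := by rw [hs]; rfl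
  rw [hprim, Wt_primes m s hsp]
  have htot : ((∏ p ∈ s, p).totient : ℝ) = ∏ p ∈ s, ((p : ℝ) - 1) := by
    have h1 : ∀ s' ⊆ s, ((∏ p ∈ s', p).totient : ℝ) = ∏ p ∈ s', ((p : ℝ) - 1) := by
      intro s'
      induction s' using Finset.induction_on with
      | empty => intro _; simp
      | insert b s' hb ih =>
        intro hsub
        rw [prod_insert hb, prod_insert hb, Nat.totient_mul, Nat.cast_mul,
          ih (fun p hp => hsub (mem_insert_of_mem hp)),
          Nat.totient_prime (hsp b (hsub (mem_insert_self b s'))), Nat.cast_sub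
            (hsp b (hsub (mem_insert_self b s'))).one_lt.le, Nat.cast_one]
        apply Nat.Coprime.prod_right
        intro p hp
        rw [Nat.coprime_primes (hsp b (hsub (mem_insert_self b s'))) (hsp p (hsub (mem_insert_of_mem hp)))]
        rintro rfl
        exact hb hp
    exact h1 s subset_rfl
  rw [htot]
  push_cast
  rw [← prod_pow, ← prod_pow, ← prod_mul_distrib]
  have hfac : ∀ p ∈ s, (Wt m (ZMod p) : ℝ) * (p : ℝ) ^ m ≤
      Real.exp (2 ^ m * (1 / ((p : ℝ) - 1) ^ 2)) * ((p : ℝ) - 1) ^ (2 * m + 2) := by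
    intro p hp
    refine (Wt_prime m p (hsp p hp)).trans ?_
    have hp2 : (2 : ℝ) ≤ p := by exact_mod_cast (hsp p hp).two_le
    have := Real.add_one_le_exp (2 ^ m * (1 / ((p : ℝ) - 1) ^ 2))
    have h3 : (0 : ℝ) ≤ (p : ℝ) - 1 := by linarith
    apply mul_le_mul_of_nonneg_right _ (by positivity)
    linarith
  calc ∏ p ∈ s, ((Wt m (ZMod p) : ℝ) * (p : ℝ) ^ m) ≤
      ∏ p ∈ s, (Real.exp (2 ^ m * (1 / ((p : ℝ) - 1) ^ 2)) * ((p : ℝ) - 1) ^ (2 * m + 2)) :=
        prod_le_prod (fun p _ => by positivity) hfac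
    _ = (∏ p ∈ s, Real.exp (2 ^ m * (1 / ((p : ℝ) - 1) ^ 2))) * ∏ p ∈ s, ((p : ℝ) - 1) ^ (2 * m + 2) := by
        rw [prod_mul_distrib]
    _ ≤ _ := by
        apply mul_le_mul_of_nonneg_right
        · rw [← Real.exp_sum]
          apply Real.exp_le_exp.2
          rw [← mul_sum, mul_comm 2]
          apply mul_le_mul_of_nonneg_left _ (by positivity)
          have h1 : ∑ p ∈ s, (1 : ℝ) / ((p : ℝ) - 1) ^ 2 = ∑ n ∈ s.image (fun p : ℕ => (p - 1 : ℕ)), ((n : ℝ) ^ 2)⁻¹ := by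
            rw [sum_image]
            · apply sum_congr rfl
              intro p hp
              rw [Nat.cast_sub (hsp p hp).one_lt.le, Nat.cast_one, one_div]
            · intro p hp q hq hpq
              have h1 := (hsp p hp).one_lt
              have h2 := (hsp q hq).one_lt
              simp only at hpq
              omega
          rw [h1]
          have h2 : s.image (fun p : ℕ => (p - 1 : ℕ)) ⊆ Ioo 0 (N + 1) := by
            intro n hn
            rw [mem_image] at hn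
            obtain ⟨p, hp, rfl⟩ := hn
            have h3 := (hsp p hp).one_lt
            rw [hs, mem_filter, mem_range] at hp
            rw [mem_Ioo]
            omega
          refine (sum_le_sum_of_subset_of_nonneg h2 fun _ _ _ => by positivity).trans ?_
          have h3 := sum_Ioo_inv_sq_le (α := ℝ) 0 (N + 1)
          norm_num at h3
          exact h3
        · apply prod_nonneg
          intro p hp
          have hp2 : (2 : ℝ) ≤ p := by exact_mod_cast (hsp p hp).two_le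
          have h3 : (0 : ℝ) ≤ (p : ℝ) - 1 := by linarith
          positivity

end Pool.Agent.Y880.RS.P3
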