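import Pool.Agent.Y880.RS.P3a

/-!
The moments of the number of the admissible classes over a box of patterns; the number of the good patterns.
-/

set_option autoImplicit false

open Finset

namespace Pool.Agent.Y880.RS.P3

theorem per_aux (q : ℕ) (P : ℕ → Prop) [DecidablePred P] (hP : Function.Periodic P q) (n : ℕ) :
    ((Ico 1 (1 + q * n)).filter P).card ≤ n * ((range q).filter P).card := by
  induction n with
  | zero => simp
  | succ n ih =>
    have h1 : (Ico 1 (1 + q * (n + 1))).filter P ⊆ (Ico 1 (1 + q * n)).filter P ∪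
        (Ico (1 + q * n) (1 + q * n + q)).filter P := by
      intro x hx
      rw [mem_filter, mem_Ico] at hx
      rw [mem_union, mem_filter, mem_filter, mem_Ico, mem_Ico]
      by_cases h : x < 1 + q * n
      · left; exact ⟨⟨hx.1.1, h⟩, hx.2⟩
      · right; exact ⟨⟨by omega, by have := hx.1.2; rw [mul_add] at this; omega⟩, hx.2⟩
    have h2 : ((Ico (1 + q * n) (1 + q * n + q)).filter P).card = ((range q).filter P).card := by
      rw [Nat.filter_Ico_card_eq_of_periodic (1 + q * n) q P hP, Nat.count_eq_card_filter_range]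
    calc _ ≤ _ := card_le_card h1
      _ ≤ _ := card_union_le _ _
      _ ≤ n * ((range q).filter P).card + ((range q).filter P).card := by rw [h2]; omega
      _ = _ := by ring

theorem per_count (q K : ℕ) (hq : 1 ≤ q) (hqK : q ≤ K) (P : ℕ → Prop) [DecidablePred P]
    (hP : Function.Periodic P q) :
    (((Icc 1 K).filter P).card : ℝ) ≤ 2 * K / q * ((range q).filter P).card := by
  have h1 : (Icc 1 K).filter P ⊆ (Ico 1 (1 + q * (K / q + 1))).filter P := by
    apply filter_subset_filter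
    intro x hx
    rw [mem_Icc] at hx
    rw [mem_Ico]
    refine ⟨hx.1, ?_⟩
    have h3 := Nat.div_add_mod K q
    have h4 := Nat.mod_lt K hq
    have h5 : q * (K / q + 1) = q * (K / q) + q := by ring
    omega
  have h2 := (card_le_card h1).trans (per_aux q P hP (K / q + 1))
  have hq0 : (0 : ℝ) < q := by exact_mod_cast hq
  have h3 : ((K / q + 1 : ℕ) : ℝ) ≤ 2 * K / q := by
    push_cast
    have h4 : ((K / q : ℕ) : ℝ) ≤ K / q := Nat.cast_div_le
    have h5 : (1 : ℝ) ≤ K / q := by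
      rw [one_le_div hq0]
      exact_mod_cast hqK
    calc ((K / q : ℕ) : ℝ) + 1 ≤ K / q + K / q := add_le_add h4 h5
      _ = _ := by ring
  calc (((Icc 1 K).filter P).card : ℝ) ≤ ((K / q + 1 : ℕ) : ℝ) * ((range q).filter P).card := by
        exact_mod_cast h2
    _ ≤ _ := by gcongr

/-- the box of the patterns -/
def box (m K : ℕ) : Finset (Fin m → ℕ) := Fintype.piFinset (fun _ => Icc 1 K)

theorem mem_box {m K : ℕ} {h : Fin m → ℕ} : h ∈ box m K ↔ ∀ i, 1 ≤ h i ∧ h i ≤ K := by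
  unfold box
  rw [Fintype.mem_piFinset]
  simp only [mem_Icc]

/-- the classes `b` with `b` and all `b + h i` prime to `Q` -/
def cls3 (m Q : ℕ) (h : Fin m → ℕ) : Finset ℕ :=
  (range Q).filter (fun b => b.Coprime Q ∧ ∀ i, (b + h i).Coprime Q)

theorem sum_cls3 (m Q K : ℕ) (hQ : 1 ≤ Q) (hQK : Q ≤ K) :
    ∑ h ∈ box m K, ((cls3 m Q h).card : ℝ) ≤ Q.totient * (2 * K / Q * Q.totient) ^ m := by
  classical
  have h1 : ∑ h ∈ box m K, ((cls3 m Q h).card : ℝ) =
      ∑ b ∈ (range Q).filter (fun b => b.Coprime Q), (((Icc 1 K).filter (fun x => (b + x).Coprime Q)).card : ℝ) ^ m := by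
    have h2 : ∀ h ∈ box m K, ((cls3 m Q h).card : ℝ) =
        ∑ b ∈ (range Q).filter (fun b => b.Coprime Q), (if ∀ i, (b + h i).Coprime Q then (1 : ℝ) else 0) := by
      intro h _
      unfold cls3
      rw [← filter_filter, card_filter]
      push_cast
      rfl
    rw [sum_congr rfl h2, sum_comm]
    apply sum_congr rfl
    intro b _
    rw [← sum_filter, sum_const, nsmul_eq_mul, mul_one]
    have h3 : (box m K).filter (fun h => ∀ i, (b + h i).Coprime Q) =
        Fintype.piFinset (fun _ : Fin m => (Icc 1 K).filter (fun x => (b + x).Coprime Q)) := by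
      ext h
      rw [mem_filter, mem_box, Fintype.mem_piFinset]
      simp only [mem_filter, mem_Icc]
      constructor
      · rintro ⟨h4, h5⟩ i
        exact ⟨h4 i, h5 i⟩
      · intro h4
        exact ⟨fun i => (h4 i).1, fun i => (h4 i).2⟩
    rw [h3, Fintype.card_piFinset, prod_const, card_univ, Fintype.card_fin]
    push_cast
    rfl
  rw [h1]
  have h2 : ∀ b : ℕ, ((range Q).filter (fun x => (b + x).Coprime Q)).card = Q.totient := by
    intro b
    rw [← Nat.filter_coprime_Ico_eq_totient Q b]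
    apply card_bij (fun a _ => b + a)
    · intro a ha
      rw [mem_filter, mem_range] at ha
      rw [mem_filter, mem_Ico]
      exact ⟨by omega, ha.2.symm⟩
    · intro a _ a' _ h
      omega
    · intro x hx
      rw [mem_filter, mem_Ico] at hx
      refine ⟨x - b, ?_, by omega⟩
      rw [mem_filter, mem_range]
      refine ⟨by omega, ?_⟩
      rw [Nat.add_sub_cancel' hx.1.1]
      exact hx.2.symm
  have h3 : ∀ b : ℕ, (((Icc 1 K).filter (fun x => (b + x).Coprime Q)).card : ℝ) ≤ 2 * K / Q * Q.totient := by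
    intro b
    rw [← h2 b]
    apply per_count Q K hQ hQK
    intro x
    simp only [eq_iff_iff]
    rw [← add_assoc, Nat.coprime_add_self_left]
  calc ∑ b ∈ (range Q).filter (fun b => b.Coprime Q), (((Icc 1 K).filter (fun x => (b + x).Coprime Q)).card : ℝ) ^ m
      ≤ ∑ _b ∈ (range Q).filter (fun b => b.Coprime Q), (2 * K / Q * Q.totient : ℝ) ^ m := by
        apply sum_le_sum
        intro b _
        exact pow_le_pow_left₀ (Nat.cast_nonneg _) (h3 b) m
    _ = _ := by
        rw [sum_const, nsmul_eq_mul]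
        congr 2
        have := h2 0
        simp only [zero_add] at this
        exact_mod_cast this

theorem sum_zmod (Q : ℕ) [NeZero Q] (F : ZMod Q → ℝ) : ∑ b ∈ range Q, F (b : ZMod Q) = ∑ b : ZMod Q, F b := by
  apply sum_nbij' (fun b : ℕ => (b : ZMod Q)) (fun b => b.val)
  · intro a _; exact mem_univ _
  · intro a _; rw [mem_range]; exact ZMod.val_lt a
  · intro a ha; rw [mem_range] at ha; exact ZMod.val_natCast_of_lt ha
  · intro a _; exact ZMod.natCast_zmod_val a
  · intro a _; rfl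

theorem card_zmod (Q : ℕ) [NeZero Q] (P : ZMod Q → Prop) [DecidablePred P] :
    ((range Q).filter (fun x : ℕ => P (x : ZMod Q))).card = ((univ : Finset (ZMod Q)).filter P).card := by
  have h1 : ((((range Q).filter (fun x : ℕ => P (x : ZMod Q))).card : ℕ) : ℝ) =
      ((((univ : Finset (ZMod Q)).filter P).card : ℕ) : ℝ) := by
    rw [card_filter, card_filter]
    push_cast
    exact sum_zmod Q (fun x => if P x then (1 : ℝ) else 0)
  exact_mod_cast h1

theorem sum_cls3_sq (m Q K : ℕ) (hQ : 1 ≤ Q) (hQK : Q ≤ K) :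
    ∑ h ∈ box m K, ((cls3 m Q h).card : ℝ) ^ 2 ≤ (2 * K / Q : ℝ) ^ m * Wt m (ZMod Q) := by
  classical
  have hne : NeZero Q := ⟨by omega⟩
  have h1 : ∑ h ∈ box m K, ((cls3 m Q h).card : ℝ) ^ 2 =
      ∑ q ∈ (range Q ×ˢ range Q).filter (fun q => q.1.Coprime Q ∧ q.2.Coprime Q),
        (((Icc 1 K).filter (fun x => (q.1 + x).Coprime Q ∧ (q.2 + x).Coprime Q)).card : ℝ) ^ m := by
    have h2 : ∀ h ∈ box m K, ((cls3 m Q h).card : ℝ) ^ 2 =
        ∑ q ∈ (range Q ×ˢ range Q).filter (fun q => q.1.Coprime Q ∧ q.2.Coprime Q),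
          (if ∀ i, (q.1 + h i).Coprime Q ∧ (q.2 + h i).Coprime Q then (1 : ℝ) else 0) := by
      intro h _
      have h3 : (cls3 m Q h).card ^ 2 = ((range Q ×ˢ range Q).filter
          (fun q => (q.1.Coprime Q ∧ q.2.Coprime Q) ∧ ∀ i, (q.1 + h i).Coprime Q ∧ (q.2 + h i).Coprime Q)).card := by
        rw [pow_two, ← card_product]
        congr 1
        ext ⟨a, b⟩
        unfold cls3
        simp only [mem_product, mem_filter, mem_range]
        constructor
        · rintro ⟨⟨a1, a2, a3⟩, ⟨b1, b2, b3⟩⟩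
          exact ⟨⟨a1, b1⟩, ⟨a2, b2⟩, fun i => ⟨a3 i, b3 i⟩⟩
        · rintro ⟨⟨a1, b1⟩, ⟨a2, b2⟩, h4⟩
          exact ⟨⟨a1, a2, fun i => (h4 i).1⟩, ⟨b1, b2, fun i => (h4 i).2⟩⟩
      have h4 : ((cls3 m Q h).card : ℝ) ^ 2 = (((cls3 m Q h).card ^ 2 : ℕ) : ℝ) := by push_cast; rfl
      rw [h4, h3, ← filter_filter, card_filter]
      push_cast
      rfl
    rw [sum_congr rfl h2, sum_comm]
    apply sum_congr rfl
    intro q _
    rw [← sum_filter, sum_const, nsmul_eq_mul, mul_one]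
    have h3 : (box m K).filter (fun h => ∀ i, (q.1 + h i).Coprime Q ∧ (q.2 + h i).Coprime Q) =
        Fintype.piFinset (fun _ : Fin m => (Icc 1 K).filter
          (fun x => (q.1 + x).Coprime Q ∧ (q.2 + x).Coprime Q)) := by
      ext h
      rw [mem_filter, mem_box, Fintype.mem_piFinset]
      simp only [mem_filter, mem_Icc]
      constructor
      · rintro ⟨h4, h5⟩ i
        exact ⟨h4 i, h5 i⟩
      · intro h4
        exact ⟨fun i => (h4 i).1, fun i => (h4 i).2⟩
    rw [h3, Fintype.card_piFinset, prod_const, card_univ, Fintype.card_fin]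
    push_cast
    rfl
  rw [h1]
  have hu : ∀ a : ℕ, a.Coprime Q ↔ IsUnit (a : ZMod Q) := fun a => (ZMod.isUnit_iff_coprime a Q).symm
  obtain ⟨ρ, hρ⟩ : ∃ ρ : ZMod Q × ZMod Q → ℕ, ρ = fun q => ((univ : Finset (ZMod Q)).filter
      (fun h => IsUnit (q.1 + h) ∧ IsUnit (q.2 + h))).card := ⟨_, rfl⟩
  have h2 : ∀ a b : ℕ, (((Icc 1 K).filter (fun x => (a + x).Coprime Q ∧ (b + x).Coprime Q)).card : ℝ) ≤
      2 * K / Q * ρ ((a : ZMod Q), (b : ZMod Q)) := by
    intro a b
    have h3 : ρ ((a : ZMod Q), (b : ZMod Q)) = ((range Q).filter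
        (fun x => (a + x).Coprime Q ∧ (b + x).Coprime Q)).card := by
      rw [hρ]
      simp only
      rw [← card_zmod]
      congr 1
      apply filter_congr
      intro x _
      rw [hu, hu]
      push_cast
      rfl
    rw [h3]
    apply per_count Q K hQ hQK
    intro x
    simp only [eq_iff_iff]
    rw [← add_assoc, ← add_assoc, Nat.coprime_add_self_left, Nat.coprime_add_self_left]
  have h3 : (Wt m (ZMod Q) : ℝ) = ∑ q ∈ (range Q ×ˢ range Q).filter (fun q => q.1.Coprime Q ∧ q.2.Coprime Q),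
      (ρ ((q.1 : ZMod Q), (q.2 : ZMod Q)) : ℝ) ^ m := by
    rw [Wt_sum, Nat.cast_sum, sum_filter, sum_filter, sum_product, ← univ_product_univ, sum_product]
    rw [← sum_zmod Q (fun x => ∑ y : ZMod Q, if IsUnit x ∧ IsUnit y then
      (((((univ : Finset (ZMod Q)).filter (fun h => IsUnit (x + h) ∧ IsUnit (y + h))).card ^ m : ℕ) : ℝ)) else 0)]
    apply sum_congr rfl
    intro a _
    rw [← sum_zmod Q (fun y => if IsUnit (a : ZMod Q) ∧ IsUnit y then
      (((((univ : Finset (ZMod Q)).filter (fun h => IsUnit ((a : ZMod Q) + h) ∧ IsUnit (y + h))).card ^ m : ℕ) : ℝ)) else 0)]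
    apply sum_congr rfl
    intro b _
    simp only
    by_cases hc : a.Coprime Q ∧ b.Coprime Q
    · rw [if_pos hc, if_pos ⟨(hu a).1 hc.1, (hu b).1 hc.2⟩, hρ]
      push_cast
      rfl
    · rw [if_neg hc, if_neg (fun h => hc ⟨(hu a).2 h.1, (hu b).2 h.2⟩)]
  rw [h3, mul_sum]
  apply sum_le_sum
  intro q _
  rw [← mul_pow]
  exact pow_le_pow_left₀ (Nat.cast_nonneg _) (h2 q.1 q.2) m

/-- many good patterns -/
theorem good3 {α : Type*} [DecidableEq α] (H : Finset α) (Q : ℕ) (β : α → Finset ℕ)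
    (R : α → ℕ → ℝ) (D δ₁ Tot : ℝ) (hD : 0 ≤ D)
    (hR : ∀ h ∈ H, ∀ b < Q, 0 ≤ R h b ∧ R h b ≤ D ∧ (b ∉ β h → R h b = 0)) (hβ : ∀ h ∈ H, β h ⊆ range Q)
    (hTot : Tot ≤ ∑ h ∈ H, ∑ b ∈ range Q, R h b) (hδ : 0 ≤ δ₁)
    (hT2 : δ₁ * (∑ h ∈ H, ((β h).card : ℝ)) ≤ Tot / 2) (hTp : 0 ≤ Tot) :
    ∃ G ⊆ H, (∀ h ∈ G, ∃ b < Q, δ₁ ≤ R h b) ∧ (Tot / 2) ^ 2 ≤ D ^ 2 *
      ((G.card : ℝ) * ∑ h ∈ H, ((β h).card : ℝ) ^ 2) := by
  classical
  obtain ⟨G, hG⟩ : ∃ G, G = H.filter (fun h => ∃ b < Q, δ₁ ≤ R h b) := ⟨_, rfl⟩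
  have hin : ∀ h ∈ H, ∀ W : ℝ, (∀ b < Q, R h b ≤ W) → 0 ≤ W →
      ∑ b ∈ range Q, R h b ≤ W * (β h).card := by
    intro h hh W hW hW0
    calc ∑ b ∈ range Q, R h b ≤ ∑ b ∈ range Q, (if b ∈ β h then W else 0) := by
          apply sum_le_sum
          intro b hb
          rw [mem_range] at hb
          split_ifs with hc
          · exact hW b hb
          · exact ((hR h hh b hb).2.2 hc).le
      _ = W * (β h).card := by
          rw [← sum_filter, sum_const, nsmul_eq_mul]
          have : (range Q).filter (fun b => b ∈ β h) = β h := by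
            ext b
            rw [mem_filter]
            exact ⟨fun e => e.2, fun e => ⟨hβ h hh e, e⟩⟩
          rw [this]
          ring
  have h1 : Tot ≤ ∑ h ∈ G, D * ((β h).card : ℝ) + ∑ h ∈ H, δ₁ * ((β h).card : ℝ) := by
    refine hTot.trans ?_
    have h2 : ∀ h ∈ H, ∑ b ∈ range Q, R h b ≤
        (if h ∈ G then D * ((β h).card : ℝ) else 0) + δ₁ * ((β h).card : ℝ) := by
      intro h hh
      have e0 : 0 ≤ δ₁ * ((β h).card : ℝ) := mul_nonneg hδ (Nat.cast_nonneg _)
      split_ifs with h3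
      · have := hin h hh D (fun b hb => (hR h hh b hb).2.1) hD
        linarith
      · rw [zero_add]
        apply hin h hh δ₁ _ hδ
        intro b hb
        by_contra h4
        push Not at h4
        apply h3
        rw [hG, mem_filter]
        exact ⟨hh, b, hb, h4.le⟩
    refine (sum_le_sum h2).trans ?_
    rw [sum_add_distrib]
    gcongr
    rw [← sum_filter]
    apply le_of_eq
    congr 1
    rw [hG]
    ext a
    rw [mem_filter, mem_filter]
    tauto
  rw [← mul_sum, ← mul_sum] at h1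
  have h3 : Tot / 2 ≤ D * ∑ h ∈ G, ((β h).card : ℝ) := by linarith
  have h4 : (∑ h ∈ G, ((β h).card : ℝ)) ^ 2 ≤ (G.card : ℝ) * ∑ h ∈ H, ((β h).card : ℝ) ^ 2 := by
    calc (∑ h ∈ G, ((β h).card : ℝ)) ^ 2 ≤ (G.card : ℝ) * ∑ h ∈ G, ((β h).card : ℝ) ^ 2 := sq_sum_le_card_mul_sum_sq
      _ ≤ _ := by
        apply mul_le_mul_of_nonneg_left _ (Nat.cast_nonneg _)
        apply sum_le_sum_of_subset_of_nonneg
        · rw [hG]; exact filter_subset _ _
        · intro _ _ _; positivity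
  refine ⟨G, by rw [hG]; exact filter_subset _ _, fun h hh => by rw [hG, mem_filter] at hh; exact hh.2, ?_⟩
  calc (Tot / 2) ^ 2 ≤ (D * ∑ h ∈ G, ((β h).card : ℝ)) ^ 2 := pow_le_pow_left₀ (by positivity) h3 2
    _ = D ^ 2 * (∑ h ∈ G, ((β h).card : ℝ)) ^ 2 := by ring
    _ ≤ D ^ 2 * ((G.card : ℝ) * ∑ h ∈ H, ((β h).card : ℝ) ^ 2) := by gcongr

end Pool.Agent.Y880.RS.P3
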