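import Pool.Agent.Y880.RS.Te3
import Pool.Agent.Y880.RS.P3b

/-!
Progressions of primes with the same pattern of primes after each term: the combinatorial core.
-/

set_option autoImplicit false

open Finset

namespace Pool.Agent.Y880.RS.P3

/-- the pattern with the shift `0` in front -/
def ext0 {m : ℕ} (h : Fin m → ℕ) : Fin (m + 1) → ℕ := Fin.cons 0 h

theorem ext0_zero {m : ℕ} (h : Fin m → ℕ) : ext0 h 0 = 0 := rfl

theorem ext0_succ {m : ℕ} (h : Fin m → ℕ) (i : Fin m) : ext0 h i.succ = h i := rfl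

theorem ext0_le {m K : ℕ} {h : Fin m → ℕ} (hh : h ∈ box m K) (i : Fin (m + 1)) : ext0 h i ≤ K := by
  rw [mem_box] at hh
  refine Fin.cases ?_ (fun j => ?_) i
  · rw [ext0_zero]; omega
  · rw [ext0_succ]; exact (hh j).2

theorem ext0_inj {m K : ℕ} {h : Fin m → ℕ} (hh : h ∈ box m K) (hi : Function.Injective h) :
    Function.Injective (ext0 h) := by
  rw [mem_box] at hh
  intro i j
  refine Fin.cases ?_ (fun i' => ?_) i <;> refine Fin.cases ?_ (fun j' => ?_) j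
  · intro _; rfl
  · rw [ext0_zero, ext0_succ]
    intro e
    have := (hh j').1
    omega
  · rw [ext0_zero, ext0_succ]
    intro e
    have := (hh i').1
    omega
  · rw [ext0_succ, ext0_succ]
    intro e
    rw [hi e]

theorem pat_core (m k Q K M N' h' y Y Z : ℕ) (C₁ c₂ δ₁ w Tot : ℝ) (hQ : 1 ≤ Q) (hQK : Q ≤ K)
    (hQZ : Q ≤ Z) (hC₁ : 0 < C₁) (hw : 0 < w) (hδ₁ : 0 < δ₁) (hh1 : 1 ≤ h') (hN' : h' ≤ N')
    (hub : ∀ b : ℕ, ∀ h ∈ box m K, Function.Injective h → ∀ P ⊆ cls y Y Q b,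
      (∀ x ∈ P, ∀ i, ∀ p : ℕ, p.Prime → p ∣ x + (Q * M * 1 + ext0 h i) → Z < p) → (P.card : ℝ) ≤ C₁ * w)
    (hte : ∀ b : ℕ, ∀ h ∈ box m K, Function.Injective h → ∀ P : Finset (ℕ × ℕ), (∀ q ∈ P, q.1 ∈ cls y Y Q b ∧
      q.2 ∈ Icc 1 h' ∧ ∀ i, ∀ p : ℕ, p.Prime → p ∣ q.1 + (Q * M * q.2 + ext0 h i) → Z < p) →
      δ₁ * (h' * w) ≤ P.card →
      ∃ G ⊆ cls y Y Q b, c₂ * ((Y : ℝ) / Q) ≤ G.card ∧ ∀ x ∈ G, ∃ u r : ℕ, 1 ≤ u ∧ 1 ≤ r ∧ ∀ j < k,
        (x, u + j * r) ∈ P)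
    (S : Finset ℕ) (H : ℕ → Fin m → ℕ)
    (hS : ∀ p ∈ S, p.Prime ∧ Z < p ∧ y + Q * M * N' < p ∧ p ≤ y + Y ∧ H p ∈ box m K ∧ Function.Injective (H p) ∧
      ∀ i, (p + H p i).Prime)
    (hTot : Tot ≤ S.card) (hTot0 : 0 ≤ Tot)
    (hT2 : δ₁ * w * (Q.totient * (2 * K / Q * Q.totient) ^ m) ≤ Tot / 2) :
    ∃ G ⊆ box m K, (Tot / 2) ^ 2 ≤ (C₁ * w) ^ 2 * ((G.card : ℝ) * ((2 * K / Q : ℝ) ^ m * Wt m (ZMod Q))) ∧
      ∀ h ∈ G, ∃ b : ℕ, ∃ G' ⊆ cls y Y Q b, c₂ * ((Y : ℝ) / Q) ≤ G'.card ∧ ∀ x ∈ G', ∃ u r : ℕ, 1 ≤ u ∧ 1 ≤ r ∧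
        ∀ j < k, u + j * r ≤ h' ∧ x + Q * M * (u + j * r) ∈ S ∧ H (x + Q * M * (u + j * r)) = h := by
  classical
  have hh0 : (0 : ℝ) < h' := by exact_mod_cast hh1
  obtain ⟨Fb, hFb⟩ : ∃ Fb : (Fin m → ℕ) → ℕ → Finset ℕ, Fb = fun h b => S.filter (fun p => H p = h ∧ p % Q = b) :=
    ⟨_, rfl⟩
  have hFm : ∀ h b p, p ∈ Fb h b ↔ p ∈ S ∧ H p = h ∧ p % Q = b := by
    intro h b p; rw [hFb]; simp only [mem_filter]
  have hprime : ∀ q : ℕ, q.Prime → Z < q → ∀ p : ℕ, p.Prime → p ∣ q → Z < p := by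
    intro q hq hZq p hp hpq
    rwa [(Nat.prime_dvd_prime_iff_eq hp hq).1 hpq]
  have hrough : ∀ h b, ∀ p ∈ Fb h b, ∀ i, (p + ext0 h i).Prime ∧ Z < p + ext0 h i := by
    intro h b p hp i
    rw [hFm] at hp
    obtain ⟨h1, h2, h3⟩ := hp
    have h4 := hS p h1
    refine ⟨?_, by omega⟩
    refine Fin.cases ?_ (fun j => ?_) i
    · rw [ext0_zero, add_zero]; exact h4.1
    · rw [ext0_succ, ← h2]; exact h4.2.2.2.2.2.2 j
  have hsum : (S.card : ℝ) = ∑ h ∈ box m K, ∑ b ∈ range Q, ((Fb h b).card : ℝ) := by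
    have h1 : S.card = ∑ t ∈ box m K ×ˢ range Q, (Fb t.1 t.2).card := by
      have h2 : ∀ p ∈ S, (H p, p % Q) ∈ box m K ×ˢ range Q := by
        intro p hp
        rw [mem_product, mem_range]
        exact ⟨(hS p hp).2.2.2.2.1, Nat.mod_lt _ hQ⟩
      rw [card_eq_sum_card_fiberwise (f := fun p : ℕ => (H p, p % Q)) h2]
      apply sum_congr rfl
      rintro ⟨h, b⟩ _
      congr 1
      ext p
      rw [mem_filter, hFm, Prod.mk.injEq]
    rw [h1, Nat.cast_sum, sum_product]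
  -- the upper bound
  have hinj_of : ∀ h b, (Fb h b).Nonempty → h ∈ box m K ∧ Function.Injective h := by
    rintro h b ⟨p, hp⟩
    rw [hFm] at hp
    rw [← hp.2.1]
    exact ⟨(hS p hp.1).2.2.2.2.1, (hS p hp.1).2.2.2.2.2.1⟩
  have hgt : ∀ h b, ∀ p ∈ Fb h b, ∀ u ≤ h', y + Q * M * u < p := by
    intro h b p hp u hu
    rw [hFm] at hp
    have h1 := (hS p hp.1).2.2.1
    have h2 : Q * M * u ≤ Q * M * N' := Nat.mul_le_mul_left _ (hu.trans hN')
    omega
  have hcls : ∀ h b, ∀ p ∈ Fb h b, ∀ u ≤ h', p - Q * M * u ∈ cls y Y Q b := by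
    intro h b p hp u hu
    have h1 := hgt h b p hp u hu
    rw [hFm] at hp
    have h2 := (hS p hp.1).2.2.2.1
    unfold cls
    rw [mem_filter, mem_Ioc]
    refine ⟨⟨by omega, by omega⟩, ?_⟩
    have h3 : (p - Q * M * u) % Q = p % Q := by
      have h4 : p = (p - Q * M * u) + Q * (M * u) := by rw [← mul_assoc]; omega
      conv_rhs => rw [h4]
      rw [Nat.add_mul_mod_self_left]
    rw [h3, hp.2.2]
    rw [← hp.2.2, Nat.mod_mod]
  have hR : ∀ h ∈ box m K, ∀ b < Q, 0 ≤ ((Fb h b).card : ℝ) ∧ ((Fb h b).card : ℝ) ≤ C₁ * w ∧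
      (b ∉ cls3 m Q h → ((Fb h b).card : ℝ) = 0) := by
    intro h hh b hb
    refine ⟨Nat.cast_nonneg _, ?_, ?_⟩
    · rcases (Fb h b).eq_empty_or_nonempty with he | hne
      · rw [he, card_empty, Nat.cast_zero]; positivity
      · obtain ⟨_, hinj⟩ := hinj_of h b hne
        have h1 : ((Fb h b).image (fun p => p - Q * M * 1)).card = (Fb h b).card := by
          apply card_image_of_injOn
          intro p hp p' hp' e
          have e1 := hgt h b p hp 1 hh1
          have e2 := hgt h b p' hp' 1 hh1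
          simp only at e
          omega
        rw [← h1]
        apply hub b h hh hinj
        · intro x hx
          rw [mem_image] at hx
          obtain ⟨p, hp, rfl⟩ := hx
          exact hcls h b p hp 1 hh1
        · intro x hx i q hq hqd
          rw [mem_image] at hx
          obtain ⟨p, hp, rfl⟩ := hx
          have e1 := hgt h b p hp 1 hh1
          have e2 : p - Q * M * 1 + (Q * M * 1 + ext0 h i) = p + ext0 h i := by omega
          rw [e2] at hqd
          exact hprime _ (hrough h b p hp i).1 (hrough h b p hp i).2 q hq hqd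
    · intro hnb
      rw [Nat.cast_eq_zero, card_eq_zero, eq_empty_iff_forall_notMem]
      intro p hp
      apply hnb
      unfold cls3
      have hr := hrough h b p hp
      rw [hFm] at hp
      have hcop : ∀ i, (p + ext0 h i).Coprime Q := by
        intro i
        rw [Nat.Prime.coprime_iff_not_dvd (hr i).1]
        intro hd
        have := Nat.le_of_dvd (by omega) hd
        have := (hr i).2
        omega
      have hmod : ∀ t : ℕ, (p + t).Coprime Q → (b + t).Coprime Q := by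
        intro t ht
        have e1 : (p + t) ≡ (b + t) [MOD Q] := by
          apply Nat.ModEq.add_right
          rw [← hp.2.2]
          exact (Nat.mod_modEq p Q).symm
        have e2 := Nat.ModEq.gcd_eq e1
        unfold Nat.Coprime at ht ⊢
        rw [← e2]; exact ht
      rw [mem_filter, mem_range]
      refine ⟨hb, ?_, fun i => ?_⟩
      · have := hmod _ (hcop 0)
        rwa [ext0_zero, add_zero] at this
      · have := hmod _ (hcop i.succ)
        rwa [ext0_succ] at this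
  obtain ⟨G, hGs, hG1, hG2⟩ := good3 (box m K) Q (cls3 m Q) (fun h b => ((Fb h b).card : ℝ)) (C₁ * w) (δ₁ * w) Tot
    (by positivity) hR (fun h _ => filter_subset _ _) (hTot.trans hsum.le) (by positivity)
    (by
      refine le_trans ?_ hT2
      apply mul_le_mul_of_nonneg_left (sum_cls3 m Q K hQ hQK) (by positivity)) hTot0
  refine ⟨G, hGs, ?_, ?_⟩
  · refine hG2.trans ?_
    gcongr
    exact sum_cls3_sq m Q K hQ hQK
  · intro h hh
    obtain ⟨b, hb, hRb⟩ := hG1 h hh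
    obtain ⟨P, hP⟩ : ∃ P : Finset (ℕ × ℕ), P = (Fb h b ×ˢ Icc 1 h').image (fun q => (q.1 - Q * M * q.2, q.2)) := ⟨_, rfl⟩
    have hPc : P.card = (Fb h b).card * h' := by
      rw [hP, card_image_of_injOn, card_product, Nat.card_Icc]
      · rfl
      · rintro ⟨p, u⟩ hp ⟨p', u'⟩ hp' e
        rw [coe_product, Set.mem_prod, mem_coe, mem_coe, mem_Icc] at hp hp'
        simp only [Prod.mk.injEq] at e
        obtain ⟨e1, e2⟩ := e
        simp only at hp hp'
        subst e2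
        have e3 := hgt h b p hp.1 u hp.2.2
        have e4 := hgt h b p' hp'.1 u hp'.2.2
        exact Prod.ext (by simp only; omega) rfl
    have hPm : ∀ q ∈ P, q.1 ∈ cls y Y Q b ∧ q.2 ∈ Icc 1 h' ∧ q.1 + Q * M * q.2 ∈ Fb h b := by
      intro q hq
      rw [hP, mem_image] at hq
      obtain ⟨⟨p, u⟩, hpu, rfl⟩ := hq
      rw [mem_product, mem_Icc] at hpu
      simp only at hpu ⊢
      have e3 := hgt h b p hpu.1 u hpu.2.2
      refine ⟨hcls h b p hpu.1 u hpu.2.2, mem_Icc.2 hpu.2, ?_⟩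
      rw [Nat.sub_add_cancel (by omega)]
      exact hpu.1
    have hδw : 0 < δ₁ * w := by positivity
    have hne : (Fb h b).Nonempty := by
      rw [← card_pos]
      have : (0 : ℝ) < (Fb h b).card := lt_of_lt_of_le hδw hRb
      exact_mod_cast this
    obtain ⟨hbox, hinj⟩ := hinj_of h b hne
    obtain ⟨G', hG's, hG'c, hG'⟩ := hte b h hbox hinj P (by
      intro q hq
      obtain ⟨e1, e2, e3⟩ := hPm q hq
      refine ⟨e1, e2, fun i p hp hpd => ?_⟩
      have hr := hrough h b _ e3 i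
      rw [add_assoc] at hr
      exact hprime _ hr.1 hr.2 p hp hpd) (by
      rw [hPc]
      push_cast
      calc δ₁ * (h' * w) = (δ₁ * w) * h' := by ring
        _ ≤ ((Fb h b).card : ℝ) * h' := by gcongr)
    refine ⟨b, G', hG's, hG'c, fun x hx => ?_⟩
    obtain ⟨u, r, hu, hr, hj⟩ := hG' x hx
    refine ⟨u, r, hu, hr, fun j hjk => ?_⟩
    obtain ⟨_, e2, e3⟩ := hPm _ (hj j hjk)
    rw [hFm] at e3
    exact ⟨(mem_Icc.1 e2).2, e3.1, e3.2.1⟩

end Pool.Agent.Y880.RS.P3
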