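import Pool.Agent.Y880.RS.P3c
import Pool.Agent.Y880.RS.G5b

/-!
Progressions of primes with the same pattern of primes after each term: the choice of the parameters.
-/

set_option autoImplicit false

open Finset

namespace Pool.Agent.Y880.RS.P3

open Pool.Agent.Y880.RS.G5

theorem plog_ev (n : ℕ) (c : ℝ) : ∃ Z₀ : ℕ, ∀ Z : ℕ, Z₀ ≤ Z → c * Real.log Z ^ n ≤ Z := by
  have h1 : Filter.Tendsto (fun Z : ℕ => Real.log Z ^ n / Z) Filter.atTop (nhds 0) := by
    have := (Real.isLittleO_pow_log_id_atTop (n := n)).tendsto_div_nhds_zero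
    exact this.comp tendsto_natCast_atTop_atTop
  have h2 : ∀ᶠ Z : ℕ in Filter.atTop, Real.log Z ^ n / Z < 1 / (|c| + 1) :=
    h1.eventually_lt_const (by positivity)
  obtain ⟨Z₀, hZ₀⟩ := Filter.eventually_atTop.1 (h2.and (Filter.eventually_ge_atTop 1))
  refine ⟨Z₀, fun Z hZ => ?_⟩
  obtain ⟨h3, h4⟩ := hZ₀ Z hZ
  have hZ0 : (0 : ℝ) < Z := by exact_mod_cast h4
  have hlog : 0 ≤ Real.log Z ^ n := by
    apply pow_nonneg
    exact Real.log_nonneg (by exact_mod_cast h4)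
  rw [div_lt_div_iff₀ hZ0 (by positivity)] at h3
  calc c * Real.log Z ^ n ≤ (|c| + 1) * Real.log Z ^ n := by
        apply mul_le_mul_of_nonneg_right _ hlog
        have := le_abs_self c
        linarith
    _ ≤ Z := by linarith

/-- the square root -/
theorem zfacts2 (Z₀ : ℕ) : ∃ Y₀ : ℕ, ∀ Y : ℕ, Y₀ ≤ Y → Z₀ ≤ Nat.sqrt Y ∧
    16 ≤ Nat.sqrt Y ∧ Nat.sqrt Y ^ 2 ≤ Y ∧ Y ≤ Nat.sqrt Y ^ 3 := by
  refine ⟨(max Z₀ 16) ^ 2, fun Y hY => ?_⟩
  have h1 : max Z₀ 16 ≤ Nat.sqrt Y := by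
    rw [Nat.le_sqrt]
    calc _ = (max Z₀ 16) ^ 2 := by ring
      _ ≤ Y := hY
  obtain ⟨Z, hZ⟩ : ∃ Z, Z = Nat.sqrt Y := ⟨_, rfl⟩
  rw [← hZ] at h1 ⊢
  have h16 : 16 ≤ Z := (le_max_right _ _).trans h1
  refine ⟨(le_max_left _ _).trans h1, h16, ?_, ?_⟩
  · rw [pow_two, hZ]; exact Nat.sqrt_le _
  · have h2 : Y < (Z + 1) * (Z + 1) := by rw [hZ]; exact Nat.lt_succ_sqrt _
    calc Y ≤ (Z + 1) * (Z + 1) := h2.le
      _ ≤ (2 * Z) * (2 * Z) := Nat.mul_le_mul (by omega) (by omega)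
      _ = 4 * Z ^ 2 := by ring
      _ ≤ Z * Z ^ 2 := Nat.mul_le_mul_right _ (by omega)
      _ = _ := by ring

theorem sep_pat (m K Q M N' A₃ : ℕ) (s : ℝ) (hQ : 1 ≤ Q) (hM : K < M) (h : Fin m → ℕ) (hh : h ∈ box m K)
    (hinj : Function.Injective h) (hlog : Real.log ((Q * M * N' + K : ℕ) : ℝ) ≤ A₃ * s) :
    Sep2 (m + 1) A₃ Q N' s (fun u i => Q * M * u + ext0 h i) := by
  intro u hu u' hu' i i' hne
  rw [mem_Icc] at hu hu'
  have hDM : M ≤ Q * M := Nat.le_mul_of_pos_left M hQ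
  obtain ⟨D, hD⟩ : ∃ D, D = Q * M := ⟨_, rfl⟩
  have ha := ext0_le hh i
  have ha' := ext0_le hh i'
  have hTne : Q * M * u + ext0 h i ≠ Q * M * u' + ext0 h i' := by
    rw [← hD] at hDM ⊢
    intro he
    have huu : u = u' := by
      rcases lt_trichotomy u u' with h1 | h1 | h1
      · have h2 : D * (u + 1) ≤ D * u' := Nat.mul_le_mul_left _ h1
        rw [mul_add] at h2
        omega
      · exact h1
      · have h2 : D * (u' + 1) ≤ D * u := Nat.mul_le_mul_left _ h1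
        rw [mul_add] at h2
        omega
    subst huu
    apply hne
    have h3 : ext0 h i = ext0 h i' := by omega
    rw [ext0_inj hh hinj h3]
  refine ⟨hTne, (((Q * M * u + ext0 h i : ℕ) : ℤ) - ((Q * M * u' + ext0 h i' : ℕ) : ℤ)).natAbs, ?_, ?_, ?_⟩
  · rw [Int.natAbs_ne_zero, sub_ne_zero]
    exact_mod_cast hTne
  · refine le_trans ?_ hlog
    apply Real.log_le_log
    · have : 0 < (((Q * M * u + ext0 h i : ℕ) : ℤ) - ((Q * M * u' + ext0 h i' : ℕ) : ℤ)).natAbs := by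
        rw [Int.natAbs_pos, sub_ne_zero]
        exact_mod_cast hTne
      exact_mod_cast this
    · have h1 : Q * M * u ≤ Q * M * N' := Nat.mul_le_mul_left _ hu.2
      have h2 : Q * M * u' ≤ Q * M * N' := Nat.mul_le_mul_left _ hu'.2
      have : (((Q * M * u + ext0 h i : ℕ) : ℤ) - ((Q * M * u' + ext0 h i' : ℕ) : ℤ)).natAbs ≤
          Q * M * N' + K := by
        omega
      exact_mod_cast this
  · intro p _ _ hpd
    exact Int.natCast_dvd.1 hpd

/-- the differences of a single pattern -/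
theorem single_pat (m K t A₃ : ℕ) (s : ℝ) (h : Fin m → ℕ) (hh : h ∈ box m K) (hK : 1 ≤ K)
    (hinj : Function.Injective h) (hlog : ((m : ℝ) + 1) ^ 2 * Real.log K ≤ A₃ * s) :
    ∃ Δ : ℕ, Δ ≠ 0 ∧ Real.log Δ ≤ A₃ * s ∧ ∀ i j : Fin (m + 1), i ≠ j → ∀ p : ℕ,
      (p : ℤ) ∣ ((t + ext0 h i : ℕ) : ℤ) - ((t + ext0 h j : ℕ) : ℤ) → p ∣ Δ := by
  classical
  obtain ⟨D, hD⟩ : ∃ D : Fin (m + 1) × Fin (m + 1) → ℕ, D = fun q => ((ext0 h q.1 : ℤ) - (ext0 h q.2 : ℤ)).natAbs :=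
    ⟨_, rfl⟩
  have hDne : ∀ q ∈ (univ : Finset (Fin (m + 1))).offDiag, D q ≠ 0 := by
    intro q hq
    rw [mem_offDiag] at hq
    rw [hD]
    simp only
    rw [Int.natAbs_ne_zero, sub_ne_zero]
    intro e
    apply hq.2.2
    apply ext0_inj hh hinj
    exact_mod_cast e
  refine ⟨∏ q ∈ (univ : Finset (Fin (m + 1))).offDiag, D q, prod_ne_zero_iff.2 hDne, ?_, ?_⟩
  · refine le_trans ?_ hlog
    rw [Nat.cast_prod, Real.log_prod (fun q hq => by exact_mod_cast hDne q hq)]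
    have hlK : 0 ≤ Real.log K := Real.log_nonneg (by exact_mod_cast hK)
    calc ∑ q ∈ (univ : Finset (Fin (m + 1))).offDiag, Real.log (D q : ℝ) ≤
        ∑ _q ∈ (univ : Finset (Fin (m + 1))).offDiag, Real.log K := by
          apply sum_le_sum
          intro q hq
          have h1 := hDne q hq
          apply Real.log_le_log
          · exact_mod_cast Nat.pos_of_ne_zero h1
          · have h2 := ext0_le hh q.1
            have h3 := ext0_le hh q.2
            have : D q ≤ K := by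
              rw [hD]; simp only; omega
            exact_mod_cast this
      _ ≤ _ := by
          rw [sum_const, nsmul_eq_mul]
          apply mul_le_mul_of_nonneg_right _ hlK
          rw [offDiag_card, card_univ, Fintype.card_fin]
          have : (m + 1) * (m + 1) - (m + 1) ≤ (m + 1) ^ 2 := by
            rw [pow_two]; exact Nat.sub_le _ _
          exact_mod_cast this
  · intro i j hij p hp
    have h1 : p ∣ D (i, j) := by
      rw [hD]
      simp only
      apply Int.natCast_dvd.1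
      have e : ((t + ext0 h i : ℕ) : ℤ) - ((t + ext0 h j : ℕ) : ℤ) = (ext0 h i : ℤ) - (ext0 h j : ℤ) := by
        push_cast; ring
      rwa [e] at hp
    exact h1.trans (dvd_prod_of_mem D (by rw [mem_offDiag]; exact ⟨mem_univ _, mem_univ _, hij⟩))

end Pool.Agent.Y880.RS.P3
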