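import Pool.Agent.Y880.RS.P3d

/-!
Progressions of primes with the same pattern of primes after each term.
-/

set_option autoImplicit false

open Finset

namespace Pool.Agent.Y880.RS.P3

open Pool.Agent.Y880.RS.G5

/-- the algebra of the final count -/
theorem fin_alg (m : ℕ) (Y L Q φ K C₁ C₂ C' δ g Wm : ℝ) (hY : 0 < Y) (hL : 0 < L) (hQ : 0 < Q) (hφ : 0 < φ)
    (hK : 0 < K) (hC₁ : 0 < C₁) (hC₂ : 0 < C₂) (hC' : 0 < C') (hKL : K ≤ C' * L) (hg : 0 ≤ g)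
    (hW : Wm * Q ^ m ≤ C₂ * φ ^ (2 * m + 2))
    (h : (δ / 6 * (Y / L) / 2) ^ 2 ≤ (C₁ * (Y / Q * (Q / (φ * L)) ^ (m + 1))) ^ 2 * (g * ((2 * K / Q) ^ m * Wm))) :
    (δ / 12) ^ 2 / (C₁ ^ 2 * C₂ * (2 * C') ^ m) * L ^ m ≤ g := by
  have h1 : (2 * K / Q) ^ m * Wm ≤ (2 * C' * L) ^ m * (C₂ * φ ^ (2 * m + 2)) / Q ^ (2 * m) := by
    have h2 : Wm ≤ C₂ * φ ^ (2 * m + 2) / Q ^ m := by
      rw [le_div_iff₀ (by positivity)]; exact hW
    calc (2 * K / Q) ^ m * Wm ≤ (2 * K / Q) ^ m * (C₂ * φ ^ (2 * m + 2) / Q ^ m) := by gcongr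
      _ = (2 * K) ^ m * (C₂ * φ ^ (2 * m + 2)) / Q ^ (2 * m) := by
          rw [div_pow]
          have : Q ^ (2 * m) = Q ^ m * Q ^ m := by rw [← pow_add]; congr 1; ring
          rw [this]
          field_simp
      _ ≤ _ := by
          have : (2 * K) ^ m ≤ (2 * C' * L) ^ m := by
            apply pow_le_pow_left₀ (by positivity)
            calc 2 * K ≤ 2 * (C' * L) := by gcongr
              _ = _ := by ring
          gcongr
  have h2 : (δ / 6 * (Y / L) / 2) ^ 2 ≤ (C₁ * (Y / Q * (Q / (φ * L)) ^ (m + 1))) ^ 2 *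
      (g * ((2 * C' * L) ^ m * (C₂ * φ ^ (2 * m + 2)) / Q ^ (2 * m))) := by
    refine h.trans ?_
    gcongr
  have h3 : (C₁ * (Y / Q * (Q / (φ * L)) ^ (m + 1))) ^ 2 *
      (g * ((2 * C' * L) ^ m * (C₂ * φ ^ (2 * m + 2)) / Q ^ (2 * m))) =
      (Y / L) ^ 2 * (C₁ ^ 2 * C₂ * (2 * C') ^ m) / L ^ m * g := by
    have e1 : Q ^ (2 * m) = Q ^ m * Q ^ m := by rw [← pow_add]; congr 1; ring
    have e2 : φ ^ (2 * m + 2) = φ ^ (m + 1) * φ ^ (m + 1) := by rw [← pow_add]; congr 1; ring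
    rw [e1, e2, div_pow Q, mul_pow φ L, mul_pow (2 * C') L]
    field_simp
    ring
  rw [h3] at h2
  have h4 : (δ / 6 * (Y / L) / 2) ^ 2 = (Y / L) ^ 2 * (δ / 12) ^ 2 := by ring
  rw [h4, mul_div_assoc, mul_assoc] at h2
  have h5 : (δ / 12) ^ 2 ≤ (C₁ ^ 2 * C₂ * (2 * C') ^ m) / L ^ m * g :=
    le_of_mul_le_mul_left h2 (by positivity)
  rw [div_mul_eq_mul_div, div_le_iff₀ (by positivity)]
  rw [div_mul_eq_mul_div, le_div_iff₀ (by positivity)] at h5
  linarith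

theorem bad_alg (m : ℕ) (Y L Q φ K C' δ : ℝ) (hY : 0 < Y) (hL : 0 < L) (hQ : 0 < Q) (hφ : 0 < φ)
    (hK : 0 < K) (hC' : 0 < C') (hKL : K ≤ C' * L) (hδ : 0 < δ) :
    δ / (12 * (2 * C') ^ m) * (Y / Q * (Q / (φ * L)) ^ (m + 1)) * (φ * (2 * K / Q * φ) ^ m) ≤
      δ / 6 * (Y / L) / 2 := by
  have h1 : (2 * K / Q * φ) ^ m ≤ (2 * C' * L / Q * φ) ^ m := by
    apply pow_le_pow_left₀ (by positivity)
    have : 2 * K ≤ 2 * C' * L := by linarith
    gcongr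
  calc _ ≤ δ / (12 * (2 * C') ^ m) * (Y / Q * (Q / (φ * L)) ^ (m + 1)) * (φ * (2 * C' * L / Q * φ) ^ m) := by gcongr
    _ = δ / 6 * (Y / L) / 2 := by
        have e1 : (2 * C' * L / Q * φ) ^ m = (2 * C') ^ m * L ^ m * φ ^ m / Q ^ m := by
          rw [mul_pow, div_pow, mul_pow]; ring
        rw [e1, div_pow Q, mul_pow φ L]
        field_simp
        ring

theorem pat_main (k m A : ℕ) (hk : 2 ≤ k) (hA : 1 ≤ A) (δ C₀ : ℝ) (hδ : 0 < δ) (hC₀ : 1 ≤ C₀) :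
    ∃ B : ℕ, ∃ c : ℝ, 0 < c ∧ ∃ Y₀ : ℕ, ∀ y Y K : ℕ, Y₀ ≤ Y → y + Y ≤ Y ^ A → Real.log Y ≤ K →
    (K : ℝ) ≤ C₀ * Real.log Y → ∀ (S : Finset ℕ) (H : ℕ → Fin m → ℕ),
    (∀ p ∈ S, p.Prime ∧ y < p ∧ p ≤ y + Y ∧ H p ∈ box m K ∧ Function.Injective (H p) ∧ ∀ i, (p + H p i).Prime) →
    δ * (Y / Real.log Y) ≤ S.card →
    ∃ G ⊆ box m K, c * Real.log Y ^ m ≤ G.card ∧ ∀ h ∈ G, ∃ W ⊆ S, Y / Real.log Y ^ B ≤ W.card ∧
      ∀ a ∈ W, ∃ d : ℕ, 1 ≤ d ∧ (d : ℝ) ≤ Real.log Y ^ B ∧ ∀ j < k, a + j * d ∈ S ∧ H (a + j * d) = h := by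
  classical
  obtain ⟨C₂, hC₂, hsec⟩ := second3 m
  obtain ⟨C₁, hC₁, hub0⟩ := ub3 (m + 1) (3 * A + 1)
  obtain ⟨C', hC'⟩ : ∃ C', C' = 3 * C₀ := ⟨_, rfl⟩
  have hC'3 : 3 ≤ C' := by linarith
  obtain ⟨δ₁, hδ₁⟩ : ∃ δ₁, δ₁ = δ / (12 * (2 * C') ^ m) := ⟨_, rfl⟩
  have hδ₁0 : 0 < δ₁ := by rw [hδ₁]; positivity
  obtain ⟨B, c₂, hc₂, hte0⟩ := te3 k (m + 1) (3 * A + 1) hk (δ₁ / 3) (by positivity)
  obtain ⟨A₃, hA₃⟩ : ∃ A₃, A₃ = 2 * (B + 6) + 4 * (m + 1) ^ 2 := ⟨_, rfl⟩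
  obtain ⟨s₁, hub1⟩ := hub0 A₃
  obtain ⟨Z₁, hub⟩ := hub1 2
  obtain ⟨s₂, hte1⟩ := hte0 A₃
  obtain ⟨Z₂, hte⟩ := hte1 (B + 1)
  obtain ⟨Z₃, hZ₃⟩ := log_ev (max (max (16 + C') (Real.exp (2 * s₁))) (max (Real.exp (2 * s₂)) (max (1 / c₂) A₃)))
  obtain ⟨Z₄, hZ₄⟩ := plog_ev (B + 6) (max 1 (18 / δ))
  obtain ⟨Y₀, hY₀⟩ := zfacts2 (max (max Z₁ Z₂) (max Z₃ Z₄))
  refine ⟨B + 6, (δ / 12) ^ 2 / (C₁ ^ 2 * C₂ * (2 * C') ^ m) / 3 ^ m, by positivity, Y₀, ?_⟩
  intro y Y K hY hyY hKl hKC S H hS hSc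
  obtain ⟨hZall, h16, hZ2, hZ3⟩ := hY₀ Y hY
  obtain ⟨Z, hZ⟩ : ∃ Z, Z = Nat.sqrt Y := ⟨_, rfl⟩
  rw [← hZ] at hZall h16 hZ2 hZ3
  have hZZ1 : Z₁ ≤ Z := ((le_max_left _ _).trans (le_max_left _ _)).trans hZall
  have hZZ2 : Z₂ ≤ Z := ((le_max_right _ _).trans (le_max_left _ _)).trans hZall
  have hZZ3 : Z₃ ≤ Z := ((le_max_left _ _).trans (le_max_right _ _)).trans hZall
  have hZZ4 : Z₄ ≤ Z := ((le_max_right _ _).trans (le_max_right _ _)).trans hZall
  obtain ⟨L, hL⟩ : ∃ L, L = Real.log Z := ⟨_, rfl⟩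
  obtain ⟨l, hl⟩ : ∃ l, l = Real.log Y := ⟨_, rfl⟩
  have hLs := hZ₃ Z hZZ3
  have hLp := hZ₄ Z hZZ4
  rw [← hL] at hLs hLp
  rw [← hl] at hKl hKC hSc ⊢
  have hL1 : 16 + C' ≤ L := ((le_max_left _ _).trans (le_max_left _ _)).trans hLs
  have hL2 : Real.exp (2 * s₁) ≤ L := ((le_max_right _ _).trans (le_max_left _ _)).trans hLs
  have hL3 : Real.exp (2 * s₂) ≤ L := ((le_max_left _ _).trans (le_max_right _ _)).trans hLs
  have hL4 : 1 / c₂ ≤ L := ((le_max_left _ _).trans ((le_max_right _ _).trans (le_max_right _ _))).trans hLs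
  have hL5 : (A₃ : ℝ) ≤ L := ((le_max_right _ _).trans ((le_max_right _ _).trans (le_max_right _ _))).trans hLs
  have hZ0 : (0 : ℝ) < Z := by
    have : 0 < Z := by omega
    exact_mod_cast this
  have hY1 : 1 ≤ Y := le_trans (Nat.one_le_pow _ _ (by omega)) hZ2
  have hY0 : (0 : ℝ) < Y := by exact_mod_cast hY1
  have hL0 : 0 < L := by linarith
  have hL1' : 1 ≤ L := by linarith
  have hLl : 2 * L ≤ l := by
    have h1 : Real.log ((Z : ℝ) ^ 2) ≤ Real.log Y := Real.log_le_log (by positivity) (by exact_mod_cast hZ2)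
    rw [Real.log_pow, ← hL, ← hl] at h1
    exact_mod_cast h1
  have hlL : l ≤ 3 * L := by
    have h1 : Real.log Y ≤ Real.log ((Z : ℝ) ^ 3) := Real.log_le_log hY0 (by exact_mod_cast hZ3)
    rw [Real.log_pow, ← hL, ← hl] at h1
    exact_mod_cast h1
  have hl0 : 0 < l := by linarith
  have hKL : (K : ℝ) ≤ C' * L := by
    calc (K : ℝ) ≤ C₀ * l := hKC
      _ ≤ C₀ * (3 * L) := by gcongr
      _ = _ := by rw [hC']; ring
  -- `s` and `Q`
  obtain ⟨s, hs⟩ : ∃ s, s = 1 / 2 * Real.log L := ⟨_, rfl⟩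
  have hs1 : s₁ ≤ s := by
    have := (Real.le_log_iff_exp_le hL0).2 hL2
    rw [hs]; linarith
  have hs2 : s₂ ≤ s := by
    have := (Real.le_log_iff_exp_le hL0).2 hL3
    rw [hs]; linarith
  have hlogL : 0 ≤ Real.log L := Real.log_nonneg hL1'
  have hs0 : 0 ≤ s := by rw [hs]; positivity
  obtain ⟨Q, hQd⟩ : ∃ Q, Q = primorial ⌊s⌋₊ := ⟨_, rfl⟩
  have hQ1 : 1 ≤ Q := by rw [hQd]; exact primorial_pos _
  have hQ0 : (0 : ℝ) < Q := by exact_mod_cast hQ1
  have hQs : ∀ p : ℕ, p.Prime → (p : ℝ) ≤ s → p ∣ Q := by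
    rw [hQd]; exact prim_dvd s
  have hQL : (Q : ℝ) ≤ L := by
    have h1 : (Q : ℝ) ≤ Real.exp (7 / 10 * 1 * Real.log L) := by
      rw [hQd]; exact prim_exp 1 (Real.log L) s hs hs0
    refine h1.trans ?_
    calc Real.exp (7 / 10 * 1 * Real.log L) ≤ Real.exp (Real.log L) := by
          apply Real.exp_le_exp.2; linarith
      _ = L := Real.exp_log hL0
  have hQK : Q ≤ K := by
    have : (Q : ℝ) ≤ K := by linarith
    exact_mod_cast this
  have hK1 : 1 ≤ K := hQ1.trans hQK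
  -- `N'`, `h'`, `M`
  obtain ⟨m₁, hm₁⟩ : ∃ m₁, m₁ = max ⌈L ^ B⌉₊ (2 * 0 + 5) := ⟨_, rfl⟩
  have hm5 : 5 ≤ m₁ := by rw [hm₁]; exact le_max_right _ _
  obtain ⟨N', hN'p, hN'1, hN'2⟩ := Nat.exists_prime_lt_and_le_two_mul m₁ (by omega)
  have hLB : L ^ B ≤ N' := by
    have h1 : L ^ B ≤ m₁ := (Nat.le_ceil _).trans (by rw [hm₁]; exact_mod_cast le_max_left _ _)
    refine h1.trans ?_
    exact_mod_cast hN'1.le
  have hN'L : (N' : ℝ) ≤ L ^ (B + 1) := N'_le B 0 m₁ N' L hm₁ (by push_cast; linarith) hN'2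
  obtain ⟨h', hh'⟩ : ∃ h', h' = (N' - 1) / 2 := ⟨_, rfl⟩
  have h2h : 2 * h' < N' := by omega
  have h3h : N' ≤ 3 * h' := by omega
  have hh1 : 1 ≤ h' := by omega
  have hh0 : (0 : ℝ) < h' := by exact_mod_cast hh1
  obtain ⟨M, hM⟩ : ∃ M, M = K + 1 := ⟨_, rfl⟩
  have hML : (M : ℝ) ≤ L ^ 2 := by
    rw [hM]; push_cast
    calc (K : ℝ) + 1 ≤ C' * L + 1 * L := by linarith
      _ = (C' + 1) * L := by ring
      _ ≤ L * L := mul_le_mul_of_nonneg_right (by linarith) hL0.le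
      _ = _ := by ring
  have hKL2 : (K : ℝ) ≤ L ^ 2 := by
    refine le_trans ?_ hML
    rw [hM]; push_cast; linarith
  have hDN : ((Q * M * N' : ℕ) : ℝ) ≤ L ^ (B + 4) := by
    push_cast
    calc (Q : ℝ) * M * N' ≤ L * L ^ 2 * L ^ (B + 1) := by gcongr
      _ = _ := by ring
  have hDNK : ((Q * M * N' + K : ℕ) : ℝ) ≤ L ^ (B + 5) := by
    push_cast at hDN ⊢
    have h1 : L ^ 2 ≤ L ^ (B + 4) := pow_le_pow_right₀ hL1' (by omega)
    calc (Q : ℝ) * M * N' + K ≤ L ^ (B + 4) + L ^ (B + 4) := add_le_add hDN (hKL2.trans h1)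
      _ = 2 * L ^ (B + 4) := by ring
      _ ≤ L * L ^ (B + 4) := by gcongr; linarith
      _ = _ := by ring
  have hLBZ : L ^ (B + 6) ≤ Z := by
    refine le_trans ?_ hLp
    have : (1 : ℝ) ≤ max 1 (18 / δ) := le_max_left _ _
    exact le_mul_of_one_le_left (by positivity) this
  have hLBZ2 : 18 / δ * L ^ (B + 6) ≤ Z := by
    refine le_trans ?_ hLp
    have : 18 / δ ≤ max 1 (18 / δ) := le_max_right _ _
    gcongr
  have hDNKZ : Q * M * N' + K ≤ Z := by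
    have h1 : L ^ (B + 5) ≤ L ^ (B + 6) := pow_le_pow_right₀ hL1' (by omega)
    have : ((Q * M * N' + K : ℕ) : ℝ) ≤ Z := by linarith
    exact_mod_cast this
  have hQZ : Q ≤ Z := by
    have h1 : Q ≤ Q * M * N' := by
      rw [mul_assoc]
      exact Nat.le_mul_of_pos_right _ (Nat.mul_pos (by omega) (by omega))
    omega
  have hlogDNK : Real.log ((Q * M * N' + K : ℕ) : ℝ) ≤ A₃ * s := by
    have h1 : Real.log ((Q * M * N' + K : ℕ) : ℝ) ≤ Real.log (L ^ (B + 5)) := by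
      apply Real.log_le_log _ hDNK
      have : 0 < Q * M * N' + K := by omega
      exact_mod_cast this
    rw [Real.log_pow] at h1
    refine h1.trans ?_
    have h2 : (A₃ : ℝ) * s = ((B : ℝ) + 6) * Real.log L + 2 * ((m : ℝ) + 1) ^ 2 * Real.log L := by
      rw [hA₃, hs]
      push_cast
      ring
    have h3 : 0 ≤ 2 * ((m : ℝ) + 1) ^ 2 * Real.log L := by positivity
    rw [h2]
    push_cast
    have h4 : ((B : ℝ) + 5) * Real.log L ≤ ((B : ℝ) + 6) * Real.log L :=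
      mul_le_mul_of_nonneg_right (by linarith) hlogL
    linarith
  have hlogK : ((m : ℝ) + 1) ^ 2 * Real.log K ≤ A₃ * s := by
    have h1 : Real.log K ≤ 2 * Real.log L := by
      have : Real.log K ≤ Real.log (L ^ 2) := by
        apply Real.log_le_log _ hKL2
        exact_mod_cast hK1
      rwa [Real.log_pow] at this
    calc ((m : ℝ) + 1) ^ 2 * Real.log K ≤ ((m : ℝ) + 1) ^ 2 * (2 * Real.log L) := by gcongr
      _ ≤ A₃ * s := by
        have h2 : (A₃ : ℝ) * s = ((B : ℝ) + 6) * Real.log L + 2 * ((m : ℝ) + 1) ^ 2 * Real.log L := by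
          rw [hA₃, hs]
          push_cast
          ring
        have : 0 ≤ ((B : ℝ) + 6) * Real.log L := by positivity
        rw [h2]
        have e : ((m : ℝ) + 1) ^ 2 * (2 * Real.log L) = 2 * ((m : ℝ) + 1) ^ 2 * Real.log L := by ring
        rw [e]
        linarith
  have hA₃s : (A₃ : ℝ) * s ≤ L ^ 2 := by
    have h1 : s ≤ L := by
      rw [hs]
      have := Real.log_le_sub_one_of_pos hL0
      linarith
    calc (A₃ : ℝ) * s ≤ L * L := mul_le_mul hL5 h1 hs0 hL0.le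
      _ = _ := by ring
  have hZQY : Z * Q ≤ Y := (Nat.mul_le_mul_left Z hQZ).trans (by rw [← pow_two]; exact hZ2)
  have hYA : y + Y ≤ Z ^ (3 * A) := by
    calc y + Y ≤ Y ^ A := hyY
      _ ≤ (Z ^ 3) ^ A := Nat.pow_le_pow_left hZ3 A
      _ = _ := by rw [← pow_mul]
  have hXA : ∀ t : ℕ, t ≤ Z → y + Y + t ≤ Z ^ (3 * A + 1) := by
    intro t ht
    have h1 : Z ≤ Z ^ (3 * A) := Nat.le_self_pow (by omega) Z
    calc y + Y + t ≤ Z ^ (3 * A) + Z ^ (3 * A) := by omega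
      _ = 2 * Z ^ (3 * A) := by ring
      _ ≤ Z * Z ^ (3 * A) := Nat.mul_le_mul_right _ (by omega)
      _ = _ := by ring
  have hQA : Q ≤ Z ^ (3 * A + 1) := hQZ.trans (Nat.le_self_pow (by omega) Z)
  have hφ0 : (0 : ℝ) < Q.totient := by exact_mod_cast Nat.totient_pos.2 hQ1
  obtain ⟨w, hw⟩ : ∃ w, w = (Y : ℝ) / Q * ((Q : ℝ) / (Q.totient * L)) ^ (m + 1) := ⟨_, rfl⟩
  have hw0 : 0 < w := by rw [hw]; positivity
  have hMK : K < M := by omega
  have hT1 : ∀ u ∈ Icc 1 N', ∀ h ∈ box m K, ∀ i, 1 ≤ Q * M * u + ext0 h i ∧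
      y + Y + (Q * M * u + ext0 h i) ≤ Z ^ (3 * A + 1) := by
    intro u hu h hh i
    rw [mem_Icc] at hu
    have e1 := ext0_le hh i
    have e2 : Q * M * u ≤ Q * M * N' := Nat.mul_le_mul_left _ hu.2
    have e3 : 1 ≤ Q * M * u := Nat.mul_pos (Nat.mul_pos (by omega) (by omega)) (by omega)
    exact ⟨by omega, hXA _ (by omega)⟩
  -- the primes
  obtain ⟨S₁, hS₁⟩ : ∃ S₁, S₁ = S.filter (fun p => y + Q * M * N' < p ∧ Z < p) := ⟨_, rfl⟩
  have hS₁c : δ / 6 * (Y / L) ≤ S₁.card := by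
    have h1 : S.card ≤ S₁.card + 3 * Z := by
      have h2 : S ⊆ S₁ ∪ (Ioc y (y + Q * M * N') ∪ Icc 1 Z) := by
        intro p hp
        have h3 := hS p hp
        have h4 := h3.1.one_lt
        rw [mem_union, mem_union, hS₁, mem_filter, mem_Ioc, mem_Icc]
        by_cases h5 : y + Q * M * N' < p ∧ Z < p
        · left; exact ⟨hp, h5⟩
        · right; omega
      calc S.card ≤ _ := card_le_card h2
        _ ≤ S₁.card + ((Ioc y (y + Q * M * N')).card + (Icc 1 Z).card) := by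
            refine (card_union_le _ _).trans ?_
            have := card_union_le (Ioc y (y + Q * M * N')) (Icc 1 Z)
            omega
        _ ≤ _ := by rw [Nat.card_Ioc, Nat.card_Icc]; omega
    have h2 : (S.card : ℝ) ≤ S₁.card + 3 * Z := by exact_mod_cast h1
    have h3 : 3 * (Z : ℝ) ≤ δ / 6 * (Y / L) := by
      have h4 : (Z : ℝ) ^ 2 ≤ Y := by exact_mod_cast hZ2
      have h5 : 18 * L ≤ δ * Z := by
        have h6 : L ≤ L ^ (B + 6) := le_self_pow₀ hL1' (by omega)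
        have h7 : 18 / δ * L ≤ Z := by
          refine le_trans ?_ hLBZ2
          gcongr
        rw [div_mul_eq_mul_div, div_le_iff₀ hδ] at h7
        linarith
      rw [← mul_div_assoc, le_div_iff₀ hL0]
      calc 3 * (Z : ℝ) * L = Z * (18 * L) / 6 := by ring
        _ ≤ Z * (δ * Z) / 6 := by gcongr
        _ = δ / 6 * Z ^ 2 := by ring
        _ ≤ δ / 6 * Y := by gcongr
    have h4 : δ / 3 * (Y / L) ≤ δ * (Y / l) := by
      have : Y / (3 * L) ≤ Y / l := by gcongr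
      calc δ / 3 * (Y / L) = δ * (Y / (3 * L)) := by field_simp
        _ ≤ _ := by gcongr
    linarith
  have hS₁m : ∀ p ∈ S₁, p ∈ S ∧ y + Q * M * N' < p ∧ Z < p := by
    intro p hp
    rw [hS₁, mem_filter] at hp
    exact hp
  have hKr : (0 : ℝ) < K := by exact_mod_cast hK1
  obtain ⟨G, hGs, hG1, hG2⟩ := pat_core m k Q K M N' h' y Y Z C₁ c₂ δ₁ w (δ / 6 * (Y / L)) hQ1 hQK hQZ hC₁ hw0 hδ₁0
    hh1 (by omega)
    (by
      intro b h hh hinj P hP hPr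
      obtain ⟨Δ, hΔ, hΔs, hΔp⟩ := single_pat m K (Q * M * 1) A₃ s h hh hK1 hinj hlogK
      have h1 := hub Z Q Δ s hZZ1 hQ1 hQA (Nat.pos_of_ne_zero hΔ) (by rw [← hL]; exact hΔs.trans hA₃s) hs1 hQs y Y b
        (fun i => Q * M * 1 + ext0 h i) Δ hZQY (fun i => (hT1 1 (mem_Icc.2 ⟨le_rfl, by omega⟩) h hh i).1)
        hΔ hΔs (fun i j hij p _ _ hpd => ⟨hΔp i j hij p hpd, Or.inr (hΔp i j hij p hpd)⟩) P hP hPr
      rw [← hL] at h1
      rw [hw]
      calc (P.card : ℝ) ≤ _ := h1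
        _ = _ := by ring)
    (by
      intro b h hh hinj P hP hPc
      have h1 := hte Z Q N' s hZZ2 hQ1 hQA hs2 hQs hN'p (by rw [← hL]; exact hLB) (by rw [← hL]; exact hN'L)
        y Y b (fun u i => Q * M * u + ext0 h i) hZQY (fun u hu i => hT1 u hu h hh i)
        (sep_pat m K Q M N' A₃ s hQ1 hMK h hh hinj hlogDNK) h' h2h P hP
        (by
          refine le_trans ?_ hPc
          rw [← hL]
          have h2 : δ₁ / 3 * ((Y : ℝ) / Q) * N' * ((Q : ℝ) / (Q.totient * L)) ^ (m + 1) = δ₁ / 3 * N' * w := by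
            rw [hw]; ring
          rw [h2]
          have h3 : (N' : ℝ) ≤ 3 * h' := by exact_mod_cast h3h
          calc δ₁ / 3 * N' * w ≤ δ₁ / 3 * (3 * h') * w := by gcongr
            _ = _ := by ring)
      exact h1)
    S₁ H (by
      intro p hp
      obtain ⟨e1, e2, e3⟩ := hS₁m p hp
      obtain ⟨f1, f2, f3, f4, f5, f6⟩ := hS p e1
      exact ⟨f1, e3, e2, f3, f4, f5, f6⟩) hS₁c (by positivity)
    (by
      rw [hδ₁, hw]
      exact bad_alg m Y L Q Q.totient K C' δ hY0 hL0 hQ0 hφ0 hKr (by linarith) hKL hδ)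
  refine ⟨G, hGs, ?_, ?_⟩
  · rw [hw] at hG1
    have h1 := fin_alg m Y L Q Q.totient K C₁ C₂ C' δ G.card (Wt m (ZMod Q)) hY0 hL0 hQ0 hφ0 hKr hC₁ hC₂
      (by linarith) hKL (Nat.cast_nonneg _) (by rw [hQd]; exact hsec _) hG1
    refine le_trans ?_ h1
    obtain ⟨c, hc⟩ : ∃ c, c = (δ / 12) ^ 2 / (C₁ ^ 2 * C₂ * (2 * C') ^ m) := ⟨_, rfl⟩
    have hc0 : 0 ≤ c := by rw [hc]; positivity
    rw [← hc]
    have h3 : l ^ m ≤ (3 * L) ^ m := pow_le_pow_left₀ hl0.le hlL m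
    calc c / 3 ^ m * l ^ m ≤ c / 3 ^ m * (3 * L) ^ m := by gcongr
      _ = c * L ^ m := by rw [mul_pow]; field_simp
  · intro h hh
    obtain ⟨b, G', hG's, hG'c, hG'⟩ := hG2 h hh
    choose! u r hu hr hj using hG'
    have hQM : 0 < Q * M := Nat.mul_pos (by omega) (by omega)
    refine ⟨G'.image (fun x => x + Q * M * u x), ?_, ?_, ?_⟩
    · intro a ha
      rw [mem_image] at ha
      obtain ⟨x, hx, rfl⟩ := ha
      have := hj x hx 0 (by omega)
      rw [zero_mul, add_zero] at this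
      exact (hS₁m _ this.2.1).1
    · have h1 : G'.card ≤ N' * (G'.image (fun x => x + Q * M * u x)).card := by
        apply card_le_mul_card_image
        intro a ha
        have h2 : ((G'.filter (fun x => x + Q * M * u x = a)).image u).card =
            (G'.filter (fun x => x + Q * M * u x = a)).card := by
          apply card_image_of_injOn
          intro x hx x' hx' e
          rw [mem_coe, mem_filter] at hx hx'
          have e1 := hx.2
          have e2 := hx'.2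
          rw [e] at e1
          omega
        rw [← h2]
        have h3 : (G'.filter (fun x => x + Q * M * u x = a)).image u ⊆ Icc 1 N' := by
          intro v hv
          rw [mem_image] at hv
          obtain ⟨x, hx, rfl⟩ := hv
          rw [mem_filter] at hx
          have h4 := (hj x hx.1 0 (by omega)).1
          rw [mem_Icc]
          have := hu x hx.1
          omega
        calc _ ≤ (Icc 1 N').card := card_le_card h3
          _ = N' := by rw [Nat.card_Icc]; omega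
      have h2 : (G'.card : ℝ) ≤ N' * (G'.image (fun x => x + Q * M * u x)).card := by exact_mod_cast h1
      have h3 : c₂ * ((Y : ℝ) / Q) ≤ L ^ (B + 1) * (G'.image (fun x => x + Q * M * u x)).card := by
        calc _ ≤ (G'.card : ℝ) := hG'c
          _ ≤ _ := h2
          _ ≤ _ := by gcongr
      have h4 : (Y : ℝ) ≤ L ^ (B + 3) * (G'.image (fun x => x + Q * M * u x)).card := by
        have h5 : 1 ≤ c₂ * L := by
          rw [div_le_iff₀ hc₂] at hL4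
          linarith
        have h6 : (Y : ℝ) ≤ c₂ * L * (Y / Q) * Q := by
          rw [mul_assoc (c₂ * L), div_mul_cancel₀ _ hQ0.ne']
          exact le_mul_of_one_le_left hY0.le h5
        calc (Y : ℝ) ≤ c₂ * L * (Y / Q) * Q := h6
          _ = L * Q * (c₂ * (Y / Q)) := by ring
          _ ≤ L * L * (L ^ (B + 1) * (G'.image (fun x => x + Q * M * u x)).card) := by gcongr
          _ = _ := by ring
      rw [div_le_iff₀ (by positivity)]
      refine h4.trans ?_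
      rw [mul_comm]
      apply mul_le_mul_of_nonneg_left _ (Nat.cast_nonneg _)
      calc L ^ (B + 3) ≤ L ^ (B + 6) := pow_le_pow_right₀ hL1' (by omega)
        _ ≤ l ^ (B + 6) := pow_le_pow_left₀ hL0.le (by linarith) _
    · intro a ha
      rw [mem_image] at ha
      obtain ⟨x, hx, rfl⟩ := ha
      refine ⟨Q * M * r x, Nat.mul_pos hQM (hr x hx), ?_, ?_⟩
      · have h1 := (hj x hx 1 (by omega)).1
        rw [one_mul] at h1
        have h2 : Q * M * r x ≤ Q * M * N' := Nat.mul_le_mul_left _ (by omega)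
        have h3 : ((Q * M * r x : ℕ) : ℝ) ≤ ((Q * M * N' : ℕ) : ℝ) := by exact_mod_cast h2
        refine h3.trans (hDN.trans ?_)
        calc L ^ (B + 4) ≤ L ^ (B + 6) := pow_le_pow_right₀ hL1' (by omega)
          _ ≤ l ^ (B + 6) := pow_le_pow_left₀ hL0.le (by linarith) _
      · intro j hjk
        have h1 := hj x hx j hjk
        have h2 : x + Q * M * u x + j * (Q * M * r x) = x + Q * M * (u x + j * r x) := by ring
        rw [h2]
        exact ⟨(hS₁m _ h1.2.1).1, h1.2.2⟩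

end Pool.Agent.Y880.RS.P3
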