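import Pool.Agent.Y880.RS.P3e

/-!
Progressions in dense sets of primes whose terms are followed by the same prime gaps.
-/

set_option autoImplicit false

open Finset

namespace Pool.Agent.Y880.RS.P3

/-- the primes -/
noncomputable def nx (n : ℕ) : ℕ := Nat.nth Nat.Prime n

theorem nx_prime (n : ℕ) : (nx n).Prime := Nat.prime_nth_prime n

theorem nx_mono : StrictMono nx := Nat.nth_strictMono Nat.infinite_setOfPred_prime

theorem nx_count {p : ℕ} (hp : p.Prime) : nx (Nat.count Nat.Prime p) = p := Nat.nth_count hp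

theorem tele1 (f : ℕ → ℝ) (a b : ℕ) (hab : a ≤ b) :
    ∑ n ∈ Ico a b, (f (n + 1) - f n) = f b - f a := by
  induction b, hab using Nat.le_induction with
  | base => simp
  | succ b hab ih => rw [sum_Ico_succ_top hab, ih]; ring

theorem tele (f : ℕ → ℝ) (a b m : ℕ) (hab : a ≤ b) (y Y : ℝ) (hlo : ∀ i, y ≤ f (a + i))
    (hhi : ∀ i < m, f (b + i) ≤ y + Y) : ∑ n ∈ Ico a b, (f (n + m) - f n) ≤ m * Y := by
  induction m with
  | zero => simp
  | succ m ih =>
    have h1 : ∑ n ∈ Ico a b, (f (n + (m + 1)) - f n) =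
        ∑ n ∈ Ico a b, ((fun n => f (n + m)) (n + 1) - (fun n => f (n + m)) n) +
        ∑ n ∈ Ico a b, (f (n + m) - f n) := by
      rw [← sum_add_distrib]
      apply sum_congr rfl
      intro n _
      have e : n + (m + 1) = n + 1 + m := by ring
      rw [e]
      ring
    rw [h1, tele1 (fun n => f (n + m)) a b hab]
    have h2 := ih fun i hi => hhi i (by omega)
    have h3 := hhi m (by omega)
    have h4 := hlo m
    push_cast
    linarith

/-- few primes `p` have their `m`-th successor beyond `p + K` -/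
theorem few (m y Y K : ℕ) (E : Finset ℕ) (hE : ∀ p ∈ E, p.Prime ∧ y < p ∧ p ≤ y + Y ∧
    p + K < nx (Nat.count Nat.Prime p + m)) : (E.card : ℝ) * K ≤ m * Y + m * K := by
  classical
  obtain ⟨n₁, hn₁⟩ : ∃ n₁, n₁ = Nat.count Nat.Prime (y + Y + 1) := ⟨_, rfl⟩
  obtain ⟨n₀, hn₀⟩ : ∃ n₀, n₀ = Nat.count Nat.Prime (y + 1) := ⟨_, rfl⟩
  have h01 : n₀ ≤ n₁ := by rw [hn₀, hn₁]; exact Nat.count_monotone _ (by omega)
  have hlt : ∀ n, n < n₁ → nx n ≤ y + Y := by
    intro n hn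
    rw [hn₁] at hn
    have := Nat.nth_lt_of_lt_count hn
    unfold nx
    omega
  have hge : ∀ n, n₀ ≤ n → y + 1 ≤ nx n := by
    intro n hn
    rw [hn₀] at hn
    exact (Nat.count_le_iff_le_nth Nat.infinite_setOfPred_prime).1 hn
  obtain ⟨b, hb⟩ : ∃ b, b = max n₀ (n₁ - m) := ⟨_, rfl⟩
  have hb0 : n₀ ≤ b := by rw [hb]; exact le_max_left _ _
  have hbm : b = n₀ ∨ b + m = n₁ := by omega
  -- the indices
  have hidx : E.card = (E.image (Nat.count Nat.Prime)).card := by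
    rw [card_image_of_injOn]
    intro p hp q hq e
    rw [← nx_count (hE p hp).1, ← nx_count (hE q hq).1, e]
  have hsub : E.image (Nat.count Nat.Prime) ⊆
      (Ico n₀ b).filter (fun n => (K : ℝ) ≤ (nx (n + m) : ℝ) - nx n) ∪ Ico (n₁ - m) n₁ := by
    intro n hn
    rw [mem_image] at hn
    obtain ⟨p, hp, rfl⟩ := hn
    obtain ⟨h1, h2, h3, h4⟩ := hE p hp
    have h5 : Nat.count Nat.Prime p < n₁ := by
      rw [hn₁]
      exact Nat.count_strict_mono h1 (by omega)
    have h6 : n₀ ≤ Nat.count Nat.Prime p := by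
      rw [hn₀]
      exact Nat.count_monotone _ (by omega)
    rw [mem_union, mem_filter, mem_Ico, mem_Ico]
    by_cases h7 : Nat.count Nat.Prime p < n₁ - m
    · left
      refine ⟨⟨h6, by omega⟩, ?_⟩
      rw [nx_count h1]
      have : (p : ℝ) + K ≤ nx (Nat.count Nat.Prime p + m) := by exact_mod_cast h4.le
      linarith
    · right
      omega
  have hc1 : E.card ≤ ((Ico n₀ b).filter (fun n => (K : ℝ) ≤ (nx (n + m) : ℝ) - nx n)).card + m := by
    rw [hidx]
    refine (card_le_card hsub).trans ((card_union_le _ _).trans ?_)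
    rw [Nat.card_Ico]
    omega
  have hc2 : (((Ico n₀ b).filter (fun n => (K : ℝ) ≤ (nx (n + m) : ℝ) - nx n)).card : ℝ) * K ≤ m * Y := by
    calc (((Ico n₀ b).filter (fun n => (K : ℝ) ≤ (nx (n + m) : ℝ) - nx n)).card : ℝ) * K =
        ∑ _n ∈ (Ico n₀ b).filter (fun n => (K : ℝ) ≤ (nx (n + m) : ℝ) - nx n), (K : ℝ) := by
          rw [sum_const, nsmul_eq_mul]
      _ ≤ ∑ n ∈ (Ico n₀ b).filter (fun n => (K : ℝ) ≤ (nx (n + m) : ℝ) - nx n), ((nx (n + m) : ℝ) - nx n) := by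
          apply sum_le_sum
          intro n hn
          exact (mem_filter.1 hn).2
      _ ≤ ∑ n ∈ Ico n₀ b, ((nx (n + m) : ℝ) - nx n) := by
          apply sum_le_sum_of_subset_of_nonneg (filter_subset _ _)
          intro n _ _
          have : nx n ≤ nx (n + m) := nx_mono.monotone (by omega)
          have : (nx n : ℝ) ≤ nx (n + m) := by exact_mod_cast this
          linarith
      _ ≤ m * Y := by
          rcases hbm with hbm | hbm
          · rw [hbm, Ico_self, sum_empty]; positivity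
          · apply tele (fun n => (nx n : ℝ)) n₀ b m hb0 y Y
            · intro i
              have := hge (n₀ + i) (by omega)
              have h2 : y ≤ nx (n₀ + i) := by omega
              exact_mod_cast h2
            · intro i hi
              have := hlt (b + i) (by omega)
              exact_mod_cast this
  have hc3 : (E.card : ℝ) ≤ (((Ico n₀ b).filter (fun n => (K : ℝ) ≤ (nx (n + m) : ℝ) - nx n)).card : ℝ) + m := by
    exact_mod_cast hc1
  calc (E.card : ℝ) * K ≤ ((((Ico n₀ b).filter (fun n => (K : ℝ) ≤ (nx (n + m) : ℝ) - nx n)).card : ℝ) + m) * K := by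
        gcongr
    _ = (((Ico n₀ b).filter (fun n => (K : ℝ) ≤ (nx (n + m) : ℝ) - nx n)).card : ℝ) * K + m * K := by ring
    _ ≤ _ := by linarith

/-- the distances from `p` to the next `m` primes -/
noncomputable def Hn (m p : ℕ) : Fin m → ℕ := fun i => nx (Nat.count Nat.Prime p + i + 1) - p

theorem Hn_spec {m p : ℕ} (hp : p.Prime) (i : Fin m) : p < nx (Nat.count Nat.Prime p + i + 1) ∧
    p + Hn m p i = nx (Nat.count Nat.Prime p + i + 1) := by
  have h1 : p < nx (Nat.count Nat.Prime p + i + 1) := by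
    conv_lhs => rw [← nx_count hp]
    exact nx_mono (by omega)
  refine ⟨h1, ?_⟩
  unfold Hn
  omega

/-- the `m` prime gaps after the prime `p` are `g 0, ..., g (m - 1)` -/
def GapsAfter {m : ℕ} (g : Fin m → ℕ) (p : ℕ) : Prop :=
  ∃ n : ℕ, Nat.nth Nat.Prime n = p ∧
    ∀ i : Fin m, Nat.nth Nat.Prime (n + i + 1) = Nat.nth Nat.Prime (n + i) + g i

/-- the gaps of a pattern -/
def gaps {m : ℕ} (h : Fin m → ℕ) : Fin m → ℕ := fun i => ext0 h i.succ - ext0 h i.castSucc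

theorem ext0_Hn {m p : ℕ} (hp : p.Prime) (i : Fin (m + 1)) : p + ext0 (Hn m p) i = nx (Nat.count Nat.Prime p + i) := by
  refine Fin.cases ?_ (fun j => ?_) i
  · rw [ext0_zero, Fin.val_zero, add_zero, add_zero, nx_count hp]
  · rw [ext0_succ, (Hn_spec hp j).2, Fin.val_succ]
    rfl

theorem gapsAfter_of {m p : ℕ} (hp : p.Prime) : GapsAfter (gaps (Hn m p)) p ∧
    (∀ i, 1 ≤ gaps (Hn m p) i) ∧ ∀ i, ext0 (Hn m p) i.succ = ext0 (Hn m p) i.castSucc + gaps (Hn m p) i := by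
  have h1 : ∀ i : Fin m, ext0 (Hn m p) i.castSucc < ext0 (Hn m p) i.succ := by
    intro i
    have e1 := ext0_Hn hp (i.castSucc : Fin (m + 1))
    have e2 := ext0_Hn hp (i.succ : Fin (m + 1))
    have e3 : nx (Nat.count Nat.Prime p + (i.castSucc : Fin (m + 1))) <
        nx (Nat.count Nat.Prime p + (i.succ : Fin (m + 1))) := by
      apply nx_mono
      rw [Fin.val_succ, Fin.val_castSucc]
      omega
    omega
  have h2 : ∀ i, ext0 (Hn m p) i.succ = ext0 (Hn m p) i.castSucc + gaps (Hn m p) i := by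
    intro i
    have := h1 i
    unfold gaps
    omega
  refine ⟨⟨Nat.count Nat.Prime p, nx_count hp, fun i => ?_⟩, fun i => ?_, h2⟩
  · have e1 := ext0_Hn hp (i.castSucc : Fin (m + 1))
    have e2 := ext0_Hn hp (i.succ : Fin (m + 1))
    rw [Fin.val_castSucc] at e1
    rw [Fin.val_succ, ← add_assoc] at e2
    have e3 := h2 i
    unfold nx at e1 e2
    rw [← e1, ← e2, e3]
    ring
  · have := h1 i
    unfold gaps
    omega

theorem gaps_inj {m p q : ℕ} (hp : p.Prime) (hq : q.Prime) (h : gaps (Hn m p) = gaps (Hn m q)) :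
    Hn m p = Hn m q := by
  have h1 : ∀ n : ℕ, ∀ hn : n < m + 1, ext0 (Hn m p) ⟨n, hn⟩ = ext0 (Hn m q) ⟨n, hn⟩ := by
    intro n
    induction n with
    | zero => intro hn; rfl
    | succ n ih =>
      intro hn
      have h2 := ih (by omega)
      have h3 := (gapsAfter_of (m := m) hp).2.2 ⟨n, by omega⟩
      have h4 := (gapsAfter_of (m := m) hq).2.2 ⟨n, by omega⟩
      have e1 : (⟨n, by omega⟩ : Fin m).succ = (⟨n + 1, hn⟩ : Fin (m + 1)) := rfl
      have e2 : (⟨n, by omega⟩ : Fin m).castSucc = (⟨n, by omega⟩ : Fin (m + 1)) := rfl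
      rw [e1, e2] at h3 h4
      rw [h3, h4, h2, h]
  funext i
  have := h1 (i + 1) (by omega)
  exact this

theorem pat_gaps (k m A : ℕ) (hk : 2 ≤ k) (hA : 1 ≤ A) (δ : ℝ) (hδ : 0 < δ) :
    ∃ B : ℕ, ∃ c C : ℝ, 0 < c ∧ ∃ Y₀ : ℕ, ∀ y Y : ℕ, Y₀ ≤ Y → y + Y ≤ Y ^ A → ∀ S ⊆ Ioc y (y + Y),
    (∀ p ∈ S, p.Prime) → δ * (Y / Real.log Y) ≤ S.card →
    ∃ G : Finset (Fin m → ℕ), c * Real.log Y ^ m ≤ G.card ∧ ∀ g ∈ G, (∀ i, 1 ≤ g i ∧ (g i : ℝ) ≤ C * Real.log Y) ∧
      ∃ W ⊆ S, Y / Real.log Y ^ B ≤ W.card ∧ ∀ a ∈ W, ∃ d : ℕ, 1 ≤ d ∧ (d : ℝ) ≤ Real.log Y ^ B ∧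
        ∀ j < k, a + j * d ∈ S ∧ GapsAfter g (a + j * d) := by
  classical
  obtain ⟨C₀, hC₀⟩ : ∃ C₀ : ℝ, C₀ = 4 * m / δ + 2 := ⟨_, rfl⟩
  have hC₀2 : 2 ≤ C₀ := by
    have : 0 ≤ 4 * (m : ℝ) / δ := by positivity
    rw [hC₀]; linarith
  obtain ⟨B, c, hc, Y₁, h1⟩ := pat_main k m A hk hA (δ / 2) C₀ (by positivity) (by linarith)
  obtain ⟨Y₂, hY₂⟩ := log_ev 1
  obtain ⟨Y₃, hY₃⟩ := plog_ev 1 (4 * m / δ)
  refine ⟨B, c, C₀, hc, max Y₁ (max Y₂ (max Y₃ 2)), ?_⟩
  intro y Y hY hyY S hS hSp hSc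
  have hY1 : Y₁ ≤ Y := (le_max_left _ _).trans hY
  have hY2 : Y₂ ≤ Y := ((le_max_left _ _).trans (le_max_right _ _)).trans hY
  have hY3 : Y₃ ≤ Y := (((le_max_left _ _).trans (le_max_right _ _)).trans (le_max_right _ _)).trans hY
  have hY4 : 2 ≤ Y := (((le_max_right _ _).trans (le_max_right _ _)).trans (le_max_right _ _)).trans hY
  obtain ⟨l, hl⟩ : ∃ l, l = Real.log Y := ⟨_, rfl⟩
  have hl1 := hY₂ Y hY2
  have hlY := hY₃ Y hY3
  rw [pow_one] at hlY
  rw [← hl] at hl1 hlY hSc ⊢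
  have hY0 : (0 : ℝ) < Y := by
    have : 0 < Y := by omega
    exact_mod_cast this
  obtain ⟨K, hK⟩ : ∃ K, K = ⌈(4 * m / δ + 1) * l⌉₊ := ⟨_, rfl⟩
  have hKlo : (4 * m / δ + 1) * l ≤ K := by rw [hK]; exact Nat.le_ceil _
  have hKhi : (K : ℝ) ≤ C₀ * l := by
    have := (Nat.ceil_lt_add_one (show 0 ≤ (4 * m / δ + 1) * l by positivity)).le
    rw [← hK] at this
    calc (K : ℝ) ≤ (4 * m / δ + 1) * l + 1 := this
      _ ≤ (4 * m / δ + 1) * l + l := by linarith
      _ = _ := by rw [hC₀]; ring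
  have hmδ : 0 ≤ 4 * (m : ℝ) / δ := by positivity
  have hKl : l ≤ K := by
    refine le_trans ?_ hKlo
    have : 0 ≤ 4 * (m : ℝ) / δ * l := by positivity
    linarith
  have hK0 : (0 : ℝ) < K := by linarith
  obtain ⟨S', hS'⟩ : ∃ S', S' = S.filter (fun p => nx (Nat.count Nat.Prime p + m) ≤ p + K) := ⟨_, rfl⟩
  have hS'm : ∀ p, p ∈ S' ↔ p ∈ S ∧ nx (Nat.count Nat.Prime p + m) ≤ p + K := by
    intro p; rw [hS', mem_filter]
  have hcard : δ / 2 * (Y / l) ≤ S'.card := by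
    have e1 := card_filter_add_card_filter_not (s := S) (fun p => nx (Nat.count Nat.Prime p + m) ≤ p + K)
    have e2 := few m y Y K (S.filter (fun p => ¬ nx (Nat.count Nat.Prime p + m) ≤ p + K)) (by
      intro p hp
      rw [mem_filter] at hp
      have := mem_Ioc.1 (hS hp.1)
      exact ⟨hSp p hp.1, this.1, this.2, not_le.1 hp.2⟩)
    obtain ⟨E, hE⟩ : ∃ E : ℝ, E = (S.filter (fun p => ¬ nx (Nat.count Nat.Prime p + m) ≤ p + K)).card := ⟨_, rfl⟩
    rw [← hE] at e2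
    have e3 : (S'.card : ℝ) + E = S.card := by rw [hE, hS']; exact_mod_cast e1
    have e4 : E ≤ δ / 2 * (Y / l) := by
      have f1 : (m : ℝ) * Y ≤ δ / 4 * (Y / l) * K := by
        calc (m : ℝ) * Y = δ / 4 * (Y / l) * (4 * m / δ * l) := by field_simp
          _ ≤ δ / 4 * (Y / l) * K := by
              apply mul_le_mul_of_nonneg_left _ (by positivity)
              refine le_trans ?_ hKlo
              linarith
      have f2 : (m : ℝ) * K ≤ δ / 4 * (Y / l) * K := by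
        apply mul_le_mul_of_nonneg_right _ hK0.le
        rw [← mul_div_assoc, le_div_iff₀ (by linarith)]
        have : 4 * (m : ℝ) / δ * l * δ ≤ Y * δ := by gcongr
        have e : 4 * (m : ℝ) / δ * l * δ = 4 * m * l := by field_simp
        rw [e] at this
        linarith
      have f3 : E * K ≤ δ / 2 * (Y / l) * K := by
        calc E * K ≤ _ := e2
          _ ≤ δ / 4 * (Y / l) * K + δ / 4 * (Y / l) * K := add_le_add f1 f2
          _ = _ := by ring
      exact le_of_mul_le_mul_right f3 hK0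
    have e5 : δ * (Y / l) = δ / 2 * (Y / l) + δ / 2 * (Y / l) := by ring
    linarith
  obtain ⟨G, hGs, hGc, hG⟩ := h1 y Y K hY1 hyY (by rw [← hl]; exact hKl) (by rw [← hl]; exact hKhi) S' (Hn m) (by
    intro p hp
    rw [hS'm] at hp
    have hpp := hSp p hp.1
    have hpI := mem_Ioc.1 (hS hp.1)
    refine ⟨hpp, hpI.1, hpI.2, ?_, ?_, ?_⟩
    · rw [mem_box]
      intro i
      obtain ⟨e1, e2⟩ := Hn_spec hpp i
      have e3 : nx (Nat.count Nat.Prime p + i + 1) ≤ nx (Nat.count Nat.Prime p + m) :=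
        nx_mono.monotone (by omega)
      omega
    · intro i j hij
      obtain ⟨_, e2⟩ := Hn_spec hpp i
      obtain ⟨_, e4⟩ := Hn_spec hpp j
      rw [hij] at e2
      have e5 := nx_mono.injective (e2.symm.trans e4)
      exact Fin.ext (by omega)
    · intro i
      rw [(Hn_spec hpp i).2]
      exact nx_prime _) (by rw [← hl]; exact hcard)
  rw [← hl] at hGc hG
  have hWne : ∀ W : Finset ℕ, Y / l ^ B ≤ (W.card : ℝ) → W.Nonempty := by
    intro W hW
    rw [← card_pos]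
    have : (0 : ℝ) < W.card := lt_of_lt_of_le (by positivity) hW
    exact_mod_cast this
  have hrep : ∀ h ∈ G, ∃ p ∈ S', Hn m p = h := by
    intro h hh
    obtain ⟨W, hW, hWc, hWd⟩ := hG h hh
    obtain ⟨a, ha⟩ := hWne W hWc
    obtain ⟨d, _, _, hj⟩ := hWd a ha
    have := hj 0 (by omega)
    exact ⟨_, this.1, this.2⟩
  refine ⟨G.image gaps, ?_, ?_⟩
  · rw [card_image_of_injOn]
    · exact hGc
    · intro h hh h' hh' e
      obtain ⟨p, hp, rfl⟩ := hrep h hh
      obtain ⟨q, hq, rfl⟩ := hrep h' hh'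
      exact gaps_inj (hSp p ((hS'm p).1 hp).1) (hSp q ((hS'm q).1 hq).1) e
  · intro g hg
    rw [mem_image] at hg
    obtain ⟨h, hh, rfl⟩ := hg
    refine ⟨fun i => ?_, ?_⟩
    · obtain ⟨p, hp, rfl⟩ := hrep h hh
      have hpp := hSp p ((hS'm p).1 hp).1
      obtain ⟨_, e2, e3⟩ := gapsAfter_of (m := m) hpp
      refine ⟨e2 i, ?_⟩
      have e4 := ext0_le (hGs hh) i.succ
      have e5 := e3 i
      have e6 : gaps (Hn m p) i ≤ K := by omega
      have e7 : (gaps (Hn m p) i : ℝ) ≤ K := by exact_mod_cast e6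
      exact e7.trans hKhi
    · obtain ⟨W, hW, hWc, hWd⟩ := hG h hh
      refine ⟨W, fun a ha => ((hS'm a).1 (hW ha)).1, hWc, fun a ha => ?_⟩
      obtain ⟨d, hd1, hd2, hj⟩ := hWd a ha
      refine ⟨d, hd1, hd2, fun j hjk => ?_⟩
      obtain ⟨e1, e2⟩ := hj j hjk
      have e3 := ((hS'm _).1 e1).1
      refine ⟨e3, ?_⟩
      rw [← e2]
      exact (gapsAfter_of (hSp _ e3)).1

end Pool.Agent.Y880.RS.P3
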