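import Pool.Agent.Y880.RS.P3f
import Pool.Agent.W38.PRb
import Pool.Agent.H361R2.PP.Asm4

/-!
Chains of growing large gaps repeated along progressions of primes.
-/

set_option autoImplicit false

open Finset

namespace Pool.Agent.Y880.RS.P3

theorem pat_chains (k m : ℕ) (hk : 2 ≤ k) (Λ : ℝ) :
    ∃ B : ℕ, ∃ c C : ℝ, 0 < c ∧ ∃ Y₀ : ℕ, ∀ Y : ℕ, Y₀ ≤ Y →
    ∃ G : Finset (Fin m → ℕ), c * Real.log Y ^ m ≤ G.card ∧ ∀ g ∈ G,
      (∀ i, Λ * Real.log Y ≤ g i ∧ (g i : ℝ) ≤ C * Real.log Y) ∧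
      (∀ i j : Fin m, (i : ℕ) + 1 = j → Λ * g i ≤ g j) ∧
      ∃ W ⊆ Icc 1 Y, Y / Real.log Y ^ B ≤ W.card ∧ ∀ a ∈ W, ∃ d : ℕ, 1 ≤ d ∧ (d : ℝ) ≤ Real.log Y ^ B ∧
        ∀ j < k, a + j * d ≤ Y ∧ GapsAfter g (a + j * d) := by
  classical
  obtain ⟨K, hK⟩ : ∃ K : ℝ, K = 2 * (|Λ| + 1) := ⟨_, rfl⟩
  have hK2 : 2 ≤ K := by
    have := abs_nonneg Λ
    rw [hK]; linarith
  obtain ⟨c₀, hc₀, N₀, hrun⟩ := Pool.Agent.H361R2.PP.runInc K m
  obtain ⟨c₁, hc₁, hcheb⟩ := Pool.Agent.W38.PR.cheb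
  obtain ⟨B, c, C, hc, Y₁, hpat⟩ := pat_gaps k m 1 hk le_rfl (c₀ * c₁ / 2) (by positivity)
  obtain ⟨Z₁, hZ₁⟩ := plog_ev 1 (12 / (c₀ * c₁))
  obtain ⟨Z₂, hZ₂⟩ := log_ev 1
  obtain ⟨Z₃, hZ₃⟩ := plog_ev 1 ((N₀ + 1) / c₁)
  obtain ⟨Y₂, hY₂⟩ := zfacts2 (max (max Z₁ Z₂) Z₃)
  refine ⟨B, c, C, hc, max (max Y₁ Y₂) (max Z₃ 2), fun Y hY => ?_⟩
  have hY1 : Y₁ ≤ Y := ((le_max_left _ _).trans (le_max_left _ _)).trans hY
  have hY2 : Y₂ ≤ Y := ((le_max_right _ _).trans (le_max_left _ _)).trans hY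
  have hY3 : Z₃ ≤ Y := ((le_max_left _ _).trans (le_max_right _ _)).trans hY
  have hY4 : 2 ≤ Y := ((le_max_right _ _).trans (le_max_right _ _)).trans hY
  obtain ⟨hZall, h16, hZ2, hZ3⟩ := hY₂ Y hY2
  obtain ⟨Z, hZ⟩ : ∃ Z, Z = Nat.sqrt Y := ⟨_, rfl⟩
  rw [← hZ] at hZall h16 hZ2 hZ3
  have hz1 := hZ₁ Z (((le_max_left _ _).trans (le_max_left _ _)).trans hZall)
  have hz2 := hZ₂ Z (((le_max_right _ _).trans (le_max_left _ _)).trans hZall)
  have hz3 := hZ₃ Y hY3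
  rw [pow_one] at hz1 hz3
  obtain ⟨L, hL⟩ : ∃ L, L = Real.log Z := ⟨_, rfl⟩
  obtain ⟨l, hl⟩ : ∃ l, l = Real.log Y := ⟨_, rfl⟩
  rw [← hL] at hz1 hz2
  rw [← hl] at hz3 ⊢
  have hZ0 : (0 : ℝ) < Z := by
    have : 0 < Z := by omega
    exact_mod_cast this
  have hY0 : (0 : ℝ) < Y := by
    have : 0 < Y := by omega
    exact_mod_cast this
  have hLl : 2 * L ≤ l := by
    have h1 : Real.log ((Z : ℝ) ^ 2) ≤ Real.log Y := Real.log_le_log (by positivity) (by exact_mod_cast hZ2)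
    rw [Real.log_pow, ← hL, ← hl] at h1
    exact_mod_cast h1
  have hlL : l ≤ 3 * L := by
    have h1 : Real.log Y ≤ Real.log ((Z : ℝ) ^ 3) := Real.log_le_log hY0 (by exact_mod_cast hZ3)
    rw [Real.log_pow, ← hL, ← hl] at h1
    exact_mod_cast h1
  have hl0 : 0 < l := by linarith
  -- the number of primes
  obtain ⟨N, hN⟩ : ∃ N, N = Nat.count Nat.Prime (Y + 1) := ⟨_, rfl⟩
  have hNc : c₁ * (Y / l) ≤ N := by
    have h1 := hcheb Y (by exact_mod_cast hY4)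
    rw [Nat.floor_natCast, ← hl] at h1
    rw [hN]
    exact h1
  have hNN₀ : N₀ ≤ N := by
    have h1 : (N₀ : ℝ) ≤ N := by
      refine le_trans ?_ hNc
      have h2 : ((N₀ : ℝ) + 1) * l ≤ c₁ * Y := by
        rw [div_mul_eq_mul_div, div_le_iff₀ hc₁] at hz3
        linarith
      rw [← mul_div_assoc, le_div_iff₀ hl0]
      nlinarith
    exact_mod_cast h1
  have hrun' := hrun N hNN₀
  obtain ⟨J, hJ⟩ : ∃ J : Finset ℕ, J = (range N).filter (fun j =>
    K * Real.log (Pool.Agent.H361R2.PP.P j) ≤ (Pool.Agent.H361R2.PP.P (j + 1) : ℝ) - Pool.Agent.H361R2.PP.P j ∧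
    ∀ i < m, K * ((Pool.Agent.H361R2.PP.P (j + i + 1) : ℝ) - Pool.Agent.H361R2.PP.P (j + i)) ≤
      (Pool.Agent.H361R2.PP.P (j + i + 2) : ℝ) - Pool.Agent.H361R2.PP.P (j + i + 1)) := ⟨_, rfl⟩
  rw [← hJ] at hrun'
  have hPnx : ∀ j, Pool.Agent.H361R2.PP.P j = nx j := fun j => rfl
  have hJm : ∀ j, j ∈ J ↔ j < N ∧ K * Real.log (nx j) ≤ (nx (j + 1) : ℝ) - nx j ∧
      ∀ i < m, K * ((nx (j + i + 1) : ℝ) - nx (j + i)) ≤ (nx (j + i + 2) : ℝ) - nx (j + i + 1) := by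
    intro j
    rw [hJ, mem_filter, mem_range]
    rfl
  obtain ⟨S, hS⟩ : ∃ S : Finset ℕ, S = (J.image nx).filter (fun p => Z < p) := ⟨_, rfl⟩
  have hSm : ∀ p ∈ S, Z < p ∧ ∃ j ∈ J, nx j = p := by
    intro p hp
    rw [hS, mem_filter, mem_image] at hp
    exact ⟨hp.2, hp.1⟩
  have hSI : S ⊆ Ioc 0 (0 + Y) := by
    intro p hp
    obtain ⟨h1, j, hj, rfl⟩ := hSm p hp
    rw [mem_Ioc]
    refine ⟨by omega, ?_⟩
    have h2 := ((hJm j).1 hj).1
    rw [hN] at h2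
    have h3 := Nat.nth_lt_of_lt_count h2
    unfold nx
    omega
  have hScard : c₀ * c₁ / 2 * (Y / l) ≤ S.card := by
    have h1 : J.card ≤ S.card + Z := by
      have h2 : J.card = (J.image nx).card := (card_image_of_injective _ nx_mono.injective).symm
      have h3 := card_filter_add_card_filter_not (s := J.image nx) (fun p => Z < p)
      have h4 : ((J.image nx).filter (fun p => ¬ Z < p)).card ≤ Z := by
        have h5 : (J.image nx).filter (fun p => ¬ Z < p) ⊆ Icc 1 Z := by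
          intro p hp
          rw [mem_filter, mem_image] at hp
          obtain ⟨⟨j, _, rfl⟩, h6⟩ := hp
          rw [mem_Icc]
          have := (nx_prime j).one_lt
          omega
        refine (card_le_card h5).trans ?_
        rw [Nat.card_Icc]; omega
      rw [← hS] at h3
      omega
    have h2 : (J.card : ℝ) ≤ S.card + Z := by exact_mod_cast h1
    have h3 : c₀ * (c₁ * (Y / l)) ≤ J.card := by
      refine le_trans ?_ hrun'
      gcongr
    have h4 : (Z : ℝ) ≤ c₀ * c₁ / 2 * (Y / l) := by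
      have h5 : (Z : ℝ) ^ 2 ≤ Y := by exact_mod_cast hZ2
      have h6 : 12 * L ≤ c₀ * c₁ * Z := by
        rw [div_mul_eq_mul_div, div_le_iff₀ (by positivity)] at hz1
        linarith
      rw [← mul_div_assoc, le_div_iff₀ hl0]
      calc (Z : ℝ) * l ≤ Z * (3 * L) := by gcongr
        _ = Z * (12 * L) / 4 := by ring
        _ ≤ Z * (c₀ * c₁ * Z) / 4 := by gcongr
        _ = c₀ * c₁ / 4 * Z ^ 2 := by ring
        _ ≤ c₀ * c₁ / 2 * Y := by
            have : c₀ * c₁ / 4 * (Z : ℝ) ^ 2 ≤ c₀ * c₁ / 4 * Y := by gcongr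
            have h7 : 0 < c₀ * c₁ * Y := by positivity
            linarith
    have h5 : c₀ * (c₁ * (Y / l)) = c₀ * c₁ / 2 * (Y / l) + c₀ * c₁ / 2 * (Y / l) := by ring
    linarith
  obtain ⟨G, hGc, hG⟩ := hpat 0 Y hY1 (by rw [pow_one]; omega) S hSI
    (by
      intro p hp
      obtain ⟨_, j, _, rfl⟩ := hSm p hp
      exact nx_prime j) (by rw [← hl]; exact hScard)
  rw [← hl] at hGc hG
  refine ⟨G, hGc, fun g hg => ?_⟩
  obtain ⟨h1, W, hWS, hWc, hW⟩ := hG g hg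
  have hWne : W.Nonempty := by
    rw [← card_pos]
    have : (0 : ℝ) < W.card := lt_of_lt_of_le (by positivity) hWc
    exact_mod_cast this
  obtain ⟨a, ha⟩ := hWne
  obtain ⟨d, _, _, hd⟩ := hW a ha
  obtain ⟨e1, e2⟩ := hd 0 (by omega)
  rw [zero_mul, add_zero] at e1 e2
  obtain ⟨n, hn, hgn⟩ := e2
  obtain ⟨hZa, j, hj, hja⟩ := hSm a e1
  have hjn : j = n := nx_mono.injective (by rw [hja]; exact hn.symm)
  subst hjn
  rw [hJm] at hj
  obtain ⟨_, hj1, hj2⟩ := hj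
  have hgi : ∀ i : Fin m, (g i : ℝ) = (nx (j + i + 1) : ℝ) - nx (j + i) := by
    intro i
    have h2 := hgn i
    have h3 : nx (j + i + 1) = nx (j + i) + g i := h2
    have h4 : (nx (j + i + 1) : ℝ) = nx (j + i) + g i := by exact_mod_cast h3
    linarith
  have hla : l ≤ 2 * Real.log (nx j) := by
    rw [hja]
    have h2 : (Y : ℝ) ≤ (a : ℝ) ^ 2 := by
      have h3 : Y < (Z + 1) * (Z + 1) := by rw [hZ]; exact Nat.lt_succ_sqrt _
      have h4 : (Z + 1) * (Z + 1) ≤ a * a := Nat.mul_le_mul (by omega) (by omega)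
      have h5 : Y ≤ a ^ 2 := by rw [pow_two]; omega
      exact_mod_cast h5
    have h3 : Real.log Y ≤ Real.log ((a : ℝ) ^ 2) := Real.log_le_log hY0 h2
    rw [Real.log_pow, ← hl] at h3
    exact_mod_cast h3
  have hgap : ∀ i ≤ m, K * Real.log (nx j) ≤ (nx (j + i + 1) : ℝ) - nx (j + i) := by
    intro i
    induction i with
    | zero => intro _; simpa using hj1
    | succ i ih =>
      intro hi
      have h2 := ih (by omega)
      have h3 := hj2 i (by omega)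
      have h4 : 0 ≤ K * Real.log (nx j) := mul_nonneg (by linarith) (by linarith)
      have e : j + (i + 1) + 1 = j + i + 2 := by ring
      have e' : j + (i + 1) = j + i + 1 := by ring
      rw [e, e']
      have h5 : (nx (j + i + 1) : ℝ) - nx (j + i) ≤ K * ((nx (j + i + 1) : ℝ) - nx (j + i)) := by
        apply le_mul_of_one_le_left _ (by linarith)
        linarith
      linarith
  have hΛK : Λ ≤ K := by
    have := le_abs_self Λ
    have := abs_nonneg Λ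
    rw [hK]; linarith
  refine ⟨fun i => ⟨?_, (h1 i).2⟩, ?_, W, ?_, hWc, ?_⟩
  · rw [hgi i]
    refine le_trans ?_ (hgap i (by omega))
    have h2 : Λ * l ≤ |Λ| * l := by gcongr; exact le_abs_self Λ
    have h3 : |Λ| * l ≤ |Λ| * (2 * Real.log (nx j)) := by gcongr
    have h4 : 0 ≤ Real.log (nx j) := by linarith
    rw [hK]
    linarith
  · intro i i' hii
    rw [hgi i, hgi i', ← hii]
    have h3 := hj2 i (by omega)
    have e : j + ((i : ℕ) + 1) + 1 = j + i + 2 := by ring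
    have e' : j + ((i : ℕ) + 1) = j + i + 1 := by ring
    rw [e, e']
    refine le_trans ?_ h3
    apply mul_le_mul_of_nonneg_right hΛK
    rw [← hgi i]
    exact Nat.cast_nonneg _
  · intro a' ha'
    have := mem_Ioc.1 (hSI (hWS ha'))
    rw [mem_Icc]
    omega
  · intro a' ha'
    obtain ⟨d', hd1, hd2, hd3⟩ := hW a' ha'
    refine ⟨d', hd1, hd2, fun j' hj' => ?_⟩
    obtain ⟨f1, f2⟩ := hd3 j' hj'
    have := mem_Ioc.1 (hSI f1)
    exact ⟨by omega, f2⟩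

end Pool.Agent.Y880.RS.P3
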