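import Pool.Agent.Y880.RS.P3e

/-!
Pairs of primes at logarithmic distance: the upper bound of the right order in intervals.
-/

set_option autoImplicit false

open Finset

namespace Pool.Agent.Y880.RS.P3

open Pool.Agent.Y880.RS.G5

/-- the core -/
theorem pairs_core (Q K y Y Z : ℕ) (C₁ w : ℝ) (hQ : 1 ≤ Q) (hQK : Q ≤ K) (hQZ : Q ≤ Z) (hC₁ : 0 < C₁) (hw : 0 < w)
    (hub : ∀ b : ℕ, ∀ h ∈ box 1 K, Function.Injective h → ∀ P ⊆ cls y Y Q b,
      (∀ x ∈ P, ∀ i, ∀ p : ℕ, p.Prime → p ∣ x + (Q + ext0 h i) → Z < p) → (P.card : ℝ) ≤ C₁ * w)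
    (P : Finset (ℕ × ℕ)) (hP : ∀ q ∈ P, q.1.Prime ∧ (q.1 + q.2).Prime ∧ y + Q < q.1 ∧ Z < q.1 ∧ q.1 ≤ y + Y ∧
      1 ≤ q.2 ∧ q.2 ≤ K) :
    (P.card : ℝ) ≤ C₁ * w * (Q.totient * (2 * K / Q * Q.totient)) := by
  classical
  obtain ⟨Fb, hFb⟩ : ∃ Fb : (Fin 1 → ℕ) → ℕ → Finset (ℕ × ℕ), Fb = fun h b =>
    P.filter (fun q => (fun _ => q.2) = h ∧ q.1 % Q = b) := ⟨_, rfl⟩
  have hFm : ∀ h b q, q ∈ Fb h b ↔ q ∈ P ∧ (fun _ : Fin 1 => q.2) = h ∧ q.1 % Q = b := by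
    intro h b q; rw [hFb]; simp only [mem_filter]
  have hsum : (P.card : ℝ) = ∑ h ∈ box 1 K, ∑ b ∈ range Q, ((Fb h b).card : ℝ) := by
    have h1 : P.card = ∑ t ∈ box 1 K ×ˢ range Q, (Fb t.1 t.2).card := by
      have h2 : ∀ q ∈ P, ((fun _ : Fin 1 => q.2), q.1 % Q) ∈ box 1 K ×ˢ range Q := by
        intro q hq
        rw [mem_product, mem_range, mem_box]
        exact ⟨fun _ => (hP q hq).2.2.2.2.2, Nat.mod_lt _ hQ⟩
      rw [card_eq_sum_card_fiberwise (f := fun q : ℕ × ℕ => ((fun _ : Fin 1 => q.2), q.1 % Q)) h2]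
      apply sum_congr rfl
      rintro ⟨h, b⟩ _
      congr 1
      ext q
      rw [mem_filter, hFm, Prod.mk.injEq]
    rw [h1, Nat.cast_sum, sum_product]
  have hprime : ∀ q : ℕ, q.Prime → Z < q → ∀ p : ℕ, p.Prime → p ∣ q → Z < p := by
    intro q hq hZq p hp hpq
    rwa [(Nat.prime_dvd_prime_iff_eq hp hq).1 hpq]
  have hrough : ∀ h b, ∀ q ∈ Fb h b, ∀ i, (q.1 + ext0 h i).Prime ∧ Z < q.1 + ext0 h i := by
    intro h b q hq i
    rw [hFm] at hq
    obtain ⟨h1, h2, h3⟩ := hq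
    have h4 := hP q h1
    refine ⟨?_, by omega⟩
    refine Fin.cases ?_ (fun j => ?_) i
    · rw [ext0_zero, add_zero]; exact h4.1
    · rw [ext0_succ, ← h2]; exact h4.2.1
  have hle : ∀ h ∈ box 1 K, ∀ b ∈ range Q, ((Fb h b).card : ℝ) ≤ if b ∈ cls3 1 Q h then C₁ * w else 0 := by
    intro h hh b hb
    rw [mem_range] at hb
    split_ifs with hc
    · have h1 : ((Fb h b).image (fun q => q.1 - Q)).card = (Fb h b).card := by
        apply card_image_of_injOn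
        intro q hq q' hq' e
        rw [mem_coe, hFm] at hq hq'
        have e1 := (hP q hq.1).2.2.1
        have e2 := (hP q' hq'.1).2.2.1
        simp only at e
        have e3 : q.2 = q'.2 := by
          have := hq.2.1.trans hq'.2.1.symm
          exact congrFun this 0
        exact Prod.ext (by omega) e3
      rw [← h1]
      apply hub b h hh (fun i j _ => Subsingleton.elim i j)
      · intro x hx
        rw [mem_image] at hx
        obtain ⟨q, hq, rfl⟩ := hx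
        rw [hFm] at hq
        have e1 := hP q hq.1
        unfold cls
        rw [mem_filter, mem_Ioc]
        refine ⟨⟨by omega, by omega⟩, ?_⟩
        rw [← Nat.mod_eq_sub_mod (by omega), hq.2.2]
        rw [← hq.2.2, Nat.mod_mod]
      · intro x hx i p hp hpd
        rw [mem_image] at hx
        obtain ⟨q, hq, rfl⟩ := hx
        have hr := hrough h b q hq i
        rw [hFm] at hq
        have e1 := (hP q hq.1).2.2.1
        have e2 : q.1 - Q + (Q + ext0 h i) = q.1 + ext0 h i := by omega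
        rw [e2] at hpd
        exact hprime _ hr.1 hr.2 p hp hpd
    · apply le_of_eq
      rw [Nat.cast_eq_zero, card_eq_zero, eq_empty_iff_forall_notMem]
      intro q hq
      apply hc
      unfold cls3
      have hr := hrough h b q hq
      rw [hFm] at hq
      have hcop : ∀ i, (q.1 + ext0 h i).Coprime Q := by
        intro i
        rw [Nat.Prime.coprime_iff_not_dvd (hr i).1]
        intro hd
        have := Nat.le_of_dvd (by omega) hd
        have := (hr i).2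
        omega
      have hmod : ∀ t : ℕ, (q.1 + t).Coprime Q → (b + t).Coprime Q := by
        intro t ht
        have e1 : (q.1 + t) ≡ (b + t) [MOD Q] := by
          apply Nat.ModEq.add_right
          rw [← hq.2.2]
          exact (Nat.mod_modEq q.1 Q).symm
        have e2 := Nat.ModEq.gcd_eq e1
        unfold Nat.Coprime at ht ⊢
        rw [← e2]; exact ht
      rw [mem_filter, mem_range]
      refine ⟨hb, ?_, fun i => ?_⟩
      · have := hmod _ (hcop 0)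
        rwa [ext0_zero, add_zero] at this
      · have := hmod _ (hcop i.succ)
        rwa [ext0_succ] at this
  rw [hsum]
  calc ∑ h ∈ box 1 K, ∑ b ∈ range Q, ((Fb h b).card : ℝ) ≤
      ∑ h ∈ box 1 K, C₁ * w * ((cls3 1 Q h).card : ℝ) := by
        apply sum_le_sum
        intro h hh
        refine (sum_le_sum (hle h hh)).trans ?_
        rw [← sum_filter, sum_const, nsmul_eq_mul, mul_comm]
        apply mul_le_mul_of_nonneg_left _ (by positivity)
        have : (range Q).filter (fun b => b ∈ cls3 1 Q h) ⊆ cls3 1 Q h := by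
          intro b hb
          exact (mem_filter.1 hb).2
        exact_mod_cast card_le_card this
    _ = C₁ * w * ∑ h ∈ box 1 K, ((cls3 1 Q h).card : ℝ) := by rw [mul_sum]
    _ ≤ _ := by
        apply mul_le_mul_of_nonneg_left _ (by positivity)
        have := sum_cls3 1 Q K hQ hQK
        rwa [pow_one] at this

theorem pairs_bound (A : ℕ) (hA : 1 ≤ A) (C₀ : ℝ) (hC₀ : 1 ≤ C₀) :
    ∃ C : ℝ, 0 < C ∧ ∃ Y₀ : ℕ, ∀ y Y K : ℕ, Y₀ ≤ Y → y + Y ≤ Y ^ A → Real.log Y ≤ K →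
    (K : ℝ) ≤ C₀ * Real.log Y → ∀ P : Finset (ℕ × ℕ),
    (∀ q ∈ P, q.1.Prime ∧ (q.1 + q.2).Prime ∧ y < q.1 ∧ q.1 ≤ y + Y ∧ 1 ≤ q.2 ∧ q.2 ≤ K) →
    (P.card : ℝ) ≤ C * (Y / Real.log Y) := by
  classical
  obtain ⟨C₁, hC₁, hub0⟩ := ub3 2 (3 * A + 1)
  obtain ⟨C', hC'⟩ : ∃ C', C' = 3 * C₀ := ⟨_, rfl⟩
  have hC'3 : 3 ≤ C' := by linarith
  obtain ⟨A₃, hA₃⟩ : ∃ A₃ : ℕ, A₃ = 16 := ⟨_, rfl⟩
  obtain ⟨s₁, hub1⟩ := hub0 A₃
  obtain ⟨Z₁, hub⟩ := hub1 2
  obtain ⟨Z₃, hZ₃⟩ := log_ev (max (16 + C') (Real.exp (2 * s₁)))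
  obtain ⟨Z₄, hZ₄⟩ := plog_ev 3 2
  obtain ⟨Y₀, hY₀⟩ := zfacts2 (max Z₁ (max Z₃ Z₄))
  refine ⟨3 * (2 * C₁ * C' + 1), by positivity, Y₀, ?_⟩
  intro y Y K hY hyY hKl hKC P hP
  obtain ⟨hZall, h16, hZ2, hZ3⟩ := hY₀ Y hY
  obtain ⟨Z, hZ⟩ : ∃ Z, Z = Nat.sqrt Y := ⟨_, rfl⟩
  rw [← hZ] at hZall h16 hZ2 hZ3
  have hZZ1 : Z₁ ≤ Z := (le_max_left _ _).trans hZall
  have hZZ3 : Z₃ ≤ Z := ((le_max_left _ _).trans (le_max_right _ _)).trans hZall
  have hZZ4 : Z₄ ≤ Z := ((le_max_right _ _).trans (le_max_right _ _)).trans hZall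
  obtain ⟨L, hL⟩ : ∃ L, L = Real.log Z := ⟨_, rfl⟩
  obtain ⟨l, hl⟩ : ∃ l, l = Real.log Y := ⟨_, rfl⟩
  have hLs := hZ₃ Z hZZ3
  have hLp := hZ₄ Z hZZ4
  rw [← hL] at hLs hLp
  rw [← hl] at hKl hKC ⊢
  have hL1 : 16 + C' ≤ L := (le_max_left _ _).trans hLs
  have hL2 : Real.exp (2 * s₁) ≤ L := (le_max_right _ _).trans hLs
  have hZ0 : (0 : ℝ) < Z := by
    have : 0 < Z := by omega
    exact_mod_cast this
  have hY1 : 1 ≤ Y := le_trans (Nat.one_le_pow _ _ (by omega)) hZ2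
  have hY0 : (0 : ℝ) < Y := by exact_mod_cast hY1
  have hL0 : 0 < L := by linarith
  have hL1' : 1 ≤ L := by linarith
  have hLl : 2 * L ≤ l := by
    have h1 : Real.log ((Z : ℝ) ^ 2) ≤ Real.log Y := Real.log_le_log (by positivity) (by exact_mod_cast hZ2)
    rw [Real.log_pow, ← hL, ← hl] at h1
    exact_mod_cast h1
  have hlL : l ≤ 3 * L := by
    have h1 : Real.log Y ≤ Real.log ((Z : ℝ) ^ 3) := Real.log_le_log hY0 (by exact_mod_cast hZ3)
    rw [Real.log_pow, ← hL, ← hl] at h1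
    exact_mod_cast h1
  have hl0 : 0 < l := by linarith
  have hKL : (K : ℝ) ≤ C' * L := by
    calc (K : ℝ) ≤ C₀ * l := hKC
      _ ≤ C₀ * (3 * L) := by gcongr
      _ = _ := by rw [hC']; ring
  obtain ⟨s, hs⟩ : ∃ s, s = 1 / 2 * Real.log L := ⟨_, rfl⟩
  have hs1 : s₁ ≤ s := by
    have := (Real.le_log_iff_exp_le hL0).2 hL2
    rw [hs]; linarith
  have hlogL : 0 ≤ Real.log L := Real.log_nonneg hL1'
  have hs0 : 0 ≤ s := by rw [hs]; positivity
  obtain ⟨Q, hQd⟩ : ∃ Q, Q = primorial ⌊s⌋₊ := ⟨_, rfl⟩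
  have hQ1 : 1 ≤ Q := by rw [hQd]; exact primorial_pos _
  have hQ0 : (0 : ℝ) < Q := by exact_mod_cast hQ1
  have hQs : ∀ p : ℕ, p.Prime → (p : ℝ) ≤ s → p ∣ Q := by
    rw [hQd]; exact prim_dvd s
  have hQL : (Q : ℝ) ≤ L := by
    have h1 : (Q : ℝ) ≤ Real.exp (7 / 10 * 1 * Real.log L) := by
      rw [hQd]; exact prim_exp 1 (Real.log L) s hs hs0
    refine h1.trans ?_
    calc Real.exp (7 / 10 * 1 * Real.log L) ≤ Real.exp (Real.log L) := by
          apply Real.exp_le_exp.2; linarith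
      _ = L := Real.exp_log hL0
  have hQK : Q ≤ K := by
    have : (Q : ℝ) ≤ K := by linarith
    exact_mod_cast this
  have hK1 : 1 ≤ K := hQ1.trans hQK
  have hKL2 : (K : ℝ) ≤ L ^ 2 := by
    calc (K : ℝ) ≤ C' * L := hKL
      _ ≤ L * L := mul_le_mul_of_nonneg_right (by linarith) hL0.le
      _ = _ := by ring
  have hQK2 : ((Q + K : ℕ) : ℝ) ≤ L ^ 3 := by
    push_cast
    have h1 : L ≤ L ^ 2 := le_self_pow₀ hL1' (by norm_num)
    calc (Q : ℝ) + K ≤ L ^ 2 + L ^ 2 := by linarith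
      _ = 2 * L ^ 2 := by ring
      _ ≤ L * L ^ 2 := by gcongr; linarith
      _ = _ := by ring
  have hQKZ : 2 * (Q + K) ≤ Z := by
    have h1 : 2 * ((Q + K : ℕ) : ℝ) ≤ Z := by linarith
    exact_mod_cast h1
  have hQZ : Q ≤ Z := by omega
  have hlogK : ((1 : ℕ) + 1 : ℝ) ^ 2 * Real.log K ≤ A₃ * s := by
    have h1 : Real.log K ≤ 2 * Real.log L := by
      have : Real.log K ≤ Real.log (L ^ 2) := by
        apply Real.log_le_log _ hKL2
        exact_mod_cast hK1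
      rwa [Real.log_pow] at this
    rw [hA₃, hs]
    push_cast
    linarith
  have hA₃s : (A₃ : ℝ) * s ≤ L ^ 2 := by
    have h1 : s ≤ L := by
      rw [hs]
      have := Real.log_le_sub_one_of_pos hL0
      linarith
    have h2 : (A₃ : ℝ) ≤ L := by
      rw [hA₃]; push_cast; linarith
    calc (A₃ : ℝ) * s ≤ L * L := mul_le_mul h2 h1 hs0 hL0.le
      _ = _ := by ring
  have hZQY : Z * Q ≤ Y := (Nat.mul_le_mul_left Z hQZ).trans (by rw [← pow_two]; exact hZ2)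
  have hQA : Q ≤ Z ^ (3 * A + 1) := hQZ.trans (Nat.le_self_pow (by omega) Z)
  have hφ0 : (0 : ℝ) < Q.totient := by exact_mod_cast Nat.totient_pos.2 hQ1
  obtain ⟨w, hw⟩ : ∃ w, w = (Y : ℝ) / Q * ((Q : ℝ) / (Q.totient * L)) ^ 2 := ⟨_, rfl⟩
  have hw0 : 0 < w := by rw [hw]; positivity
  obtain ⟨P', hP'⟩ : ∃ P', P' = P.filter (fun q => y + Q < q.1 ∧ Z < q.1) := ⟨_, rfl⟩
  have hcore := pairs_core Q K y Y Z C₁ w hQ1 hQK hQZ hC₁ hw0
    (by
      intro b h hh hinj P₀ hP₀ hPr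
      obtain ⟨Δ, hΔ, hΔs, hΔp⟩ := single_pat 1 K Q A₃ s h hh hK1 hinj hlogK
      have h1 := hub Z Q Δ s hZZ1 hQ1 hQA (Nat.pos_of_ne_zero hΔ) (by rw [← hL]; exact hΔs.trans hA₃s) hs1 hQs y Y b
        (fun i => Q + ext0 h i) Δ hZQY (fun i => by omega)
        hΔ hΔs (fun i j hij p _ _ hpd => ⟨hΔp i j hij p hpd, Or.inr (hΔp i j hij p hpd)⟩) P₀ hP₀ hPr
      rw [← hL] at h1
      rw [hw]
      calc (P₀.card : ℝ) ≤ _ := h1
        _ = _ := by ring)
    P' (by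
      intro q hq
      rw [hP', mem_filter] at hq
      obtain ⟨e1, e2, e3, e4, e5, e6⟩ := hP q hq.1
      exact ⟨e1, e2, hq.2.1, hq.2.2, e4, e5, e6⟩)
  have hKr : (0 : ℝ) < K := by exact_mod_cast hK1
  have h1 : C₁ * w * (Q.totient * (2 * K / Q * Q.totient)) ≤ 2 * C₁ * C' * (Y / L) := by
    have e1 : C₁ * w * (Q.totient * (2 * K / Q * Q.totient)) = 2 * C₁ * K * (Y / L ^ 2) := by
      rw [hw]
      field_simp
    rw [e1]
    calc 2 * C₁ * K * (Y / L ^ 2) ≤ 2 * C₁ * (C' * L) * (Y / L ^ 2) := by gcongr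
      _ = _ := by field_simp
  have h2 : P.card ≤ P'.card + (Q + Z) * K := by
    have h3 : P ⊆ P' ∪ ((Ioc y (y + Q) ∪ Icc 1 Z) ×ˢ Icc 1 K) := by
      intro q hq
      obtain ⟨e1, e2, e3, e4, e5, e6⟩ := hP q hq
      have e7 := e1.one_lt
      rw [mem_union, hP', mem_filter, mem_product, mem_union, mem_Ioc, mem_Icc, mem_Icc]
      by_cases h4 : y + Q < q.1 ∧ Z < q.1
      · left; exact ⟨hq, h4⟩
      · right; omega
    calc P.card ≤ _ := card_le_card h3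
      _ ≤ P'.card + ((Ioc y (y + Q) ∪ Icc 1 Z) ×ˢ Icc 1 K).card := card_union_le _ _
      _ ≤ _ := by
        rw [card_product, Nat.card_Icc, Nat.add_sub_cancel]
        have := card_union_le (Ioc y (y + Q)) (Icc 1 Z)
        rw [Nat.card_Ioc, Nat.card_Icc, Nat.add_sub_cancel_left, Nat.add_sub_cancel] at this
        have := Nat.mul_le_mul_right K this
        omega
  have h3 : ((Q + Z) * K : ℝ) ≤ Y / L := by
    have h4 : (Z : ℝ) ^ 2 ≤ Y := by exact_mod_cast hZ2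
    rw [le_div_iff₀ hL0]
    have h5 : (Q : ℝ) + Z ≤ 2 * Z := by
      have : (Q : ℝ) ≤ Z := by exact_mod_cast hQZ
      linarith
    calc ((Q : ℝ) + Z) * K * L ≤ (2 * Z) * (L ^ 2) * L := by gcongr
      _ = Z * (2 * L ^ 3) := by ring
      _ ≤ Z * Z := by gcongr
      _ = (Z : ℝ) ^ 2 := by ring
      _ ≤ Y := h4
  have h4 : (P.card : ℝ) ≤ P'.card + (Q + Z) * K := by exact_mod_cast h2
  have h5 : (Y : ℝ) / L ≤ 3 * (Y / l) := by
    rw [div_le_iff₀ hL0, mul_assoc, div_mul_eq_mul_div, ← mul_div_assoc, le_div_iff₀ hl0]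
    calc (Y : ℝ) * l ≤ Y * (3 * L) := by gcongr
      _ = _ := by ring
  calc (P.card : ℝ) ≤ 2 * C₁ * C' * (Y / L) + Y / L := by linarith
    _ = (2 * C₁ * C' + 1) * (Y / L) := by ring
    _ ≤ (2 * C₁ * C' + 1) * (3 * (Y / l)) := by gcongr
    _ = _ := by ring

end Pool.Agent.Y880.RS.P3
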