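import Pool.Agent.Y880.RS.P3f
import Pool.Agent.Y880.RS.P3h

/-!
The primes at logarithmic distance from almost every prime recur along progressions.
-/

set_option autoImplicit false

open Finset

namespace Pool.Agent.Y880.RS.P3

/-- `p` is a term of a `k`-term progression of elements of `S` with difference at most `D`, such that the primes
within distance `H` of its terms are the same up to translation -/
def Rec (k : ℕ) (D H : ℝ) (S : Finset ℕ) (p : ℕ) : Prop :=
  ∃ a d : ℕ, 1 ≤ d ∧ (d : ℝ) ≤ D ∧ (∀ j < k, a + j * d ∈ S) ∧ (∃ j < k, p = a + j * d) ∧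
    ∀ i < k, ∀ j < k, ∀ u : ℕ, (u : ℝ) ≤ H → ((a + i * d + u).Prime ↔ (a + j * d + u).Prime) ∧
      ((a + i * d - u).Prime ↔ (a + j * d - u).Prime)

theorem Hn_inj {m p : ℕ} (hp : p.Prime) : Function.Injective (Hn m p) := by
  intro i j hij
  obtain ⟨_, e2⟩ := Hn_spec hp i
  obtain ⟨_, e4⟩ := Hn_spec hp j
  rw [hij] at e2
  have e5 := nx_mono.injective (e2.symm.trans e4)
  exact Fin.ext (by omega)

/-- the first index of the window, its number of elements and the position of `p` -/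
theorem window (K p : ℕ) (hp : p.Prime) (hK : K < p) :
    ∃ n₀ m ι : ℕ, ι ≤ m ∧ p = nx (n₀ + ι) ∧ p - K ≤ nx n₀ ∧ nx (n₀ + m) ≤ p + K ∧
      (∀ q : ℕ, q.Prime → p - K ≤ q → q ≤ p + K → ∃ i ≤ m, q = nx (n₀ + i)) ∧
      m = (((Icc (p - K) (p + K)).filter Nat.Prime).erase p).card := by
  obtain ⟨n₀, hn₀⟩ : ∃ n₀, n₀ = Nat.count Nat.Prime (p - K) := ⟨_, rfl⟩
  obtain ⟨n₁, hn₁⟩ : ∃ n₁, n₁ = Nat.count Nat.Prime (p + K + 1) := ⟨_, rfl⟩
  have h0 : n₀ ≤ Nat.count Nat.Prime p := by rw [hn₀]; exact Nat.count_monotone _ (by omega)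
  have h1 : Nat.count Nat.Prime p < n₁ := by
    rw [hn₁]; exact Nat.count_strict_mono hp (by omega)
  have hlow : p - K ≤ nx n₀ := by
    rw [hn₀]
    exact (Nat.count_le_iff_le_nth Nat.infinite_setOfPred_prime).1 le_rfl
  have hall : ∀ q : ℕ, q.Prime → p - K ≤ q → q ≤ p + K → ∃ i ≤ n₁ - 1 - n₀, q = nx (n₀ + i) := by
    intro q hq h2 h3
    have h4 : n₀ ≤ Nat.count Nat.Prime q := by rw [hn₀]; exact Nat.count_monotone _ h2
    have h5 : Nat.count Nat.Prime q < n₁ := by rw [hn₁]; exact Nat.count_strict_mono hq (by omega)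
    refine ⟨Nat.count Nat.Prime q - n₀, by omega, ?_⟩
    rw [Nat.add_sub_cancel' h4, nx_count hq]
  have hupp : ∀ i ≤ n₁ - 1 - n₀, nx (n₀ + i) ≤ p + K := by
    intro i hi
    have h2 : n₀ + i < Nat.count Nat.Prime (p + K + 1) := by omega
    have := Nat.nth_lt_of_lt_count h2
    unfold nx
    omega
  refine ⟨n₀, n₁ - 1 - n₀, Nat.count Nat.Prime p - n₀, by omega, ?_, hlow, hupp _ le_rfl, hall, ?_⟩
  · rw [Nat.add_sub_cancel' h0, nx_count hp]
  · have h2 : (Icc (p - K) (p + K)).filter Nat.Prime = (range (n₁ - n₀)).image (fun i => nx (n₀ + i)) := by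
      ext q
      rw [mem_filter, mem_Icc, mem_image]
      constructor
      · rintro ⟨⟨h3, h4⟩, h5⟩
        obtain ⟨i, hi, rfl⟩ := hall q h5 h3 h4
        exact ⟨i, mem_range.2 (by omega), rfl⟩
      · rintro ⟨i, hi, rfl⟩
        rw [mem_range] at hi
        refine ⟨⟨hlow.trans (nx_mono.monotone (by omega)), hupp i (by omega)⟩, nx_prime _⟩
    rw [card_erase_of_mem (by
      rw [mem_filter, mem_Icc]
      exact ⟨⟨by omega, by omega⟩, hp⟩), h2, card_image_of_injective _ (fun i j hij => by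
        have := nx_mono.injective hij
        omega), card_range]
    omega

theorem windows (k A : ℕ) (hk : 1 ≤ k) (hA : 1 ≤ A) (ε C : ℝ) (hε : 0 < ε) :
    ∃ B Y₀ : ℕ, ∀ y Y : ℕ, Y₀ ≤ Y → y + Y ≤ Y ^ A → ∀ S ⊆ Ioc y (y + Y), (∀ p ∈ S, p.Prime) →
    ∀ E ⊆ S, (∀ p ∈ E, ¬ Rec k (Real.log Y ^ B) (C * Real.log Y) S p) → (E.card : ℝ) ≤ ε * (Y / Real.log Y) := by
  classical
  obtain ⟨C₀, hC₀⟩ : ∃ C₀ : ℝ, C₀ = 2 * (|C| + 2) := ⟨_, rfl⟩
  have hCa := abs_nonneg C
  have hC₀2 : 4 ≤ C₀ := by rw [hC₀]; linarith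
  obtain ⟨C', hC'0, Y₁, hpairs⟩ := pairs_bound A hA C₀ (by linarith)
  obtain ⟨M, hM⟩ := exists_nat_gt (8 * C' / ε)
  have hM0 : (0 : ℝ) < M := lt_trans (by positivity) hM
  obtain ⟨δ', hδ'⟩ : ∃ δ', δ' = ε / (2 * ((M : ℝ) + 1) ^ 2) := ⟨_, rfl⟩
  have hδ'0 : 0 < δ' := by rw [hδ']; positivity
  choose B c hc Y₂ hmain using fun m : ℕ => pat_main (k + 1) m A (by omega) hA δ' C₀ hδ'0 (by linarith)
  obtain ⟨Y₃, hY₃⟩ := log_ev 1
  obtain ⟨Y₄, hY₄⟩ := plog_ev 2 (4 * C₀ / ε)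
  refine ⟨∑ m ∈ range (M + 1), B m, max (max Y₁ (∑ m ∈ range (M + 1), Y₂ m)) (max Y₃ (max Y₄ 2)), ?_⟩
  intro y Y hY hyY S hS hSp E hE hEr
  have hY1 : Y₁ ≤ Y := ((le_max_left _ _).trans (le_max_left _ _)).trans hY
  have hY2 : ∑ m ∈ range (M + 1), Y₂ m ≤ Y := ((le_max_right _ _).trans (le_max_left _ _)).trans hY
  have hY3 : Y₃ ≤ Y := ((le_max_left _ _).trans (le_max_right _ _)).trans hY
  have hY4 : Y₄ ≤ Y := (((le_max_left _ _).trans (le_max_right _ _)).trans (le_max_right _ _)).trans hY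
  have hY5 : 2 ≤ Y := (((le_max_right _ _).trans (le_max_right _ _)).trans (le_max_right _ _)).trans hY
  obtain ⟨l, hl⟩ : ∃ l, l = Real.log Y := ⟨_, rfl⟩
  have hl1 := hY₃ Y hY3
  have hlY := hY₄ Y hY4
  rw [← hl] at hl1 hlY hEr ⊢
  have hl0 : 0 < l := by linarith
  have hY0 : (0 : ℝ) < Y := by
    have : 0 < Y := by omega
    exact_mod_cast this
  obtain ⟨K, hK⟩ : ∃ K, K = ⌈(|C| + 1) * l⌉₊ := ⟨_, rfl⟩
  have hKlo : (|C| + 1) * l ≤ K := by rw [hK]; exact Nat.le_ceil _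
  have hKhi : (K : ℝ) ≤ (|C| + 2) * l := by
    have := (Nat.ceil_lt_add_one (show 0 ≤ (|C| + 1) * l by positivity)).le
    rw [← hK] at this
    calc (K : ℝ) ≤ (|C| + 1) * l + 1 := this
      _ ≤ (|C| + 1) * l + l := by linarith
      _ = _ := by ring
  have hKl : l ≤ K := by
    refine le_trans ?_ hKlo
    have : 0 ≤ |C| * l := by positivity
    linarith
  have hCK : C * l ≤ K := by
    refine le_trans ?_ hKlo
    have : C * l ≤ |C| * l := by gcongr; exact le_abs_self C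
    linarith
  have hK2hi : ((2 * K : ℕ) : ℝ) ≤ C₀ * l := by
    push_cast
    rw [hC₀]
    linarith
  have hKC₀ : (K : ℝ) ≤ C₀ * l := by
    push_cast at hK2hi
    have : (0 : ℝ) ≤ K := Nat.cast_nonneg K
    linarith
  -- suppose that `E` is large
  by_contra hcon
  push Not at hcon
  obtain ⟨E₁, hE₁⟩ : ∃ E₁, E₁ = E.filter (fun p => y + K < p) := ⟨_, rfl⟩
  have hE₁m : ∀ p, p ∈ E₁ ↔ p ∈ E ∧ y + K < p := by intro p; rw [hE₁, mem_filter]
  have hE₁I : ∀ p ∈ E₁, p.Prime ∧ y + K < p ∧ p ≤ y + Y := by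
    intro p hp
    rw [hE₁m] at hp
    exact ⟨hSp p (hE hp.1), hp.2, (mem_Ioc.1 (hS (hE hp.1))).2⟩
  obtain ⟨wn, hwn⟩ : ∃ wn : ℕ → ℕ, wn = fun p => (((Icc (p - K) (p + K)).filter Nat.Prime).erase p).card := ⟨_, rfl⟩
  -- few primes with many primes in the window
  have hwsum : ((∑ p ∈ E₁, wn p : ℕ) : ℝ) ≤ 2 * (C' * (Y / l)) := by
    obtain ⟨P1, hP1⟩ : ∃ P1 : Finset (ℕ × ℕ), P1 = (E₁ ×ˢ Icc 1 K).filter (fun q => (q.1 + q.2).Prime) := ⟨_, rfl⟩
    obtain ⟨P2, hP2⟩ : ∃ P2 : Finset (ℕ × ℕ), P2 = (E₁ ×ˢ Icc 1 K).filter (fun q => (q.1 - q.2).Prime) := ⟨_, rfl⟩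
    have hb1 : (P1.card : ℝ) ≤ C' * (Y / l) := by
      have := hpairs y Y K hY1 hyY (by rw [← hl]; exact hKl) (by rw [← hl]; exact hKC₀) P1 (by
        intro q hq
        rw [hP1, mem_filter, mem_product, mem_Icc] at hq
        obtain ⟨e1, e2, e3⟩ := hE₁I q.1 hq.1.1
        exact ⟨e1, hq.2, by omega, e3, hq.1.2.1, hq.1.2.2⟩)
      rwa [← hl] at this
    have hb2 : (P2.card : ℝ) ≤ C' * (Y / l) := by
      have h1 : (P2.image (fun q => (q.1 - q.2, q.2))).card = P2.card := by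
        apply card_image_of_injOn
        rintro ⟨p, u⟩ hq ⟨p', u'⟩ hq' e
        rw [mem_coe, hP2, mem_filter, mem_product, mem_Icc] at hq hq'
        simp only [Prod.mk.injEq] at e hq hq' ⊢
        have e1 := (hE₁I p hq.1.1).2.1
        have e2 := (hE₁I p' hq'.1.1).2.1
        omega
      have := hpairs y Y K hY1 hyY (by rw [← hl]; exact hKl) (by rw [← hl]; exact hKC₀)
        (P2.image (fun q => (q.1 - q.2, q.2))) (by
        intro q hq
        rw [mem_image] at hq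
        obtain ⟨⟨p, u⟩, hq, rfl⟩ := hq
        rw [hP2, mem_filter, mem_product, mem_Icc] at hq
        simp only at hq ⊢
        obtain ⟨e1, e2, e3⟩ := hE₁I p hq.1.1
        refine ⟨hq.2, ?_, by omega, by omega, hq.1.2.1, hq.1.2.2⟩
        rw [Nat.sub_add_cancel (by omega)]
        exact e1)
      rw [h1, ← hl] at this
      exact this
    have h1 : ∑ p ∈ E₁, wn p ≤ P1.card + P2.card := by
      have h2 : P1.card = ∑ p ∈ E₁, ((Icc 1 K).filter (fun u => (p + u).Prime)).card := by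
        rw [hP1, card_filter, sum_product]
        apply sum_congr rfl
        intro p _
        rw [card_filter]
      have h3 : P2.card = ∑ p ∈ E₁, ((Icc 1 K).filter (fun u => (p - u).Prime)).card := by
        rw [hP2, card_filter, sum_product]
        apply sum_congr rfl
        intro p _
        rw [card_filter]
      rw [h2, h3, ← sum_add_distrib]
      apply sum_le_sum
      intro p hp
      have e1 := (hE₁I p hp).2.1
      rw [hwn]
      simp only
      have h4 : ((Icc (p - K) (p + K)).filter Nat.Prime).erase p ⊆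
          ((Icc 1 K).filter (fun u => (p + u).Prime)).image (fun u => p + u) ∪
          ((Icc 1 K).filter (fun u => (p - u).Prime)).image (fun u => p - u) := by
        intro q hq
        rw [mem_erase, mem_filter, mem_Icc] at hq
        rw [mem_union, mem_image, mem_image]
        rcases Nat.lt_or_ge q p with h5 | h5
        · right
          refine ⟨p - q, ?_, by omega⟩
          rw [mem_filter, mem_Icc]
          refine ⟨⟨by omega, by omega⟩, ?_⟩
          rw [Nat.sub_sub_self h5.le]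
          exact hq.2.2
        · left
          refine ⟨q - p, ?_, by omega⟩
          rw [mem_filter, mem_Icc]
          have h6 := hq.1
          refine ⟨⟨by omega, by omega⟩, ?_⟩
          rw [Nat.add_sub_cancel' h5]
          exact hq.2.2
      calc _ ≤ _ := card_le_card h4
        _ ≤ _ := card_union_le _ _
        _ ≤ _ := add_le_add card_image_le card_image_le
    have h2 : ((∑ p ∈ E₁, wn p : ℕ) : ℝ) ≤ P1.card + P2.card := by exact_mod_cast h1
    linarith
  obtain ⟨E₂, hE₂⟩ : ∃ E₂, E₂ = E₁.filter (fun p => wn p ≤ M) := ⟨_, rfl⟩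
  have hE₂m : ∀ p, p ∈ E₂ ↔ p ∈ E₁ ∧ wn p ≤ M := by intro p; rw [hE₂, mem_filter]
  have hE₂c : ε / 2 * (Y / l) ≤ E₂.card := by
    have h1 : E.card ≤ E₁.card + K := by
      have h2 : E ⊆ E₁ ∪ Ioc y (y + K) := by
        intro p hp
        have := mem_Ioc.1 (hS (hE hp))
        rw [mem_union, hE₁m, mem_Ioc]
        by_cases h3 : y + K < p
        · left; exact ⟨hp, h3⟩
        · right; omega
      calc E.card ≤ _ := card_le_card h2
        _ ≤ _ := card_union_le _ _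
        _ = _ := by rw [Nat.card_Ioc]; omega
    have h2 := card_filter_add_card_filter_not (s := E₁) (fun p => wn p ≤ M)
    rw [← hE₂] at h2
    obtain ⟨F, hF⟩ : ∃ F, F = E₁.filter (fun p => ¬ wn p ≤ M) := ⟨_, rfl⟩
    rw [← hF] at h2
    have h3 : (F.card : ℝ) * M ≤ 2 * (C' * (Y / l)) := by
      refine le_trans ?_ hwsum
      have : F.card * M ≤ ∑ p ∈ E₁, wn p := by
        calc F.card * M = ∑ _p ∈ F, M := by rw [sum_const, smul_eq_mul]
          _ ≤ ∑ p ∈ F, wn p := by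
              apply sum_le_sum
              intro p hp
              rw [hF, mem_filter] at hp
              exact (not_le.1 hp.2).le
          _ ≤ _ := by
              apply sum_le_sum_of_subset
              rw [hF]
              exact filter_subset _ _
      exact_mod_cast this
    have h4 : (F.card : ℝ) ≤ ε / 4 * (Y / l) := by
      have h5 : 8 * C' ≤ ε * M := by
        rw [div_lt_iff₀ hε] at hM
        linarith
      have h6 : 2 * (C' * (Y / l)) ≤ ε / 4 * (Y / l) * M := by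
        have h7 : 0 ≤ (Y : ℝ) / l := by positivity
        nlinarith
      exact le_of_mul_le_mul_right (h3.trans h6) hM0
    have h5 : (K : ℝ) ≤ ε / 4 * (Y / l) := by
      rw [← mul_div_assoc, le_div_iff₀ hl0]
      have h6 : 4 * C₀ * l ^ 2 ≤ ε * Y := by
        rw [div_mul_eq_mul_div, div_le_iff₀ hε] at hlY
        linarith
      calc (K : ℝ) * l ≤ C₀ * l * l := by gcongr
        _ = (4 * C₀ * l ^ 2) / 4 := by ring
        _ ≤ (ε * Y) / 4 := by gcongr
        _ = _ := by ring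
    have h6 : (E.card : ℝ) ≤ E₁.card + K := by exact_mod_cast h1
    have h7 : (E₂.card : ℝ) + F.card = E₁.card := by exact_mod_cast h2
    have h8 : ε * (Y / l) = ε / 2 * (Y / l) + ε / 4 * (Y / l) + ε / 4 * (Y / l) := by ring
    linarith
  -- the windows
  have hwin : ∀ p ∈ E₂, ∃ n₀ m ι : ℕ, ι ≤ m ∧ p = nx (n₀ + ι) ∧ p - K ≤ nx n₀ ∧ nx (n₀ + m) ≤ p + K ∧
      (∀ q : ℕ, q.Prime → p - K ≤ q → q ≤ p + K → ∃ i ≤ m, q = nx (n₀ + i)) ∧ m ≤ M := by
    intro p hp
    rw [hE₂m] at hp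
    obtain ⟨e1, e2, e3⟩ := hE₁I p hp.1
    obtain ⟨n₀, m, ι, f1, f2, f3, f4, f5, f6⟩ := window K p e1 (by omega)
    refine ⟨n₀, m, ι, f1, f2, f3, f4, f5, ?_⟩
    rw [f6]
    have := hp.2
    rw [hwn] at this
    exact this
  choose! n₀ mm ι hι hpn hlow hupp hall hmM using hwin
  obtain ⟨t, ht, hfib⟩ := exists_le_card_fiber_of_nsmul_le_card_of_maps_to
    (s := E₂) (t := range (M + 1) ×ˢ range (M + 1)) (f := fun p => (mm p, ι p))
    (b := (ε / 2 * (Y / l)) / (((M : ℝ) + 1) ^ 2)) (by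
      intro p hp
      rw [mem_product, mem_range, mem_range]
      have := hι p hp
      have := hmM p hp
      simp only
      omega) (by
      exact ⟨(0, 0), by rw [mem_product, mem_range]; simp⟩) (by
      rw [card_product, card_range, nsmul_eq_mul]
      push_cast
      have : ((M : ℝ) + 1) * (M + 1) * (ε / 2 * (Y / l) / (((M : ℝ) + 1) ^ 2)) = ε / 2 * (Y / l) := by
        field_simp
      rw [this]
      exact hE₂c)
  obtain ⟨m, ι₀⟩ := t
  rw [mem_product, mem_range, mem_range] at ht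
  obtain ⟨E₃, hE₃⟩ : ∃ E₃, E₃ = E₂.filter (fun p => (mm p, ι p) = (m, ι₀)) := ⟨_, rfl⟩
  rw [← hE₃] at hfib
  have hE₃m : ∀ p, p ∈ E₃ → p ∈ E₂ ∧ mm p = m ∧ ι p = ι₀ := by
    intro p hp
    rw [hE₃, mem_filter, Prod.mk.injEq] at hp
    exact hp
  have hE₃c : δ' * (Y / l) ≤ E₃.card := by
    refine le_trans (le_of_eq ?_) hfib
    rw [hδ']
    field_simp
  -- the bases
  obtain ⟨S₃, hS₃⟩ : ∃ S₃, S₃ = E₃.image (fun p => nx (n₀ p)) := ⟨_, rfl⟩
  have hcnt : ∀ n, Nat.count Nat.Prime (nx n) = n := by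
    intro n
    have := nx_count (nx_prime n)
    exact nx_mono.injective this
  have hS₃c : S₃.card = E₃.card := by
    rw [hS₃]
    apply card_image_of_injOn
    intro p hp q hq e
    have e1 := nx_mono.injective e
    obtain ⟨f1, f2, f3⟩ := hE₃m p hp
    obtain ⟨g1, g2, g3⟩ := hE₃m q hq
    have h1 := hpn p f1
    have h2 := hpn q g1
    rw [f3] at h1
    rw [g3] at h2
    rw [h1, h2, e1]
  have hY2m : Y₂ m ≤ Y := by
    refine le_trans ?_ hY2
    exact single_le_sum (f := Y₂) (fun _ _ => Nat.zero_le _) (mem_range.2 ht.1)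
  have hspec : ∀ p ∈ E₃, ∀ i ≤ m, nx (n₀ p) ≤ nx (n₀ p + i) ∧ nx (n₀ p + i) ≤ p + K ∧ p - K ≤ nx (n₀ p) := by
    intro p hp i hi
    obtain ⟨f1, f2, f3⟩ := hE₃m p hp
    have h1 := hupp p f1
    rw [f2] at h1
    refine ⟨nx_mono.monotone (by omega), (nx_mono.monotone (by omega)).trans h1, hlow p f1⟩
  obtain ⟨G, hGs, hGc, hG⟩ := hmain m y Y (2 * K) hY2m hyY (by
      rw [← hl]; push_cast; linarith) (by rw [← hl]; exact hK2hi) S₃ (Hn m) (by
    intro b hb
    rw [hS₃, mem_image] at hb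
    obtain ⟨p, hp, rfl⟩ := hb
    obtain ⟨f1, f2, f3⟩ := hE₃m p hp
    have f4 := (hE₂m p).1 f1
    obtain ⟨e1, e2, e3⟩ := hE₁I p f4.1
    have hι₀ : ι₀ ≤ m := by
      have := hι p f1
      omega
    have h5 := hspec p hp 0 (Nat.zero_le _)
    have h6 : nx (n₀ p) ≤ p := by
      have := hpn p f1
      conv_rhs => rw [this]
      exact nx_mono.monotone (by omega)
    refine ⟨nx_prime _, by omega, by omega, ?_, Hn_inj (nx_prime _), ?_⟩
    · rw [mem_box]
      intro i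
      obtain ⟨g1, g2⟩ := Hn_spec (nx_prime (n₀ p)) i
      rw [hcnt] at g1 g2
      have h7 := hspec p hp (i + 1) (by omega)
      rw [← add_assoc] at h7
      omega
    · intro i
      rw [(Hn_spec (nx_prime _) i).2]
      exact nx_prime _) (by rw [← hl, hS₃c]; exact hE₃c)
  rw [← hl] at hGc hG
  have hGne : G.Nonempty := by
    rw [← card_pos]
    have : (0 : ℝ) < G.card := lt_of_lt_of_le (by have := hc m; positivity) hGc
    exact_mod_cast this
  obtain ⟨h, hh⟩ := hGne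
  obtain ⟨W, hWS, hWc, hW⟩ := hG h hh
  have hWne : W.Nonempty := by
    rw [← card_pos]
    have : (0 : ℝ) < W.card := lt_of_lt_of_le (by positivity) hWc
    exact_mod_cast this
  obtain ⟨b₀, hb₀⟩ := hWne
  obtain ⟨d, hd1, hd2, hd3⟩ := hW b₀ hb₀
  -- the elements `p_j`
  have hmin : min ι₀ m < m + 1 := by omega
  obtain ⟨iv, hiv⟩ : ∃ iv : Fin (m + 1), iv = ⟨min ι₀ m, hmin⟩ := ⟨_, rfl⟩
  have hiv' : (iv : ℕ) = min ι₀ m := by rw [hiv]
  have hpj : ∀ j < k, (b₀ + ext0 h iv) + j * d ∈ E₃ ∧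
      n₀ ((b₀ + ext0 h iv) + j * d) = Nat.count Nat.Prime (b₀ + j * d) := by
    intro j hj
    obtain ⟨e1, e2⟩ := hd3 j (by omega)
    rw [hS₃, mem_image] at e1
    obtain ⟨p, hp, hpb⟩ := e1
    obtain ⟨f1, f2, f3⟩ := hE₃m p hp
    have hι₀ : ι₀ ≤ m := by
      have := hι p f1
      omega
    have h1 := hpn p f1
    rw [f3] at h1
    have hprb : (b₀ + j * d).Prime := by rw [← hpb]; exact nx_prime _
    have h2 := ext0_Hn (m := m) hprb iv
    rw [e2] at h2
    have h3 : Nat.count Nat.Prime (b₀ + j * d) = n₀ p := by rw [← hpb, hcnt]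
    have h5 : (iv : ℕ) = ι₀ := hiv'.trans (min_eq_left hι₀)
    rw [h5, h3, ← h1] at h2
    have h4 : (b₀ + ext0 h iv) + j * d = p := by
      rw [← h2]
      ring
    rw [h4]
    exact ⟨hp, h3.symm⟩
  obtain ⟨e, he⟩ : ∃ e, e = ext0 h iv := ⟨_, rfl⟩
  rw [← he] at hpj
  -- the primes near `p_j`
  have hnear : ∀ j < k, ∀ q : ℕ, (b₀ + e + j * d) - K ≤ q → q ≤ (b₀ + e + j * d) + K →
      (q.Prime ↔ ∃ i : Fin (m + 1), q = b₀ + j * d + ext0 h i) := by
    intro j hj q hq1 hq2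
    obtain ⟨g1, g2⟩ := hpj j hj
    obtain ⟨f1, f2, f3⟩ := hE₃m _ g1
    obtain ⟨e1, e2⟩ := hd3 j (by omega)
    have hprb : (b₀ + j * d).Prime := by
      rw [hS₃, mem_image] at e1
      obtain ⟨p, hp, hpb⟩ := e1
      rw [← hpb]; exact nx_prime _
    constructor
    · intro hq
      obtain ⟨i, hi, hqi⟩ := hall _ f1 q hq hq1 hq2
      rw [f2] at hi
      refine ⟨⟨i, by omega⟩, ?_⟩
      have h2 := ext0_Hn (m := m) hprb ⟨i, by omega⟩
      rw [e2] at h2
      rw [h2, hqi, g2]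
    · rintro ⟨i, rfl⟩
      have h2 := ext0_Hn (m := m) hprb i
      rw [e2] at h2
      rw [h2]
      exact nx_prime _
  have hbig : ∀ j < k, y + K < b₀ + e + j * d := by
    intro j hj
    obtain ⟨g1, _⟩ := hpj j hj
    obtain ⟨f1, _, _⟩ := hE₃m _ g1
    exact (hE₁I _ ((hE₂m _).1 f1).1).2.1
  have hmem : ∀ j < k, b₀ + e + j * d ∈ E := by
    intro j hj
    obtain ⟨g1, _⟩ := hpj j hj
    obtain ⟨f1, _, _⟩ := hE₃m _ g1
    exact ((hE₁m _).1 ((hE₂m _).1 f1).1).1
  have h00 := hmem 0 (by omega)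
  rw [zero_mul, add_zero] at h00
  refine hEr _ h00 ⟨b₀ + e, d, hd1, ?_, fun j hj => hE (hmem j hj), ⟨0, by omega, by rw [zero_mul, add_zero]⟩, ?_⟩
  · refine hd2.trans ?_
    apply pow_le_pow_right₀ hl1
    exact single_le_sum (f := B) (fun _ _ => Nat.zero_le _) (mem_range.2 ht.1)
  · have key : ∀ i < k, ∀ j < k, ∀ u : ℕ, u ≤ K → ((b₀ + e + i * d + u).Prime → (b₀ + e + j * d + u).Prime) ∧
        ((b₀ + e + i * d - u).Prime → (b₀ + e + j * d - u).Prime) := by
      intro i hi j hj u hu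
      have h1 := hbig i hi
      have h2 := hbig j hj
      constructor
      · intro h3
        rw [hnear i hi _ (by omega) (by omega)] at h3
        obtain ⟨v, hv⟩ := h3
        rw [hnear j hj _ (by omega) (by omega)]
        exact ⟨v, by omega⟩
      · intro h3
        rw [hnear i hi _ (by omega) (by omega)] at h3
        obtain ⟨v, hv⟩ := h3
        rw [hnear j hj _ (by omega) (by omega)]
        exact ⟨v, by omega⟩
    intro i hi j hj u hu
    have hu' : u ≤ K := by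
      have : (u : ℝ) ≤ K := hu.trans hCK
      exact_mod_cast this
    exact ⟨⟨(key i hi j hj u hu').1, (key j hj i hi u hu').1⟩, ⟨(key i hi j hj u hu').2, (key j hj i hi u hu').2⟩⟩

end Pool.Agent.Y880.RS.P3
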