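import Pool.Agent.Y727.PSP.Rs
import Pool.Agent.Y727.PSP.Fa
import Pool.Agent.Y674.PSP.CS
import Pool.Agent.Y317.PSP.SLF
import Pool.Agent.Y814.PSP.CNT
import Pool.Agent.Y500.PSP.Dmt
import Pool.Agent.Y46.PSP.Phi
import Pool.Agent.Y46.PSP.Var
import Pool.Agent.Y674.PSP.SEL
import Pool.Agent.Y917.PSP.Maj
import Pool.Agent.Y79.PSP.MK
import Pool.Agent.TH423.SH.FLIP
import Pool.Agent.TH423.SH.FLLP

/-!
# The relative Szemerédi theorem (project PSP), with few imports
-/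

set_option autoImplicit false

namespace Pool.Agent.Y880.RS

open Pool.Agent.Y727.PSP

/-- the relative Szemerédi theorem -/
theorem rs_thm : S_RS :=
  have hslf := Pool.Agent.Y317.PSP.slf Pool.Agent.Y674.PSP.cs
  rs hslf (Pool.Agent.Y814.PSP.cnt hslf) Pool.Agent.Y500.PSP.DMT Pool.Agent.Y46.PSP.phi
    Pool.Agent.Y46.PSP.var

end Pool.Agent.Y880.RS
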