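import Mathlib

/-!
The second moment of the number of the classes `b` with `a + f(b)` prime to `Q`.
-/

set_option autoImplicit false

open Finset Polynomial

namespace Pool.Agent.Y880.RS.Sec

/-- the value of the integral polynomial `f` at `b` -/
noncomputable def ev (f : ℤ[X]) {R : Type} [CommRing R] (b : R) : R := f.eval₂ (Int.castRingHom R) b

/-- the number of the triples `(a, b, b')` with `a + f(b)`, `a + f(b')` units -/
noncomputable def St (f : ℤ[X]) (R : Type) [CommRing R] : ℕ :=
  Nat.card {q : R × R × R // IsUnit (q.1 + ev f q.2.1) ∧ IsUnit (q.1 + ev f q.2.2)}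

theorem ev_map (f : ℤ[X]) {R R' : Type} [CommRing R] [CommRing R'] (φ : R →+* R') (b : R) :
    φ (ev f b) = ev f (φ b) := by
  unfold ev
  rw [Polynomial.hom_eval₂]
  congr 1
  exact RingHom.ext_int _ _

theorem St_equiv (f : ℤ[X]) {R R' : Type} [CommRing R] [CommRing R'] (φ : R ≃+* R') :
    St f R = St f R' := by
  unfold St
  apply Nat.card_congr
  refine Equiv.subtypeEquiv (Equiv.prodCongr φ.toEquiv (Equiv.prodCongr φ.toEquiv φ.toEquiv)) ?_
  rintro ⟨a, b, c⟩
  simp only [Equiv.prodCongr_apply, Prod.map, RingEquiv.toEquiv_eq_coe, EquivLike.coe_coe]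
  have h1 : ∀ x : R, φ a + ev f (φ x) = φ (a + ev f x) := by
    intro x
    rw [map_add]
    congr 1
    exact (ev_map f (φ : R →+* R') x).symm
  rw [h1, h1, MulEquiv.isUnit_map, MulEquiv.isUnit_map]

theorem St_prod (f : ℤ[X]) (R R' : Type) [CommRing R] [CommRing R'] :
    St f (R × R') = St f R * St f R' := by
  unfold St
  rw [← Nat.card_prod]
  apply Nat.card_congr
  have h1 : ∀ x : R × R', ev f x = (ev f x.1, ev f x.2) := by
    intro x
    apply Prod.ext
    · exact ev_map f (RingHom.fst R R') x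
    · exact ev_map f (RingHom.snd R R') x
  refine ⟨fun q => (⟨(q.1.1.1, q.1.2.1.1, q.1.2.2.1), ?_⟩, ⟨(q.1.1.2, q.1.2.1.2, q.1.2.2.2), ?_⟩),
    fun q => ⟨((q.1.1.1, q.2.1.1), (q.1.1.2.1, q.2.1.2.1), (q.1.1.2.2, q.2.1.2.2)), ?_⟩, ?_, ?_⟩
  · obtain ⟨⟨a, b, c⟩, h2, h3⟩ := q
    simp only at h2 h3 ⊢
    rw [h1] at h2 h3
    rw [Prod.isUnit_iff] at h2 h3
    exact ⟨h2.1, h3.1⟩
  · obtain ⟨⟨a, b, c⟩, h2, h3⟩ := q
    simp only at h2 h3 ⊢
    rw [h1] at h2 h3
    rw [Prod.isUnit_iff] at h2 h3
    exact ⟨h2.2, h3.2⟩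
  · obtain ⟨⟨⟨a, b, c⟩, h2, h3⟩, ⟨⟨a', b', c'⟩, h4, h5⟩⟩ := q
    simp only at h2 h3 h4 h5 ⊢
    rw [h1, h1, Prod.isUnit_iff, Prod.isUnit_iff]
    exact ⟨⟨h2, h4⟩, ⟨h3, h5⟩⟩
  · intro q
    rfl
  · intro q
    rfl

theorem St_one (f : ℤ[X]) : St f (ZMod 1) = 1 := by
  unfold St
  rw [Nat.card_eq_one_iff_unique]
  constructor
  · constructor
    rintro ⟨a, ha⟩ ⟨b, hb⟩
    apply Subtype.ext
    exact Subsingleton.elim _ _
  · exact ⟨⟨(0, 0, 0), isUnit_of_subsingleton _, isUnit_of_subsingleton _⟩⟩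

theorem St_mul (f : ℤ[X]) (m n : ℕ) (h : m.Coprime n) :
    St f (ZMod (m * n)) = St f (ZMod m) * St f (ZMod n) := by
  rw [St_equiv f (ZMod.chineseRemainder h), St_prod]

theorem St_primes (f : ℤ[X]) (s : Finset ℕ) (hs : ∀ p ∈ s, p.Prime) :
    St f (ZMod (∏ p ∈ s, p)) = ∏ p ∈ s, St f (ZMod p) := by
  classical
  induction s using Finset.induction_on with
  | empty => rw [prod_empty, prod_empty, St_one]
  | insert a s ha ih =>
    rw [prod_insert ha, prod_insert ha, St_mul, ih fun p hp => hs p (mem_insert_of_mem hp)]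
    apply Nat.Coprime.prod_right
    intro p hp
    rw [Nat.coprime_primes (hs a (mem_insert_self a s)) (hs p (mem_insert_of_mem hp))]
    rintro rfl
    exact ha hp

theorem St_le (f : ℤ[X]) (p : ℕ) [Fact p.Prime] : St f (ZMod p) ≤ p ^ 3 := by
  unfold St
  refine (Nat.card_le_card_of_injective (fun q => q.1) Subtype.val_injective).trans ?_
  rw [Nat.card_prod, Nat.card_prod, Nat.card_eq_fintype_card, ZMod.card]
  exact le_of_eq (by ring)

/-- the pairs with equal values -/
theorem card_eqv (f : ℤ[X]) (p : ℕ) [Fact p.Prime] (hp : ¬ (p : ℤ) ∣ f.leadingCoeff)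
    (hf : f.natDegree ≠ 0) :
    ((univ : Finset (ZMod p × ZMod p)).filter (fun q => ev f q.1 = ev f q.2)).card ≤ f.natDegree * p := by
  classical
  have h1 : ((univ : Finset (ZMod p × ZMod p)).filter (fun q => ev f q.1 = ev f q.2)).card =
      ∑ b : ZMod p, ((univ : Finset (ZMod p)).filter (fun c => ev f c = ev f b)).card := by
    rw [card_filter, Fintype.sum_prod_type, sum_comm]
    apply sum_congr rfl
    intro b _
    rw [card_filter]
  rw [h1]
  have h2 : ∀ b : ZMod p, ((univ : Finset (ZMod p)).filter (fun c => ev f c = ev f b)).card ≤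
      f.natDegree := by
    intro b
    obtain ⟨g, hg⟩ : ∃ g, g = f.map (Int.castRingHom (ZMod p)) := ⟨_, rfl⟩
    have hlc : (Int.castRingHom (ZMod p)) f.leadingCoeff ≠ 0 := by
      rw [eq_intCast, Ne, ZMod.intCast_zmod_eq_zero_iff_dvd]
      exact hp
    have hdeg : g.natDegree = f.natDegree := by
      rw [hg]
      exact Polynomial.natDegree_map_of_leadingCoeff_ne_zero _ hlc
    have hne : g - C (ev f b) ≠ 0 := by
      intro h
      rw [sub_eq_zero] at h
      rw [h, natDegree_C] at hdeg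
      exact hf hdeg.symm
    have h3 : ((univ : Finset (ZMod p)).filter (fun c => ev f c = ev f b)) ⊆
        (g - C (ev f b)).roots.toFinset := by
      intro c hc
      rw [mem_filter] at hc
      rw [Multiset.mem_toFinset, mem_roots hne, IsRoot.def, eval_sub, eval_C, hg, eval_map]
      have : eval₂ (Int.castRingHom (ZMod p)) c f = ev f c := rfl
      rw [this, hc.2, sub_self]
    calc _ ≤ (g - C (ev f b)).roots.toFinset.card := card_le_card h3
      _ ≤ Multiset.card (g - C (ev f b)).roots := Multiset.toFinset_card_le _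
      _ ≤ (g - C (ev f b)).natDegree := card_roots' _
      _ ≤ f.natDegree := by
        rw [natDegree_sub_C, hdeg]
  calc _ ≤ ∑ _b : ZMod p, f.natDegree := sum_le_sum fun b _ => h2 b
    _ = _ := by rw [sum_const, card_univ, ZMod.card, smul_eq_mul, mul_comm]

theorem St_prime (f : ℤ[X]) (p : ℕ) [Fact p.Prime] (hp : ¬ (p : ℤ) ∣ f.leadingCoeff)
    (hf : f.natDegree ≠ 0) : (St f (ZMod p) : ℝ) ≤ p * ((p : ℝ) - 1) ^ 2 + f.natDegree * p := by
  classical
  have hp2 : 2 ≤ p := (Fact.out : p.Prime).two_le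
  have h1 : St f (ZMod p) = ∑ q : ZMod p × ZMod p,
      ((univ : Finset (ZMod p)).filter (fun a => a ≠ -ev f q.1 ∧ a ≠ -ev f q.2)).card := by
    unfold St
    rw [Nat.card_eq_fintype_card, Fintype.card_subtype, card_filter, Fintype.sum_prod_type, sum_comm]
    apply sum_congr rfl
    intro q _
    rw [card_filter]
    apply sum_congr rfl
    intro a _
    have e : ∀ x : ZMod p, IsUnit (a + x) ↔ a ≠ -x := by
      intro x
      rw [isUnit_iff_ne_zero, Ne, Ne, add_eq_zero_iff_eq_neg]
    simp only [e]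
  have h2 : ∀ q : ZMod p × ZMod p,
      (((univ : Finset (ZMod p)).filter (fun a => a ≠ -ev f q.1 ∧ a ≠ -ev f q.2)).card : ℝ) ≤
      ((p : ℝ) - 2) + (if ev f q.1 = ev f q.2 then 1 else 0) := by
    intro q
    have e1 : (univ : Finset (ZMod p)).filter (fun a => a ≠ -ev f q.1 ∧ a ≠ -ev f q.2) =
        univ \ {-ev f q.1, -ev f q.2} := by
      ext a
      simp only [mem_filter, mem_univ, true_and, mem_sdiff, mem_insert, mem_singleton, not_or]
    rw [e1, card_sdiff_of_subset (subset_univ _), card_univ, ZMod.card]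
    split_ifs with h
    · rw [h, pair_eq_singleton, card_singleton, Nat.cast_sub (by omega)]
      push_cast
      linarith
    · rw [card_pair (by intro h3; exact h (neg_injective h3)), Nat.cast_sub hp2]
      push_cast
      linarith
  have h3 : (St f (ZMod p) : ℝ) ≤ ∑ q : ZMod p × ZMod p,
      (((p : ℝ) - 2) + (if ev f q.1 = ev f q.2 then 1 else 0)) := by
    rw [h1, Nat.cast_sum]
    exact sum_le_sum fun q _ => h2 q
  rw [sum_add_distrib, sum_const, card_univ, Fintype.card_prod, ZMod.card, ← Finset.sum_filter, sum_const,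
    nsmul_eq_mul, nsmul_eq_mul, mul_one] at h3
  have h4 : ((((univ : Finset (ZMod p × ZMod p)).filter (fun q => ev f q.1 = ev f q.2)).card : ℕ) : ℝ) ≤
      ((f.natDegree * p : ℕ) : ℝ) := by exact_mod_cast card_eqv f p hp hf
  push_cast at h3 h4
  have hp0 : (0 : ℝ) ≤ p := Nat.cast_nonneg p
  nlinarith

/-- the second moment -/
theorem second (f : ℤ[X]) (hf : f.natDegree ≠ 0) : ∃ C : ℝ, 0 < C ∧ ∀ m : ℕ,
    (St f (ZMod (primorial m)) : ℝ) ≤ C * ((primorial m : ℝ) * ((primorial m).totient : ℝ) ^ 2) := by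
  classical
  obtain ⟨a, ha⟩ : ∃ a : ℕ, a = f.leadingCoeff.natAbs := ⟨_, rfl⟩
  have ha0 : a ≠ 0 := by
    rw [ha, Int.natAbs_ne_zero, Polynomial.leadingCoeff_ne_zero]
    intro h
    rw [h, natDegree_zero] at hf
    exact hf rfl
  refine ⟨4 ^ a * Real.exp (2 * f.natDegree), by positivity, fun m => ?_⟩
  obtain ⟨s, hs⟩ : ∃ s, s = (range (m + 1)).filter Nat.Prime := ⟨_, rfl⟩
  have hsp : ∀ p ∈ s, p.Prime := fun p hp => by
    rw [hs, mem_filter] at hp
    exact hp.2
  have hprim : primorial m = ∏ p ∈ s, p := by rw [hs]; rfl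
  rw [hprim, St_primes f s hsp]
  have htot : ((∏ p ∈ s, p).totient : ℝ) = ∏ p ∈ s, ((p : ℝ) - 1) := by
    have h1 : ∀ s' ⊆ s, ((∏ p ∈ s', p).totient : ℝ) = ∏ p ∈ s', ((p : ℝ) - 1) := by
      intro s'
      induction s' using Finset.induction_on with
      | empty => intro _; simp
      | insert b s' hb ih =>
        intro hsub
        rw [prod_insert hb, prod_insert hb, Nat.totient_mul, Nat.cast_mul,
          ih (fun p hp => hsub (mem_insert_of_mem hp)),
          Nat.totient_prime (hsp b (hsub (mem_insert_self b s'))), Nat.cast_sub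
            (hsp b (hsub (mem_insert_self b s'))).one_lt.le, Nat.cast_one]
        apply Nat.Coprime.prod_right
        intro p hp
        rw [Nat.coprime_primes (hsp b (hsub (mem_insert_self b s'))) (hsp p (hsub (mem_insert_of_mem hp)))]
        rintro rfl
        exact hb hp
    exact h1 s subset_rfl
  rw [htot]
  push_cast
  have hfac : ∀ p ∈ s, (St f (ZMod p) : ℝ) ≤
      ((if p ≤ a then 4 else 1) * Real.exp (f.natDegree * (1 / ((p : ℝ) - 1) ^ 2))) *
        ((p : ℝ) * ((p : ℝ) - 1) ^ 2) := by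
    intro p hp
    have hpp := hsp p hp
    have : Fact p.Prime := ⟨hpp⟩
    have hp2 : (2 : ℝ) ≤ p := by exact_mod_cast hpp.two_le
    have hp1 : (0 : ℝ) < (p : ℝ) - 1 := by linarith
    have hexp : 1 + f.natDegree * (1 / ((p : ℝ) - 1) ^ 2) ≤
        Real.exp (f.natDegree * (1 / ((p : ℝ) - 1) ^ 2)) := by
      have := Real.add_one_le_exp (f.natDegree * (1 / ((p : ℝ) - 1) ^ 2))
      linarith
    split_ifs with h
    · have h1 : (St f (ZMod p) : ℝ) ≤ (p : ℝ) ^ 3 := by exact_mod_cast St_le f p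
      have h2 : (p : ℝ) ^ 3 ≤ 4 * (p * ((p : ℝ) - 1) ^ 2) := by
        have : (p : ℝ) ^ 2 ≤ 4 * ((p : ℝ) - 1) ^ 2 := by nlinarith
        calc (p : ℝ) ^ 3 = p * (p : ℝ) ^ 2 := by ring
          _ ≤ p * (4 * ((p : ℝ) - 1) ^ 2) := by gcongr
          _ = _ := by ring
      have h3 : 1 ≤ Real.exp (f.natDegree * (1 / ((p : ℝ) - 1) ^ 2)) := Real.one_le_exp (by positivity)
      calc (St f (ZMod p) : ℝ) ≤ 4 * (p * ((p : ℝ) - 1) ^ 2) := h1.trans h2
        _ = (4 * 1) * (p * ((p : ℝ) - 1) ^ 2) := by ring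
        _ ≤ _ := by gcongr
    · have hnd : ¬ (p : ℤ) ∣ f.leadingCoeff := by
        intro h1
        have h2 : p ∣ f.leadingCoeff.natAbs := Int.natCast_dvd.1 h1
        rw [← ha] at h2
        exact h (Nat.le_of_dvd (Nat.pos_of_ne_zero ha0) h2)
      refine (St_prime f p hnd hf).trans ?_
      have h1 : (p : ℝ) * ((p : ℝ) - 1) ^ 2 + f.natDegree * p =
          (1 + f.natDegree * (1 / ((p : ℝ) - 1) ^ 2)) * (p * ((p : ℝ) - 1) ^ 2) := by
        field_simp
      rw [h1, one_mul]
      gcongr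
  calc ∏ p ∈ s, (St f (ZMod p) : ℝ) ≤ ∏ p ∈ s, (((if p ≤ a then 4 else 1) *
        Real.exp (f.natDegree * (1 / ((p : ℝ) - 1) ^ 2))) * ((p : ℝ) * ((p : ℝ) - 1) ^ 2)) :=
        prod_le_prod (fun p _ => Nat.cast_nonneg _) hfac
    _ = ((∏ p ∈ s, (if p ≤ a then (4 : ℝ) else 1)) * ∏ p ∈ s, Real.exp (f.natDegree * (1 / ((p : ℝ) - 1) ^ 2))) *
        ((∏ p ∈ s, (p : ℝ)) * (∏ p ∈ s, ((p : ℝ) - 1)) ^ 2) := by
        rw [prod_mul_distrib, prod_mul_distrib, prod_mul_distrib, prod_pow]
    _ ≤ _ := by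
        apply mul_le_mul_of_nonneg_right
        · apply mul_le_mul
          · rw [← prod_filter, prod_const]
            apply pow_le_pow_right₀ (by norm_num)
            have : s.filter (fun p => p ≤ a) ⊆ Icc 1 a := by
              intro p hp
              rw [mem_filter] at hp
              rw [mem_Icc]
              exact ⟨(hsp p hp.1).one_lt.le, hp.2⟩
            refine (card_le_card this).trans ?_
            rw [Nat.card_Icc]; omega
          · rw [← Real.exp_sum]
            apply Real.exp_le_exp.2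
            rw [← mul_sum, mul_comm 2]
            apply mul_le_mul_of_nonneg_left _ (Nat.cast_nonneg _)
            have h1 : ∑ p ∈ s, (1 : ℝ) / ((p : ℝ) - 1) ^ 2 = ∑ n ∈ s.image (fun p : ℕ => (p - 1 : ℕ)), ((n : ℝ) ^ 2)⁻¹ := by
              rw [sum_image]
              · apply sum_congr rfl
                intro p hp
                rw [Nat.cast_sub (hsp p hp).one_lt.le, Nat.cast_one, one_div]
              · intro p hp q hq hpq
                have h1 := (hsp p hp).one_lt
                have h2 := (hsp q hq).one_lt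
                simp only at hpq
                omega
            rw [h1]
            have h2 : s.image (fun p : ℕ => (p - 1 : ℕ)) ⊆ Ioo 0 (m + 1) := by
              intro n hn
              rw [mem_image] at hn
              obtain ⟨p, hp, rfl⟩ := hn
              have h3 := (hsp p hp).one_lt
              rw [hs, mem_filter, mem_range] at hp
              rw [mem_Ioo]
              omega
            refine (sum_le_sum_of_subset_of_nonneg h2 fun _ _ _ => by positivity).trans ?_
            have h3 := sum_Ioo_inv_sq_le (α := ℝ) 0 (m + 1)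
            norm_num at h3
            exact h3
          · positivity
          · positivity
        · apply mul_nonneg
          · exact prod_nonneg fun p _ => Nat.cast_nonneg _
          · positivity

end Pool.Agent.Y880.RS.Sec
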