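import Pool.Agent.Y880.RS.Eng
import Pool.Agent.Y880.RS.Mo2

/-!
The engine for tuples of primes: progressions in sets of tuples of primes `x + T u i`, `i < κ`, of
positive relative density.
-/

set_option autoImplicit false

open Finset

namespace Pool.Agent.Y880.RS

open Pool.Agent.H602R3.DHJ
open Pool.Agent.Y727.PSP

/-- the numbers in a class modulo `Q` in an interval -/
def cls (y Y Q a : ℕ) : Finset ℕ := (Ioc y (y + Y)).filter (fun n => n % Q = a % Q)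

theorem log_ev (A : ℝ) : ∃ Z₀ : ℕ, ∀ Z : ℕ, Z₀ ≤ Z → A ≤ Real.log Z := by
  have h1 : Filter.Tendsto (fun X : ℕ => Real.log X) Filter.atTop Filter.atTop :=
    Real.tendsto_log_atTop.comp tendsto_natCast_atTop_atTop
  exact Filter.eventually_atTop.1 (h1.eventually_ge_atTop A)

/-- the pair conditions for a system of shifts `T u i`, `1 ≤ u ≤ N`, `i < κ` -/
def Sep (κ A Z Q N : ℕ) (s : ℝ) (T : ℕ → Fin κ → ℕ) : Prop :=
  ∀ u ∈ Icc 1 N, ∀ u' ∈ Icc 1 N, ∀ i i' : Fin κ, (u, i) ≠ (u', i') → ∃ Δ : ℕ, Δ ≠ 0 ∧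
    Real.log Δ ≤ A * s ∧ ∀ p : ℕ, p.Prime → ¬ p ∣ Q → (p : ℤ) ∣ (T u i : ℤ) - T u' i' →
      p ∣ Δ ∧ (p : ℝ) ≤ Real.exp (Real.sqrt (Real.log Z))

theorem te0 (k κ A : ℕ) (hk : 2 ≤ k) (δ : ℝ) (hδ : 0 < δ) : ∃ B Z₀ : ℕ, ∃ s₀ c : ℝ, 0 < c ∧
    ∀ (Z Q N : ℕ) (s : ℝ), Z₀ ≤ Z → 1 ≤ Q → Q ≤ Z ^ A → s₀ ≤ s →
    (∀ p : ℕ, p.Prime → (p : ℝ) ≤ s → p ∣ Q) → N.Prime → Real.log Z ^ B ≤ N →
    ∀ (y Y a : ℕ) (T : ℕ → Fin κ → ℕ), Z * Q ≤ Y →
    (∀ u ∈ Icc 1 N, ∀ i, 1 ≤ T u i ∧ y + Y + T u i ≤ Z ^ A) → Sep κ A Z Q N s T →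
    ∀ h : ℕ, 2 * h < N → ∀ P : Finset (ℕ × ℕ), (∀ x ∈ P, x.1 ∈ cls y Y Q a ∧ x.2 ∈ Icc 1 h ∧
      ∀ i, (x.1 + T x.2 i).Prime ∧ Z < x.1 + T x.2 i) →
    δ * ((Y : ℝ) / Q) * N * ((Q : ℝ) / (Q.totient * Real.log Z)) ^ κ ≤ P.card →
    ∃ G ⊆ cls y Y Q a, c * ((Y : ℝ) / Q) ≤ G.card ∧ ∀ x ∈ G, ∃ u r : ℕ, 1 ≤ u ∧ 1 ≤ r ∧ ∀ j < k,
      (x, u + j * r) ∈ P := by
  classical
  obtain ⟨M₁, hM₁⟩ : ∃ M₁, M₁ = 2 * (k * 2 ^ k) := ⟨_, rfl⟩
  obtain ⟨c₁, hc₁, hmom⟩ := mom (M₁ * κ)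
  obtain ⟨δ', hδ'⟩ : ∃ δ', δ' = δ * c₁ ^ κ / 2 := ⟨_, rfl⟩
  have hδ'0 : 0 < δ' := by rw [hδ']; positivity
  obtain ⟨η, c₂, hη, hc₂, heng⟩ := eng k hk δ' hδ'0
  obtain ⟨A', hA'⟩ : ∃ A', A' = A * ((M₁ * κ) ^ 2 + 1) := ⟨_, rfl⟩
  have hAA' : A ≤ A' := by rw [hA']; exact Nat.le_mul_of_pos_right _ (by omega)
  obtain ⟨B, Z₁, s₀, hm⟩ := hmom A' (min (η / 4) (1 / 4)) (lt_min (by positivity) (by norm_num))
  obtain ⟨η', hη'⟩ : ∃ η', η' = min (η / 4) (1 / 4 : ℝ) := ⟨_, rfl⟩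
  rw [← hη'] at hm
  have hη'1 : η' ≤ η / 4 := hη' ▸ min_le_left _ _
  have hη'2 : η' ≤ 1 / 4 := hη' ▸ min_le_right _ _
  obtain ⟨Z₂, hZ₂⟩ := log_ev (max (max 1 (1 / c₂)) (k + 1))
  refine ⟨B * κ * M₁ * k + 1, max (max Z₁ Z₂) 2, max s₀ 0, δ' / 4, by positivity, ?_⟩
  intro Z Q N s hZ hQ hQZ hs hQs hN hNB y Y a T hZQ hT hSep h h2 P hP hPc
  have hZ1 : Z₁ ≤ Z := ((le_max_left _ _).trans (le_max_left _ _)).trans hZ
  have hlogs := hZ₂ Z (((le_max_right _ _).trans (le_max_left _ _)).trans hZ)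
  have hlog1 : 1 ≤ Real.log Z := ((le_max_left _ _).trans (le_max_left _ _)).trans hlogs
  have hlog2 : 1 / c₂ ≤ Real.log Z := ((le_max_right _ _).trans (le_max_left _ _)).trans hlogs
  have hlog3 : (k : ℝ) + 1 ≤ Real.log Z := (le_max_right _ _).trans hlogs
  have hZ2 : 2 ≤ Z := (le_max_right _ _).trans hZ
  have hs0 : s₀ ≤ s := (le_max_left _ _).trans hs
  have hsnn : 0 ≤ s := (le_max_right _ _).trans hs
  have hNne : NeZero N := ⟨hN.ne_zero⟩
  have hQ0 : (0 : ℝ) < Q := by exact_mod_cast hQ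
  have hφ0 : (0 : ℝ) < Q.totient := by exact_mod_cast Nat.totient_pos.2 hQ
  have hN0 : (0 : ℝ) < N := by exact_mod_cast hN.pos
  have hZ0 : (0 : ℝ) < Z := by
    have : 0 < Z := by omega
    exact_mod_cast this
  have hQZ' : Q ≤ Z ^ A' := hQZ.trans (Nat.pow_le_pow_right (by omega) hAA')
  obtain ⟨ν, hν0, hνB, hνp, hν⟩ := hm Z Q hZ1 hQ hQZ' (fun p hp hps => hQs p hp (hps.trans hs0))
  have hYQ : (Z : ℝ) ≤ (Y : ℝ) / Q := by
    rw [le_div_iff₀ hQ0]; exact_mod_cast hZQ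
  have hYQ0 : (0 : ℝ) < (Y : ℝ) / Q := hZ0.trans_le hYQ
  obtain ⟨U, hU⟩ : ∃ U, U = (Y : ℝ) / Q := ⟨_, rfl⟩
  obtain ⟨S, hS⟩ : ∃ S, S = cls y Y Q a := ⟨_, rfl⟩
  rw [← hU] at hYQ0 hPc
  rw [← hS]
  rw [← hU]
  -- the number of worlds
  have hScard : |(S.card : ℝ) / U - 1| ≤ η' := by
    have e1 := hν 0 (Nat.zero_le _) (fun i => i.elim0) y Y a 1 s hZQ hs0 hQs (fun i => i.elim0)
      one_ne_zero (by simp; positivity) (fun i => i.elim0)
    rw [← hU] at e1
    have e2 : (∑ n ∈ (Ioc y (y + Y)).filter (fun n => n % Q = a % Q),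
        ∏ i : Fin 0, ν (n + (fun i : Fin 0 => (i.elim0 : ℕ)) i)) = S.card := by
      rw [hS, cls]
      simp
    rw [e2] at e1
    exact e1
  have hS1 := abs_le.1 hScard
  have hSup : (S.card : ℝ) ≤ 2 * U := by
    have e1 : (S.card : ℝ) / U ≤ 2 := by linarith [hS1.2]
    rwa [div_le_iff₀ hYQ0] at e1
  have hSlo : U / 2 ≤ S.card := by
    have e1 : (1 : ℝ) / 2 ≤ S.card / U := by linarith [hS1.1]
    rw [le_div_iff₀ hYQ0] at e1
    linarith
  have hS0 : (0 : ℝ) < S.card := lt_of_lt_of_le (by positivity) hSlo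
  have hSne : S.Nonempty := by
    rw [← card_pos]; exact_mod_cast hS0
  -- the weights
  let F : ℕ → ZMod N → ℝ := fun x b => ∏ i : Fin κ, (if x ∈ S then ν (x + T (rp b) i) else 0)
  let f : ℕ → ZMod N → ℝ := fun x b => if x ∈ S ∧ (x, rp b) ∈ P then F x b else 0
  have hFx : ∀ x ∈ S, ∀ b, F x b = ∏ i : Fin κ, ν (x + T (rp b) i) := by
    intro x hx b
    exact prod_congr rfl fun i _ => by rw [if_pos hx]
  have hFnn : ∀ x b, 0 ≤ F x b := fun x b => prod_nonneg fun i _ => by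
    split_ifs
    · exact hν0 _
    · exact le_rfl
  have hrp : ∀ b : ZMod N, rp b ∈ Icc 1 N := fun b => mem_Icc.2 ⟨rp_pos b, rp_le b⟩
  have hνle : ∀ x ∈ S, ∀ b : ZMod N, ∀ i, ν (x + T (rp b) i) ≤ Real.log Z ^ B := by
    intro x hx b i
    apply hνB
    rw [hS, cls, mem_filter, mem_Ioc] at hx
    have := (hT (rp b) (hrp b) i).2
    calc x + T (rp b) i ≤ y + Y + T (rp b) i := by omega
      _ ≤ Z ^ A := this
      _ ≤ Z ^ A' := Nat.pow_le_pow_right (by omega) hAA'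
  obtain ⟨L, hL⟩ : ∃ L, L = Real.log Z ^ (B * κ * M₁) := ⟨_, rfl⟩
  have hL1 : 1 ≤ L := by rw [hL]; exact one_le_pow₀ hlog1
  have hmaj : MajA S F (2 * (k * 2 ^ k)) η L := by
    rw [← hM₁]
    refine ⟨hFnn, ?_, ?_⟩
    · intro I _ hI b hb
      have e := Fintype.equivFin (I × Fin κ)
      obtain ⟨m, hm'⟩ : ∃ m, m = Fintype.card (I × Fin κ) := ⟨_, rfl⟩
      rw [← hm'] at e
      have hmM : m ≤ M₁ * κ := by
        rw [hm', Fintype.card_prod, Fintype.card_fin]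
        exact Nat.mul_le_mul_right _ hI
      let t : Fin m → ℕ := fun j => T (rp (b (e.symm j).1)) (e.symm j).2
      have hpair : ∀ j j' : Fin m, j ≠ j' → ∃ Δ : ℕ, Δ ≠ 0 ∧ Real.log Δ ≤ A * s ∧
          ∀ p : ℕ, p.Prime → ¬ p ∣ Q → (p : ℤ) ∣ (t j : ℤ) - t j' →
            p ∣ Δ ∧ (p : ℝ) ≤ Real.exp (Real.sqrt (Real.log Z)) := by
        intro j j' hjj
        apply hSep _ (hrp _) _ (hrp _)
        intro heq
        rw [Prod.mk.injEq] at heq
        apply hjj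
        apply e.symm.injective
        have h1 : rp (b (e.symm j).1) = rp (b (e.symm j').1) := heq.1
        have h2 : b (e.symm j).1 = b (e.symm j').1 := Pool.Agent.Y79.PSP.MK.rp_inj h1
        exact Prod.ext (hb h2) heq.2
      choose! D hD using hpair
      have hΔ0 : (∏ q ∈ (univ : Finset (Fin m)).offDiag, D q.1 q.2) ≠ 0 := by
        rw [prod_ne_zero_iff]
        intro q hq
        rw [mem_offDiag] at hq
        exact (hD q.1 q.2 hq.2.2).1
      have hlogΔ : Real.log ((∏ q ∈ (univ : Finset (Fin m)).offDiag, D q.1 q.2 : ℕ) : ℝ) ≤ A' * s := by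
        rw [Nat.cast_prod, Real.log_prod]
        · calc ∑ q ∈ (univ : Finset (Fin m)).offDiag, Real.log (D q.1 q.2 : ℝ)
              ≤ ∑ q ∈ (univ : Finset (Fin m)).offDiag, (A : ℝ) * s := by
                apply sum_le_sum
                intro q hq
                rw [mem_offDiag] at hq
                exact (hD q.1 q.2 hq.2.2).2.1
            _ = ((univ : Finset (Fin m)).offDiag.card : ℝ) * (A * s) := by
                rw [sum_const, nsmul_eq_mul]
            _ ≤ (((M₁ * κ) ^ 2 + 1 : ℕ) : ℝ) * (A * s) := by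
                have : (univ : Finset (Fin m)).offDiag.card ≤ (M₁ * κ) ^ 2 + 1 := by
                  rw [offDiag_card, card_univ, Fintype.card_fin]
                  have : m * m ≤ (M₁ * κ) * (M₁ * κ) := Nat.mul_le_mul hmM hmM
                  rw [pow_two]
                  omega
                gcongr
            _ = A' * s := by rw [hA']; push_cast; ring
        · intro q hq
          rw [mem_offDiag] at hq
          have := (hD q.1 q.2 hq.2.2).1
          exact_mod_cast this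
      have h1 := hν m hmM t y Y a _ s hZQ hs0 hQs (fun j => (hT _ (hrp _) _).1) hΔ0 hlogΔ (by
        intro j j' hjj p hp hpQ hpd
        obtain ⟨h3, h4⟩ := (hD j j' hjj).2.2 p hp hpQ hpd
        refine ⟨h3.trans ?_, h4⟩
        exact dvd_prod_of_mem (fun q : Fin m × Fin m => D q.1 q.2)
          (show (j, j') ∈ (univ : Finset (Fin m)).offDiag by
            rw [mem_offDiag]; exact ⟨mem_univ _, mem_univ _, hjj⟩))
      rw [← hU] at h1
      have h2 : ∑ n ∈ (Ioc y (y + Y)).filter (fun n => n % Q = a % Q), ∏ j, ν (n + t j) =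
          ∑ x ∈ S, ∏ i, F x (b i) := by
        have h3 : (Ioc y (y + Y)).filter (fun n => n % Q = a % Q) = S := by rw [hS, cls]
        rw [h3]
        apply sum_congr rfl
        intro x hx
        calc ∏ j, ν (x + t j) = ∏ q : I × Fin κ, ν (x + T (rp (b q.1)) q.2) :=
              Equiv.prod_comp e.symm (fun q : I × Fin κ => ν (x + T (rp (b q.1)) q.2))
          _ = ∏ i, ∏ l, ν (x + T (rp (b i)) l) := Fintype.prod_prod_type _
          _ = _ := prod_congr rfl fun i _ => (hFx x hx _).symm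
      rw [h2] at h1
      obtain ⟨a1, a2⟩ := abs_le.1 h1
      obtain ⟨E, hE⟩ : ∃ E, E = ∑ x ∈ S, ∏ i, F x (b i) := ⟨_, rfl⟩
      rw [← hE] at a1 a2 ⊢
      have a3 : E ≤ (1 + η') * U := by
        have : E / U ≤ 1 + η' := by linarith
        rwa [div_le_iff₀ hYQ0] at this
      have a4 : (1 - η') * U ≤ E := by
        have : 1 - η' ≤ E / U := by linarith
        rwa [le_div_iff₀ hYQ0] at this
      have a5 : (S.card : ℝ) ≤ (1 + η') * U := by
        have : (S.card : ℝ) / U ≤ 1 + η' := by linarith [hS1.2]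
        rwa [div_le_iff₀ hYQ0] at this
      have a6 : (1 - η') * U ≤ S.card := by
        have : 1 - η' ≤ (S.card : ℝ) / U := by linarith [hS1.1]
        rwa [le_div_iff₀ hYQ0] at this
      have a7 : 2 * η' * U ≤ η * S.card := by
        have : 2 * η' * U ≤ η / 2 * U := by
          apply mul_le_mul_of_nonneg_right _ hYQ0.le
          linarith
        have h8 : η * (U / 2) ≤ η * S.card := by gcongr
        linarith
      rw [div_sub_one hS0.ne', abs_div, abs_of_pos hS0, div_le_iff₀ hS0, abs_le]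
      constructor <;> linarith
    · intro I _ hI b x hx
      calc ∏ i, F x (b i) ≤ ∏ _i : I, (Real.log Z ^ B) ^ κ := by
            apply prod_le_prod (fun i _ => hFnn _ _)
            intro i _
            rw [hFx x hx]
            calc ∏ l : Fin κ, ν (x + T (rp (b i)) l) ≤ ∏ _l : Fin κ, Real.log Z ^ B :=
                  prod_le_prod (fun l _ => hν0 _) (fun l _ => hνle x hx _ l)
              _ = _ := by rw [prod_const, card_univ, Fintype.card_fin]
        _ = Real.log Z ^ (B * κ * Fintype.card I) := by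
            rw [prod_const, card_univ, ← pow_mul, ← pow_mul, mul_assoc]
        _ ≤ L := by
            rw [hL]
            apply pow_le_pow_right₀ hlog1
            exact Nat.mul_le_mul_left _ hI
  have hLk : L ^ k ≤ c₂ * N := by
    calc L ^ k = Real.log Z ^ (B * κ * M₁ * k) := by rw [hL, ← pow_mul]
      _ ≤ Real.log Z ^ (B * κ * M₁ * k) * (c₂ * Real.log Z) := by
          have : 1 ≤ c₂ * Real.log Z := by
            rw [div_le_iff₀ hc₂] at hlog2
            linarith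
          exact le_mul_of_one_le_right (by positivity) this
      _ = c₂ * Real.log Z ^ (B * κ * M₁ * k + 1) := by rw [pow_succ]; ring
      _ ≤ c₂ * N := by gcongr
  have hkN : k < N := by
    have e1 : Real.log Z ≤ N := by
      refine le_trans ?_ hNB
      exact le_self_pow₀ hlog1 (by omega)
    have : (k : ℝ) < N := by linarith
    exact_mod_cast this
  have hff : ∀ x b, 0 ≤ f x b ∧ f x b ≤ F x b := by
    intro x b
    simp only [f]
    split_ifs
    · exact ⟨hFnn x b, le_rfl⟩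
    · exact ⟨le_rfl, hFnn x b⟩
  have hfP : ∀ x b, f x b ≠ 0 → (x, rp b) ∈ P := by
    intro x b hb
    simp only [f] at hb
    by_contra hcon
    exact hb (if_neg fun h => hcon h.2)
  have hsum : δ' * S.card ≤ ∑ x ∈ S, av (f x) := by
    have e1 : ∀ x ∈ S, (∑ u ∈ Icc 1 N, if (x, u) ∈ P then
        (c₁ * ((Q.totient : ℝ) / Q) * Real.log Z) ^ κ else 0) / N ≤ av (f x) := by
      intro x hx
      rw [av, ZMod.card]
      apply div_le_div_of_nonneg_right _ hN0.le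
      have e2 : ∑ b : ZMod N, f x b = ∑ u ∈ Icc 1 N, (if (x, u) ∈ P then
          ∏ i : Fin κ, ν (x + T u i) else 0) := by
        rw [← sum_rp N (fun u => if (x, u) ∈ P then ∏ i : Fin κ, ν (x + T u i) else 0)]
        apply sum_congr rfl
        intro b _
        simp only [f]
        by_cases hb : (x, rp b) ∈ P
        · rw [if_pos ⟨hx, hb⟩, if_pos hb, hFx x hx]
        · rw [if_neg fun h => hb h.2, if_neg hb]
      rw [e2]
      apply sum_le_sum
      intro u _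
      split_ifs with hu
      · calc (c₁ * ((Q.totient : ℝ) / Q) * Real.log Z) ^ κ =
            ∏ _i : Fin κ, (c₁ * ((Q.totient : ℝ) / Q) * Real.log Z) := by
              rw [prod_const, card_univ, Fintype.card_fin]
          _ ≤ _ := by
              apply prod_le_prod
              · intro i _
                positivity
              · intro i _
                have := (hP _ hu).2.2 i
                exact hνp _ this.1 this.2
      · exact le_rfl
    refine le_trans ?_ (sum_le_sum e1)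
    rw [← sum_div, le_div_iff₀ hN0]
    have e3 : ∑ x ∈ S, ∑ u ∈ Icc 1 N, (if (x, u) ∈ P then
        (c₁ * ((Q.totient : ℝ) / Q) * Real.log Z) ^ κ else 0) =
        P.card * (c₁ * ((Q.totient : ℝ) / Q) * Real.log Z) ^ κ := by
      rw [← sum_product', ← sum_filter, sum_const, nsmul_eq_mul]
      congr 2
      have : (S ×ˢ Icc 1 N).filter (fun x => (x.1, x.2) ∈ P) = P := by
        ext x
        rw [mem_filter, mem_product]
        constructor
        · rintro ⟨_, hx⟩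
          exact hx
        · intro hx
          have h3 := hP x hx
          refine ⟨⟨hS ▸ h3.1, ?_⟩, hx⟩
          have h4 := mem_Icc.1 h3.2.1
          rw [mem_Icc]
          omega
      rw [this]
    rw [e3]
    have e4 : 0 ≤ (c₁ * ((Q.totient : ℝ) / Q) * Real.log Z) ^ κ := by positivity
    refine le_trans ?_ (mul_le_mul_of_nonneg_right hPc e4)
    have e5 : δ * U * N * ((Q : ℝ) / (Q.totient * Real.log Z)) ^ κ *
        (c₁ * ((Q.totient : ℝ) / Q) * Real.log Z) ^ κ = δ * U * N * c₁ ^ κ := by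
      rw [mul_assoc, ← mul_pow]
      congr 2
      field_simp
    rw [e5]
    calc δ' * S.card * N ≤ δ' * (2 * U) * N := by gcongr
      _ = _ := by rw [hδ']; ring
  obtain ⟨G, hGS, hGc, hG⟩ := heng N hN hkN S F f L h hSne hL1 hmaj hLk hff h2 (by
    intro x b hb
    exact (mem_Icc.1 (hP _ (hfP x b hb)).2.1).2) hsum
  refine ⟨G, hGS, ?_, fun x hx => ?_⟩
  · refine le_trans ?_ hGc
    have : δ' / 2 * (U / 2) ≤ δ' / 2 * S.card := by gcongr
    linarith
  · obtain ⟨u, r, hu, hr, hj⟩ := hG x hx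
    refine ⟨u, r, hu, hr, fun j hjk => ?_⟩
    obtain ⟨h3, h4, h5⟩ := hj j hjk
    have h6 := hfP _ _ h5
    rwa [rp_of (u + j * r) h3 (by omega)] at h6

/-- the upper bound sieve -/
theorem ub (κ A : ℕ) : ∃ C s₀ : ℝ, ∃ Z₀ : ℕ, 0 < C ∧ ∀ (Z Q : ℕ) (s : ℝ), Z₀ ≤ Z → 1 ≤ Q →
    Q ≤ Z ^ A → s₀ ≤ s → (∀ p : ℕ, p.Prime → (p : ℝ) ≤ s → p ∣ Q) →
    ∀ (y Y a : ℕ) (t : Fin κ → ℕ) (Δ : ℕ), Z * Q ≤ Y → (∀ i, 1 ≤ t i) → Δ ≠ 0 →
    Real.log Δ ≤ A * s → (∀ i j, i ≠ j → ∀ p : ℕ, p.Prime → ¬ p ∣ Q → (p : ℤ) ∣ (t i : ℤ) - t j →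
      p ∣ Δ ∧ (p : ℝ) ≤ Real.exp (Real.sqrt (Real.log Z))) →
    ∀ P ⊆ cls y Y Q a, (∀ x ∈ P, ∀ i, (x + t i).Prime ∧ Z < x + t i) →
    (P.card : ℝ) ≤ C * ((Y : ℝ) / Q) * ((Q : ℝ) / (Q.totient * Real.log Z)) ^ κ := by
  classical
  obtain ⟨c₁, hc₁, hmom⟩ := mom κ
  obtain ⟨B, Z₁, s₀, hm⟩ := hmom A 1 one_pos
  obtain ⟨Z₂, hZ₂⟩ := log_ev 1
  refine ⟨2 / c₁ ^ κ, s₀, max (max Z₁ Z₂) 2, by positivity, ?_⟩
  intro Z Q s hZ hQ hQZ hs hQs y Y a t Δ hZQ ht hΔ hΔs htt P hP hPp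
  have hZ1 : Z₁ ≤ Z := ((le_max_left _ _).trans (le_max_left _ _)).trans hZ
  have hlog1 := hZ₂ Z (((le_max_right _ _).trans (le_max_left _ _)).trans hZ)
  have hZ2 : 2 ≤ Z := (le_max_right _ _).trans hZ
  have hQ0 : (0 : ℝ) < Q := by exact_mod_cast hQ
  have hφ0 : (0 : ℝ) < Q.totient := by exact_mod_cast Nat.totient_pos.2 hQ
  have hZ0 : (0 : ℝ) < Z := by
    have : 0 < Z := by omega
    exact_mod_cast this
  obtain ⟨ν, hν0, hνB, hνp, hν⟩ := hm Z Q hZ1 hQ hQZ (fun p hp hps => hQs p hp (hps.trans hs))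
  have h1 := hν κ le_rfl t y Y a Δ s hZQ hs hQs ht hΔ hΔs htt
  have hYQ : (Z : ℝ) ≤ (Y : ℝ) / Q := by
    rw [le_div_iff₀ hQ0]; exact_mod_cast hZQ
  have hYQ0 : (0 : ℝ) < (Y : ℝ) / Q := hZ0.trans_le hYQ
  obtain ⟨U, hU⟩ : ∃ U, U = (Y : ℝ) / Q := ⟨_, rfl⟩
  rw [← hU] at h1 hYQ0 ⊢
  have h2 := (abs_le.1 h1).2
  have h3 : ∑ n ∈ (Ioc y (y + Y)).filter (fun n => n % Q = a % Q), ∏ i, ν (n + t i) ≤ 2 * U := by
    have : (∑ n ∈ (Ioc y (y + Y)).filter (fun n => n % Q = a % Q), ∏ i, ν (n + t i)) / U ≤ 2 := by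
      linarith
    rwa [div_le_iff₀ hYQ0] at this
  have h4 : (P.card : ℝ) * (c₁ * ((Q.totient : ℝ) / Q) * Real.log Z) ^ κ ≤ 2 * U := by
    refine le_trans ?_ h3
    calc (P.card : ℝ) * (c₁ * ((Q.totient : ℝ) / Q) * Real.log Z) ^ κ =
        ∑ _n ∈ P, (c₁ * ((Q.totient : ℝ) / Q) * Real.log Z) ^ κ := by
          rw [sum_const, nsmul_eq_mul]
      _ ≤ ∑ n ∈ P, ∏ i, ν (n + t i) := by
          apply sum_le_sum
          intro n hn
          have e1 : (c₁ * ((Q.totient : ℝ) / Q) * Real.log Z) ^ κ =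
              ∏ _i : Fin κ, (c₁ * ((Q.totient : ℝ) / Q) * Real.log Z) := by
            rw [prod_const, card_univ, Fintype.card_fin]
          rw [e1]
          apply prod_le_prod
          · intro i _
            positivity
          · intro i _
            have := hPp n hn i
            exact hνp _ this.1 this.2
      _ ≤ _ := sum_le_sum_of_subset_of_nonneg hP fun n _ _ => prod_nonneg fun i _ => hν0 _
  have h5 : 0 < (c₁ * ((Q.totient : ℝ) / Q) * Real.log Z) ^ κ := by positivity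
  have h6 : 2 / c₁ ^ κ * U * ((Q : ℝ) / (Q.totient * Real.log Z)) ^ κ *
      (c₁ * ((Q.totient : ℝ) / Q) * Real.log Z) ^ κ = 2 * U := by
    rw [mul_assoc, ← mul_pow]
    have : (Q : ℝ) / (Q.totient * Real.log Z) * (c₁ * ((Q.totient : ℝ) / Q) * Real.log Z) = c₁ := by
      field_simp
    rw [this]
    field_simp
  rw [← h6] at h4
  exact le_of_mul_le_mul_right h4 h5

end Pool.Agent.Y880.RS
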